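import Pool.Agent.Rot4.CorrSmooth

/-!
# Actions and generators: definition of the correspondence, conjugations

`Pair n f G H`: the action `f` and the generator `G` correspond to each other, `H` conjugates `G` to
`x ↦ x / 2`.

PROOFS. `Pair.near`: `G = tau` on a thin cone (`nnG`, `tau ^ 1`). `Pair.good`: `Good G H e0`: `H` is the
identity on `Cone ε`, so `H⁻¹ (t e0) = t e0` and `Reg H (t e0)` because `H` agrees with the identity
near `t e0` (`Cone_mem_nhds`).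
`lift_conj`: `up` with `a = 0` (`AgreeOff h id`) gives `Φ`; `Φ * G` and `G' * Φ` lie over `h f = f' h` and
are in `Nn n 1` (`Nn.mul`), so they are equal (`Corr.lift_eq`).
`drop_conj`: `down` with `a = 0` gives `h`; `h f` and `f' h` are both covered by `Φ G = G' Φ`, so they
are equal (`Corr.unique`).
-/

set_option autoImplicit false

open scoped ContDiff Topology
open Set Filter Metric

namespace Pool.Agent.Rot4

open Pool.Agent.HopfCov hiding pr
open Pool.Agent.HopfFin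
open Pool.Agent.HopfCov.Smooth

/-- the action `f` and the generator `G` correspond to each other -/
structure Pair (n : ℕ) (f G H : E4 ≃ₜ E4) : Prop where
  nnG : Nn n 1 G
  nnH : Nn n 0 H
  corr : Corr n G f
  conj : H * G = tau * H
  pow : G ^ n = tau ^ n
  sm : Sm G

theorem Pair.near {n : ℕ} {f G H : E4 ≃ₜ E4} (h : Pair n f G H) :
    ∃ δ : ℝ, 0 < δ ∧ ∀ x ∈ Cone δ, G x = (2⁻¹ : ℝ) • x := by
  obtain ⟨δ, hδ, h1⟩ := h.nnG.near
  refine ⟨δ, hδ, fun x hx => ?_⟩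
  rw [h1 x hx, pow_one]
  rfl

theorem Pair.good {n : ℕ} {f G H : E4 ≃ₜ E4} (h : Pair n f G H) : Good G H e0 := by
  obtain ⟨δ, hδ, h1⟩ := h.nnH.near
  have h2 : ∀ x ∈ Cone δ, H x = x := by
    intro x hx
    rw [h1 x hx, pow_zero]
    rfl
  refine ⟨h.nnH.zero, h.conj, fun t ht => ?_⟩
  have h3 : (H⁻¹ : E4 ≃ₜ E4) (t • e0) = t • e0 := by
    have h4 := inv_apply_self' H (t • e0)
    rwa [h2 _ (smul_e0_mem_Cone hδ.le ht.le)] at h4
  rw [h3]
  show ∀ᶠ y in 𝓝 (t • e0), RG H y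
  filter_upwards [(Filter.eventually_of_mem (Cone_mem_nhds hδ ht)
    (fun y hy => (h2 y hy))).eventually_nhds] with y hy
  exact (RG_id y).congr (hy.mono fun z hz => hz.symm)

theorem lift_conj {n : ℕ} (hn : 0 < n) {f f' G G' : E4 ≃ₜ E4} (hG : Nn n 1 G) (hf : Corr n G f)
    (hG' : Nn n 1 G') (hf' : Corr n G' f') {h : E4 ≃ₜ E4} (hh : AgreeOff h id)
    (hc : ∀ x, h (f x) = f' (h x)) :
    ∃ Φ : E4 ≃ₜ E4, Nn n 0 Φ ∧ Corr n Φ h ∧ Φ * G = G' * Φ := by
  obtain ⟨Φ, h1, h2⟩ := up (a := 0) hn (F := h) hh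
  refine ⟨Φ, h1, h2, ?_⟩
  have h3 : h * f = f' * h := Homeomorph.ext hc
  have h4 : Corr n (Φ * G) (f' * h) := by
    rw [← h3]
    exact h2.mul hf
  have h5 : Nn n 1 (Φ * G) := by
    have h6 := h1.mul hG
    rwa [Nat.zero_add] at h6
  have h7 : Nn n 1 (G' * Φ) := by
    have h6 := hG'.mul h1
    rwa [Nat.add_zero] at h6
  exact Corr.lift_eq hn h5 h7 h4 (hf'.mul h2)

theorem drop_conj {n : ℕ} (hn : 0 < n) {f f' G G' : E4 ≃ₜ E4} (hf : Corr n G f)
    (hf' : Corr n G' f') {Φ : E4 ≃ₜ E4} (hΦ : Nn n 0 Φ) (hc : Φ * G = G' * Φ) :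
    ∃ h : E4 ≃ₜ E4, AgreeOff h id ∧ Corr n Φ h ∧ ∀ x, h (f x) = f' (h x) := by
  obtain ⟨h, h1, h2⟩ := down hn hΦ
  refine ⟨h, h1, h2, ?_⟩
  have h3 : Corr n (Φ * G) (f' * h) := by
    rw [hc]
    exact hf'.mul h2
  have h4 : h * f = f' * h := Corr.unique hn (h2.mul hf) h3
  intro x
  exact congrArg (fun k : E4 ≃ₜ E4 => k x) h4

end Pool.Agent.Rot4
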