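import Pool.Agent.Rot4.ActUp

/-!
# From generators to actions

PROOF. `G = H⁻¹ tau H` is `tau` on a thin cone (`H` is the identity there) and commutes with `tau
^ n`,
so `Nn n 1 G`; `Nn n 0 H`. `G ^ n = H⁻¹ tau ^ n H = tau ^ n`. `down` with `a = 1` gives `f` over
`G` with
`AgreeOff f (rotate n)`; `drop_conj` with `Φ = H`, `f' = rotH n`, `G' = tau` gives `h`, which is the
`top` part. `f ^ n` and `1` are covered by `G ^ n = tau ^ n` (`Corr.pow`, `Corr_tau_pow`), so `f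
^ n =
1` (`Corr.unique`). `AllSmooth f` by `sm_iff`.
-/

set_option autoImplicit false

open scoped ContDiff Topology
open Set Filter Metric

namespace Pool.Agent.Rot4

open Pool.Agent.HopfCov hiding pr
open Pool.Agent.HopfFin
open Pool.Agent.HopfCov.Smooth

theorem act_down {n : ℕ} (hn : 0 < n) {G H : E4 ≃ₜ E4} (hG : Sm G) (hH0 : H 0 = 0)
    (hc : H * G = tau * H) (hn' : H * tau ^ n = tau ^ n * H)
    (hε : ∃ ε : ℝ, 0 < ε ∧ ∀ x ∈ Cone ε, H x = x) :
    ∃ f : Homeo4, Action n f ∧ Pair n f G H := by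
  obtain ⟨ε, hε0, hε1⟩ := hε
  have nnH : Nn n 0 H := by
    refine ⟨hH0, hn', ε, hε0, fun x hx => ?_⟩
    rw [hε1 x hx, pow_zero]
    rfl
  have hGe : G = H⁻¹ * HopfCov.tau * H := by
    rw [mul_assoc, ← hc, inv_mul_cancel_left]
  have nnG : Nn n 1 G := by
    have h1 := (nnH.inv.mul (Nn.tau n)).mul nnH
    rw [← hGe] at h1
    exact h1
  have hpow : G ^ n = HopfCov.tau ^ n := by
    have h1 : SemiconjBy H G HopfCov.tau := hc
    have h2 : H * G ^ n = HopfCov.tau ^ n * H := (h1.pow_right n).eq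
    rw [← hn'] at h2
    exact mul_left_cancel h2
  obtain ⟨f, hf1, hf2⟩ := down hn nnG
  obtain ⟨h, hh1, _, hh3⟩ := drop_conj hn hf2 (Corr_tau hn) nnH hc
  have hfn : f ^ n = 1 := by
    have h1 := hf2.pow n
    rw [hpow] at h1
    exact Corr.unique hn h1 (Corr_tau_pow hn)
  refine ⟨f, ⟨(sm_iff hn nnG hf2 hf1).1 hG, fun x => ?_, hf1, h, hh1, fun x => hh3 x⟩,
    ⟨nnG, nnH, hf2, hc, hpow, hG⟩⟩
  have h1 : (f ^ n : E4 ≃ₜ E4) x = x := by
    rw [hfn]
    rfl
  exact h1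

end Pool.Agent.Rot4
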