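import Pool.Agent.Rot4.RelNear

/-!
# Standard generators, relative to the ray

PROOF. `Cj G tau` gives `Φ₂` in `Sm` with `Φ₂ G = tau Φ₂`; `RegRay Φ₂` (`Sm.reg`, `t e0 ≠ 0`); apply
`rel_near`; `Φ = ψ Φ₂` (`Sm.mul`).
-/

set_option autoImplicit false

open scoped ContDiff Topology
open Set Filter Metric

namespace Pool.Agent.Rot4

open Pool.Agent.HopfCov hiding pr
open Pool.Agent.HopfFin

theorem std_rel {G : E4 ≃ₜ E4} {δ : ℝ} (hδ : 0 < δ) (hG : ∀ x ∈ Cone δ, G x = (2⁻¹ : ℝ) • x)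
    (h : Cj G tau) :
    ∃ Φ : E4 ≃ₜ E4, Sm Φ ∧ Φ * G = tau * Φ ∧ ∃ ε : ℝ, 0 < ε ∧ ∀ x ∈ Cone ε, Φ x = x := by
  obtain ⟨Φ₂, h1, h2⟩ := h
  have he : e0 ≠ 0 := by
    intro h3
    have h4 := norm_e0
    rw [h3, norm_zero] at h4
    exact zero_ne_one h4
  have hr : RegRay Φ₂ := fun t ht => h1.reg (smul_ne_zero ht.ne' he)
  obtain ⟨ψ, hψ, h3, h4⟩ := rel_near hδ hG h2 hr
  exact ⟨ψ * Φ₂, hψ.sm.mul h1, h3, h4⟩

end Pool.Agent.Rot4
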