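import Pool.Agent.Rot4.Act
import Pool.Agent.Rot4.RelStd

/-!
# Linear actions

PROOFS. `linear_iff`: `→`: `lift_conj` (with `f' = rotH n`, `G' = tau`: `Nn.tau`, `Corr_tau`)
gives `Φ` over `h` with `Φ G = tau Φ`, `Sm Φ` by `sm_iff`. `←`: `std_rel` (with `Pair.near`) gives
`Φ` in `Sm`, the identity near the ray, `Φ G = tau Φ`, so `Φ tau ^ n = Φ G ^ n = tau ^ n Φ`
(`Pair.pow`) and `Nn n 0 Φ`; `drop_conj` gives `h`, `sm_iff` the smoothness. `same`: `lift_conj`,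
`sm_iff`.

-/

set_option autoImplicit false

open scoped ContDiff Topology
open Set Filter Metric

namespace Pool.Agent.Rot4

open Pool.Agent.HopfCov hiding pr
open Pool.Agent.HopfFin
open Pool.Agent.HopfCov.Smooth

theorem linear_iff {n : ℕ} (hn : 0 < n) {f : Homeo4} {G H : E4 ≃ₜ E4} (h : Pair n f G H) :
    LinearAction n f ↔ Cj G tau := by
  constructor
  · rintro ⟨k, hA, hc, hk⟩
    obtain ⟨Φ, h1, h2, h3⟩ := lift_conj hn h.nnG h.corr (Nn.tau n) (Corr_tau hn) (h := k) hA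
      (fun x => hc x)
    exact ⟨Φ, (sm_iff (a := 0) hn h1 h2 hA).2 hk, h3⟩
  · intro hC
    obtain ⟨δ, hδ, hG⟩ := h.near
    obtain ⟨Φ, hS, hc, ε, hε, hid⟩ := std_rel hδ hG hC
    have hsemi : SemiconjBy Φ G tau := hc
    have hpow : Φ * tau ^ n = tau ^ n * Φ := by
      have h1 : Φ * G ^ n = tau ^ n * Φ := (hsemi.pow_right n).eq
      rwa [h.pow] at h1
    have hN : Nn n 0 Φ := ⟨hS.1, hpow, ε, hε, fun x hx => by
      rw [hid x hx, pow_zero]; rfl⟩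
    obtain ⟨k, hA, h2, h3⟩ := drop_conj hn h.corr (Corr_tau hn) hN hc
    exact ⟨k, hA, fun x => h3 x, (sm_iff (a := 0) hn hN h2 hA).1 hS⟩

theorem same {n : ℕ} (hn : 0 < n) {f f' : Homeo4} {G H G' H' : E4 ≃ₜ E4} (h : Pair n f G H)
    (h' : Pair n f' G' H') (hs : SameAction f f') : Cj G G' := by
  obtain ⟨k, hA, hc, hk⟩ := hs
  obtain ⟨Φ, h1, h2, h3⟩ := lift_conj hn h.nnG h.corr h'.nnG h'.corr (h := k) hA
    (fun x => hc x)
  exact ⟨Φ, (sm_iff (a := 0) hn h1 h2 hA).2 hk, h3⟩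

end Pool.Agent.Rot4
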