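import Pool.Agent.Rot4.Act

/-!
# From actions to generators

PROOF. `up` with `a = 1` gives `G` over `f` (`AgreeOff f (rotate n)`), in `Nn n 1`. `lift_conj` with `h`
from `Action.top` (`f' = rotH n`, `G' = tau`, `Nn.tau`, `Corr_tau`) gives `H` in `Nn n 0` with `H G = tau
H`. `Sm G` by `sm_iff`. `G ^ n` lies over `f ^ n = 1` (`Corr.pow`) and is in `Nn n n` (`Nn.pow`); `tau ^
n` lies over `1` as well: for `x` in `Om`, `q1 (tau ^ n x) = shf n (q1 x)` (`q1_smul`, `tau_pow_apply`)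
and `q2 n (shf n z) = q2 n z` (`q2_eq` or `q2_shf_nat`); so `G ^ n = tau ^ n` by `Corr.lift_eq`.
-/

set_option autoImplicit false

open scoped ContDiff Topology
open Set Filter Metric

namespace Pool.Agent.Rot4

open Pool.Agent.HopfCov hiding pr
open Pool.Agent.HopfFin
open Pool.Agent.HopfCov.Smooth

/-- `x ↦ x / 2 ^ n` lies over the identity -/
theorem Corr_tau_pow {n : ℕ} (hn : 0 < n) : Corr n (tau ^ n) 1 := by
  refine ⟨fun x hx => ?_, fun x hx => ?_⟩
  · rw [tau_pow_apply]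
    exact (Om_smul (Real.rpow_pos_of_pos (by norm_num) _)).2 hx
  · rw [tau_pow_apply, q1_smul hx, one_apply']
    refine ((q2_eq hn).2 ⟨1, ?_⟩).symm
    rw [Int.cast_one, mul_one]

theorem act_up {n : ℕ} (hn : 0 < n) {f : Homeo4} (hf : Action n f) :
    ∃ G H : E4 ≃ₜ E4, Pair n f G H := by
  have hF : AgreeOff (f.old : E4 → E4) ((rotate n)^[1]) := hf.near
  obtain ⟨G, hG, hc⟩ := up hn hF
  obtain ⟨h, hh, hc'⟩ := hf.top
  obtain ⟨H, hH, -, hconj⟩ := lift_conj hn (f := f.old) (f' := rotH n) hG hc (Nn.tau n)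
    (Corr_tau hn) (h := h.old) hh hc'
  have hpow : (f.old) ^ n = 1 := Homeomorph.ext fun x => hf.pow x
  have h1 : Corr n (G ^ n) 1 := by
    rw [← hpow]
    exact hc.pow n
  have h2 : Nn n n (G ^ n) := by
    have := hG.pow n
    rwa [one_mul] at this
  have h3 : Nn n n (tau ^ n) := by
    have := (Nn.tau n).pow n
    rwa [one_mul] at this
  exact ⟨G, H, hG, hH, hc, hconj, Corr.lift_eq hn h2 h3 h1 (Corr_tau_pow hn),
    (sm_iff hn hG hc hF).2 hf.smooth⟩

end Pool.Agent.Rot4
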