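import Pool.Agent.Rot4.BridgeTo

/-!
# From the coordinates to homeomorphisms of `ℝ⁴`

PROOF. Define `Φ x = b1 (F' (q1 x))` for `x` in `Om` and `Φ x = 2 ^ (-a) x` on the closed ray, and the
inverse in the same way from `F'⁻¹` (`F'⁻¹ z = shf (-a) z` for `R ≤ wsq z`, since `wsq (shf a z) =
wsq z`). They are inverse to each other (`b1_q1`, `q1_b1`, `Om_b1`, `Om_smul`). Let `δ` be as in
`wsq_of_cone R`: on `Cone δ` one has `Φ x = 2 ^ (-a) x` (`b1_shf`, `b1_q1`). Continuity: at points of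
`Om` by `continuousAt_q1`, `continuous_b1`; at points `t e0`, `t > 0`, because `Cone δ` is a
neighbourhood (`Cone_mem_nhds`); at `0`: on the compact set `{z | wsq z ≤ R, 0 ≤ z 3 ≤ n}` the
function `(F' z) 3` is bounded below by `- C`, and `(F' z) 3 - z 3` is invariant under `shf n` and
equal to `a` for `R ≤ wsq z`; so `(F' z) 3 ≥ z 3 - C'` for all `z`, and `‖Φ x‖ = 2 ^ (- (F' (q1 x)) 3)
≤ 2 ^ C' ‖x‖` (`norm_b1`, `(q1 x) 3 = - logb 2 ‖x‖`). The same for the inverse.
`Φ (tau ^ n x) = tau ^ n (Φ x)`: `q1_smul`, `b1_shf`, `tau_pow_apply`.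
-/

set_option autoImplicit false

open scoped ContDiff Topology
open Set Filter Metric

namespace Pool.Agent.Rot4

open Pool.Agent.HopfCov Pool.Agent.HopfFin Pool.Agent.HopfCov.Smooth

open Classical in
/-- the map which is given by `G` in the coordinates -/
private noncomputable def mkf (G : E4 → E4) (c : ℝ) (x : E4) : E4 :=
  if Om x then b1 (G (q1 x)) else (2 : ℝ) ^ (-c) • x

private theorem mkf_Om {G : E4 → E4} {c : ℝ} {x : E4} (hx : Om x) :
    mkf G c x = b1 (G (q1 x)) := by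
  unfold mkf
  rw [if_pos hx]

private theorem mkf_not {G : E4 → E4} {c : ℝ} {x : E4} (hx : ¬ Om x) :
    mkf G c x = (2 : ℝ) ^ (-c) • x := by
  unfold mkf
  rw [if_neg hx]

private theorem not_Om_zero : ¬ Om (0 : E4) := fun h => h.ne rfl

private theorem mkf_zero {G : E4 → E4} {c : ℝ} : mkf G c 0 = 0 := by
  rw [mkf_not not_Om_zero, smul_zero]

private theorem mkf_near {G : E4 → E4} {c R : ℝ} (h1 : ∀ z, R ≤ wsq z → G z = shf c z) :
    ∃ δ : ℝ, 0 < δ ∧ ∀ x ∈ Cone δ, mkf G c x = (2 : ℝ) ^ (-c) • x := by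
  obtain ⟨δ, hδ, h⟩ := wsq_of_cone R
  refine ⟨δ, hδ, fun x hx => ?_⟩
  by_cases ho : Om x
  · rw [mkf_Om ho, h1 _ (h x hx ho), b1_shf, b1_q1 ho]
  · exact mkf_not ho

private theorem mkf_smul {n : ℕ} {G : E4 → E4} {c : ℝ} (h2 : ∀ z, G (shf n z) = shf n (G z))
    (x : E4) : mkf G c ((2 : ℝ) ^ (-(n : ℝ)) • x) = (2 : ℝ) ^ (-(n : ℝ)) • mkf G c x := by
  have hp : (0 : ℝ) < (2 : ℝ) ^ (-(n : ℝ)) := Real.rpow_pos_of_pos two_pos _
  by_cases ho : Om x
  · rw [mkf_Om ho, mkf_Om ((Om_smul hp).2 ho), q1_smul ho, h2, b1_shf]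
  · rw [mkf_not ho, mkf_not (fun h => ho ((Om_smul hp).1 h)), smul_comm]

private theorem shf_apply_three (c : ℝ) (z : E4) : shf c z 3 = z 3 + c := by
  simp [shf]

private theorem continuous_shf' (z : E4) : Continuous fun c : ℝ => shf c z := by
  unfold shf
  fun_prop

private theorem continuous_three : Continuous fun z : E4 => z 3 :=
  (EuclideanSpace.proj (𝕜 := ℝ) (3 : Fin 4)).continuous

private theorem norm_sq_wsq (z : E4) : ‖z‖ ^ 2 = wsq z + z 3 ^ 2 := by
  rw [EuclideanSpace.norm_sq_eq, Fin.sum_univ_four]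
  simp only [Real.norm_eq_abs, sq_abs, wsq]

/-- the last coordinate is bounded below -/
private theorem exists_low {n : ℕ} (hn : 0 < n) {G : E4 → E4} (hG : Continuous G) {c R : ℝ}
    (h1 : ∀ z, R ≤ wsq z → G z = shf c z) (h2 : ∀ z, G (shf n z) = shf n (G z)) :
    ∃ C : ℝ, ∀ z, z 3 - C ≤ G z 3 := by
  set φ : E4 → ℝ := fun z => G z 3 - z 3 with hφ
  have hφc : Continuous φ := (continuous_three.comp hG).sub continuous_three
  have hK : IsCompact (closedBall (0 : E4) (Real.sqrt (|R| + (n : ℝ) ^ 2))) :=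
    isCompact_closedBall _ _
  obtain ⟨C, hC⟩ := hK.bddBelow_image hφc.continuousOn
  have hC' : ∀ z ∈ closedBall (0 : E4) (Real.sqrt (|R| + (n : ℝ) ^ 2)), C ≤ φ z :=
    fun z hz => hC ⟨z, hz, rfl⟩
  refine ⟨|C| + |c|, fun z => ?_⟩
  have hkey : -(|C| + |c|) ≤ φ z := by
    rcases le_or_gt R (wsq z) with hz | hz
    · have h3 : φ z = c := by
        simp only [hφ]
        rw [h1 z hz, shf_apply_three]
        ring
      rw [h3]
      have := neg_abs_le c
      have := abs_nonneg C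
      linarith
    · set w : E4 := shf (-z 3) z with hw
      have hw3 : w 3 = 0 := by
        rw [hw, shf_apply_three]
        ring
      have hzw : shf (z 3) w = z := by
        rw [hw, shf_shf, add_neg_cancel, shf_zero]
      have hper : Function.Periodic (fun t : ℝ => φ (shf t w)) n := by
        intro t
        have h4 : shf (t + n) w = shf n (shf t w) := by
          rw [add_comm t (n : ℝ)]
          exact (shf_shf n t w).symm
        simp only [hφ]
        rw [h4, h2, shf_apply_three, shf_apply_three]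
        ring
      obtain ⟨t, ht, h5⟩ := hper.exists_mem_Ico₀ (by exact_mod_cast hn) (z 3)
      have h6 : φ z = φ (shf t w) := by
        have h7 : φ (shf (z 3) w) = φ (shf t w) := h5
        rwa [hzw] at h7
      have h8 : shf t w ∈ closedBall (0 : E4) (Real.sqrt (|R| + (n : ℝ) ^ 2)) := by
        rw [mem_closedBall_zero_iff]
        apply Real.le_sqrt_of_sq_le
        rw [norm_sq_wsq, wsq_shf, hw, wsq_shf, shf_apply_three, shf_apply_three]
        have h9 : z 3 + -z 3 + t = t := by ring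
        rw [h9]
        have h10 : t ^ 2 ≤ (n : ℝ) ^ 2 := pow_le_pow_left₀ ht.1 ht.2.le 2
        have h11 := le_abs_self R
        linarith
      rw [h6]
      have h12 := hC' _ h8
      have h13 := neg_abs_le C
      have h14 := abs_nonneg c
      linarith
  simp only [hφ] at hkey
  linarith

private theorem continuous_mkf {n : ℕ} (hn : 0 < n) {G : E4 → E4} (hG : Continuous G) {c R : ℝ}
    (h1 : ∀ z, R ≤ wsq z → G z = shf c z) (h2 : ∀ z, G (shf n z) = shf n (G z)) :
    Continuous (mkf G c) := by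
  rw [continuous_iff_continuousAt]
  intro x
  by_cases ho : Om x
  · have h3 : ContinuousAt (fun y => b1 (G (q1 y))) x :=
      (continuous_b1.comp hG).continuousAt.comp (continuousAt_q1 ho)
    refine h3.congr ?_
    filter_upwards [isOpen_Om.mem_nhds ho] with y hy
    exact (mkf_Om hy).symm
  · obtain ⟨t, ht, rfl⟩ := not_Om_iff.1 ho
    rcases ht.eq_or_lt with ht0 | ht0
    · rw [← ht0, zero_smul]
      obtain ⟨C, hC⟩ := exists_low hn hG h1 h2
      have hb : ∀ y : E4, ‖mkf G c y‖ ≤ ((2 : ℝ) ^ C + (2 : ℝ) ^ (-c)) * ‖y‖ := by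
        intro y
        have hp1 : (0 : ℝ) < (2 : ℝ) ^ C := Real.rpow_pos_of_pos two_pos _
        have hp2 : (0 : ℝ) < (2 : ℝ) ^ (-c) := Real.rpow_pos_of_pos two_pos _
        by_cases hy : Om y
        · have h3 : ‖y‖ = (2 : ℝ) ^ (-(q1 y 3)) := by
            rw [← norm_b1, b1_q1 hy]
          have h4 : ‖mkf G c y‖ ≤ (2 : ℝ) ^ C * ‖y‖ := by
            rw [mkf_Om hy, norm_b1, h3, ← Real.rpow_add two_pos]
            refine Real.rpow_le_rpow_of_exponent_le one_le_two ?_
            have := hC (q1 y)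
            linarith
          refine h4.trans (mul_le_mul_of_nonneg_right ?_ (norm_nonneg y))
          linarith
        · rw [mkf_not hy, norm_smul, Real.norm_of_nonneg hp2.le]
          refine mul_le_mul_of_nonneg_right ?_ (norm_nonneg y)
          linarith
      unfold ContinuousAt
      rw [mkf_zero, tendsto_zero_iff_norm_tendsto_zero]
      refine squeeze_zero (fun y => norm_nonneg _) hb ?_
      have h5 : Tendsto (fun y : E4 => ((2 : ℝ) ^ C + (2 : ℝ) ^ (-c)) * ‖y‖) (𝓝 0)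
          (𝓝 (((2 : ℝ) ^ C + (2 : ℝ) ^ (-c)) * ‖(0 : E4)‖)) :=
        (continuous_const.mul continuous_norm).tendsto 0
      rwa [norm_zero, mul_zero] at h5
    · obtain ⟨δ, hδ, h⟩ := mkf_near h1
      have h3 : ContinuousAt (fun y : E4 => (2 : ℝ) ^ (-c) • y) (t • e0) :=
        (continuous_const_smul _).continuousAt
      refine h3.congr ?_
      filter_upwards [Cone_mem_nhds hδ ht0] with y hy
      exact (h y hy).symm

private theorem mkf_mkf {G G' : E4 → E4} (hGG : ∀ z, G' (G z) = z) (c : ℝ) (x : E4) :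
    mkf G' (-c) (mkf G c x) = x := by
  by_cases ho : Om x
  · rw [mkf_Om ho, mkf_Om (Om_b1 _), q1_b1, hGG, b1_q1 ho]
  · have hp : (0 : ℝ) < (2 : ℝ) ^ (-c) := Real.rpow_pos_of_pos two_pos _
    rw [mkf_not ho, mkf_not (fun h => ho ((Om_smul hp).1 h)), smul_smul,
      ← Real.rpow_add two_pos, neg_neg, add_neg_cancel, Real.rpow_zero, one_smul]

theorem of_coord {n a : ℕ} (hn : 0 < n) {F' : E4 ≃ₜ E4} {R : ℝ}
    (h1 : ∀ z, R ≤ wsq z → F' z = shf a z) (h2 : ∀ z, F' (shf n z) = shf n (F' z)) :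
    ∃ Φ : E4 ≃ₜ E4, Nn n a Φ ∧ ∀ x, Om x → q1 (Φ x) = F' (q1 x) := by
  have h1' : ∀ z, R ≤ wsq z → F'.symm z = shf (-(a : ℝ)) z := by
    intro z hz
    rw [Homeomorph.symm_apply_eq, h1 _ (by rwa [wsq_shf]), shf_shf, add_neg_cancel, shf_zero]
  have h2' : ∀ z, F'.symm (shf n z) = shf n (F'.symm z) := by
    intro z
    rw [Homeomorph.symm_apply_eq, h2, Homeomorph.apply_symm_apply]
  set Φ : E4 ≃ₜ E4 :=
    { toFun := mkf F' a
      invFun := mkf F'.symm (-(a : ℝ))
      left_inv := mkf_mkf F'.symm_apply_apply a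
      right_inv := fun x => by
        have h3 := mkf_mkf (G := F'.symm) (G' := F') F'.apply_symm_apply (-(a : ℝ)) x
        rwa [neg_neg] at h3
      continuous_toFun := continuous_mkf hn F'.continuous h1 h2
      continuous_invFun := continuous_mkf hn F'.symm.continuous h1' h2' } with hΦ
  have hΦx : ∀ x, Φ x = mkf F' a x := fun x => rfl
  refine ⟨Φ, ⟨?_, ?_, ?_⟩, fun x hx => ?_⟩
  · rw [hΦx, mkf_zero]
  · refine Homeomorph.ext fun x => ?_
    change Φ ((tau ^ n : E4 ≃ₜ E4) x) = (tau ^ n : E4 ≃ₜ E4) (Φ x)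
    rw [tau_pow_apply, tau_pow_apply, hΦx, hΦx, mkf_smul h2]
  · obtain ⟨δ, hδ, h⟩ := mkf_near (G := F') (c := a) h1
    refine ⟨δ, hδ, fun x hx => ?_⟩
    rw [hΦx, h x hx, tau_pow_apply]
  · rw [hΦx, mkf_Om hx, q1_b1]

end Pool.Agent.Rot4
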