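import Pool.Agent.Rot4.CoordInv

/-!
# `q1` and `b1` are smooth with invertible derivative

PROOF. `isOpen_Om`: `isOpen_lt`. `q1` is smooth on `Om`: the components are quotients of the
coordinates by `‖x‖ - x 0 ≠ 0` and `logb 2 ‖x‖` (`contDiffAt_norm ℝ`, `x ≠ 0`; `contDiffAt_pi` or
`contDiffAt_euclidean` (`contDiff_euclidean`)); `b1` is smooth (`wsq + 1 ≠ 0`, `Real.rpow` with
constant base: write `(2:ℝ) ^ (-z 3) = Real.exp (Real.log 2 * -z 3)`, `Real.rpow_def_of_pos`). The
determinants: differentiate `b1 (q1 y) = y` (near `x`, `isOpen_Om`) and `q1 (b1 z) = z`; `det_comp_clm`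
as in the proof of `tn_mk_r` in `Pool/Agent/HopfFree/Shift.lean` (`1 = det * det`, so `det ≠ 0`). `Reg`
asks for it at all points near `x`.
-/

set_option autoImplicit false

open scoped ContDiff Topology
open Set Filter Metric

namespace Pool.Agent.Rot4

open Pool.Agent.HopfCov Pool.Agent.HopfFin Pool.Agent.HopfCov.Smooth

theorem isOpen_Om : IsOpen {x : E4 | Om x} := by
  have h : {x : E4 | Om x} = {x : E4 | x 0 < ‖x‖} := rfl
  rw [h]
  exact isOpen_lt (by fun_prop) continuous_norm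

private theorem cd_coord (i : Fin 4) : ContDiff ℝ ∞ (fun x : E4 => x i) :=
  (EuclideanSpace.proj i : E4 →L[ℝ] ℝ).contDiff

private theorem cd_q1 {x : E4} (hx : Om x) : ContDiffAt ℝ ∞ q1 x := by
  have hn : ContDiffAt ℝ ∞ (fun y : E4 => ‖y‖) x := contDiffAt_norm ℝ hx.ne
  have h0 : ‖x‖ - x 0 ≠ 0 := by
    have h : x 0 < ‖x‖ := hx
    linarith
  have hc : ∀ i : Fin 4, ContDiffAt ℝ ∞ (fun y : E4 => y i) x :=
    fun i => (cd_coord i).contDiffAt
  have hd : ContDiffAt ℝ ∞ (fun y : E4 => ‖y‖ - y 0) x := hn.sub (hc 0)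
  rw [contDiffAt_euclidean]
  intro i
  fin_cases i
  · exact (hc 1).div hd h0
  · exact (hc 2).div hd h0
  · exact (hc 3).div hd h0
  · exact ((hn.log (norm_ne_zero_iff.2 hx.ne)).div_const (Real.log 2)).neg

private theorem cd_wsq : ContDiff ℝ ∞ wsq :=
  (((cd_coord 0).pow 2).add ((cd_coord 1).pow 2)).add ((cd_coord 2).pow 2)

private theorem cd_b1 : ContDiff ℝ ∞ b1 := by
  have hw : ContDiff ℝ ∞ (fun z : E4 => wsq z + 1) := cd_wsq.add contDiff_const
  have hw0 : ∀ z : E4, wsq z + 1 ≠ 0 := by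
    intro z
    have := wsq_nonneg z
    linarith
  have hr : ContDiff ℝ ∞ (fun z : E4 => (2 : ℝ) ^ (-z 3)) := by
    have e : (fun z : E4 => (2 : ℝ) ^ (-z 3)) =
        fun z : E4 => Real.exp (Real.log 2 * (-z 3)) := by
      funext z
      rw [Real.rpow_def_of_pos two_pos]
    rw [e]
    exact (contDiff_const.mul (cd_coord 3).neg).exp
  rw [contDiff_euclidean]
  intro i
  fin_cases i
  · exact hr.mul ((cd_wsq.sub contDiff_const).div hw hw0)
  · exact hr.mul ((contDiff_const.mul (cd_coord 0)).div hw hw0)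
  · exact hr.mul ((contDiff_const.mul (cd_coord 1)).div hw hw0)
  · exact hr.mul ((contDiff_const.mul (cd_coord 2)).div hw hw0)

/-- the determinants at corresponding points -/
private theorem det_eq {x : E4} (hx : Om x) :
    (1 : ℝ) = (fderiv ℝ b1 (q1 x)).det * (fderiv ℝ q1 x).det := by
  have h1 : ContDiffAt ℝ ∞ b1 (q1 x) := cd_b1.contDiffAt
  have h2 := cd_q1 hx
  have hcomp : HasFDerivAt (fun y => b1 (q1 y)) ((fderiv ℝ b1 (q1 x)).comp (fderiv ℝ q1 x)) x :=
    ((h1.differentiableAt (by simp)).hasFDerivAt).comp x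
      (h2.differentiableAt (by simp)).hasFDerivAt
  have hid : (fun y => b1 (q1 y)) =ᶠ[𝓝 x] fun y => y := by
    filter_upwards [isOpen_Om.mem_nhds hx] with y hy
    exact b1_q1 hy
  have h3 : HasFDerivAt (fun y : E4 => y) ((fderiv ℝ b1 (q1 x)).comp (fderiv ℝ q1 x)) x :=
    hcomp.congr_of_eventuallyEq hid.symm
  have h4 : (fderiv ℝ b1 (q1 x)).comp (fderiv ℝ q1 x) = ContinuousLinearMap.id ℝ E4 :=
    h3.unique (hasFDerivAt_id x)
  rw [← det_comp_clm, h4]
  simp [ContinuousLinearMap.det]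

theorem continuousAt_q1 {x : E4} (hx : Om x) : ContinuousAt q1 x :=
  (cd_q1 hx).continuousAt

theorem continuous_b1 : Continuous b1 := cd_b1.continuous

theorem reg_q1 {x : E4} (hx : Om x) : Reg q1 x := by
  filter_upwards [isOpen_Om.mem_nhds hx] with y hy
  refine ⟨cd_q1 hy, fun h => ?_⟩
  have h1 := det_eq hy
  rw [h, mul_zero] at h1
  exact one_ne_zero h1

theorem reg_b1 (z : E4) : Reg b1 z := by
  refine Filter.Eventually.of_forall fun y => ⟨cd_b1.contDiffAt, fun h => ?_⟩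
  have h1 := det_eq (Om_b1 y)
  rw [q1_b1, h, zero_mul] at h1
  exact one_ne_zero h1

end Pool.Agent.Rot4
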