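import Pool.Agent.Rot4.Defs

/-!
# The map `q2`

PROOFS. `q2_off`: `exp > 0` and `cos`, `sin` do not vanish simultaneously (`sin_sq_add_cos_sq`).
`q2_surj`: `z 2 = log ρ`, `ρ = √(y 2 ^ 2 + y 3 ^ 2)`, `z 3 = n / (2 π) * arg (y 2 + i y 3)`
(`Complex.norm_mul_cos_arg`, `Complex.norm_mul_sin_arg`). `q2_eq`: equal `exp (z 2)` (sum of the
squares), then `cos` and `sin` of the angles agree, so the angles differ by a multiple of `2 π`
(`Real.Angle` or `Complex.exp_eq_exp_iff_exists_int` with `exp (z 2 + i (2 π / n) z 3)`). `q2_shf`: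
addition formulas. `q2_shf_int`: from `q2_eq` or directly.
-/

set_option autoImplicit false

open scoped ContDiff Topology
open Set Filter Metric

namespace Pool.Agent.Rot4

open Pool.Agent.HopfCov Pool.Agent.HopfFin Pool.Agent.HopfCov.Smooth

private theorem ExpBasic_two (n : ℕ) (z : E4) :
    (q2 n z) 2 = Real.exp (z 2) * Real.cos (2 * Real.pi / n * z 3) := rfl

private theorem ExpBasic_three (n : ℕ) (z : E4) :
    (q2 n z) 3 = Real.exp (z 2) * Real.sin (2 * Real.pi / n * z 3) := rfl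

theorem q2_off (n : ℕ) (z : E4) : ¬ OnPlane (q2 n z) := by
  rintro ⟨h2, h3⟩
  rw [ExpBasic_two] at h2
  rw [ExpBasic_three] at h3
  have hc := (mul_eq_zero.1 h2).resolve_left (Real.exp_pos _).ne'
  have hs := (mul_eq_zero.1 h3).resolve_left (Real.exp_pos _).ne'
  have h := Real.sin_sq_add_cos_sq (2 * Real.pi / n * z 3)
  rw [hc, hs] at h
  norm_num at h

theorem q2_surj {n : ℕ} (hn : 0 < n) {y : E4} (hy : ¬ OnPlane y) : ∃ z, q2 n z = y := by
  have hn' : (n : ℝ) ≠ 0 := Nat.cast_ne_zero.2 hn.ne'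
  have hw : (⟨y 2, y 3⟩ : ℂ) ≠ 0 := by
    intro h
    exact hy ⟨congrArg Complex.re h, congrArg Complex.im h⟩
  have hpos : 0 < ‖(⟨y 2, y 3⟩ : ℂ)‖ := norm_pos_iff.2 hw
  have hang : 2 * Real.pi / n * (n / (2 * Real.pi) * Complex.arg ⟨y 2, y 3⟩) =
      Complex.arg ⟨y 2, y 3⟩ := by
    have := Real.pi_pos.ne'
    field_simp
  refine ⟨WithLp.toLp 2 ![y 0, y 1, Real.log ‖(⟨y 2, y 3⟩ : ℂ)‖,
    n / (2 * Real.pi) * Complex.arg ⟨y 2, y 3⟩], ?_⟩
  ext i
  fin_cases i
  · rfl
  · rfl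
  · show Real.exp (Real.log ‖(⟨y 2, y 3⟩ : ℂ)‖) *
      Real.cos (2 * Real.pi / n * (n / (2 * Real.pi) * Complex.arg ⟨y 2, y 3⟩)) = y 2
    rw [hang, Real.exp_log hpos, Complex.norm_mul_cos_arg]
  · show Real.exp (Real.log ‖(⟨y 2, y 3⟩ : ℂ)‖) *
      Real.sin (2 * Real.pi / n * (n / (2 * Real.pi) * Complex.arg ⟨y 2, y 3⟩)) = y 3
    rw [hang, Real.exp_log hpos, Complex.norm_mul_sin_arg]

theorem q2_eq {n : ℕ} (hn : 0 < n) {z z' : E4} :
    q2 n z = q2 n z' ↔ ∃ k : ℤ, z' = shf (n * k) z := by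
  have hn' : (n : ℝ) ≠ 0 := Nat.cast_ne_zero.2 hn.ne'
  have hpi := Real.pi_pos.ne'
  constructor
  · intro h
    have h0 : (q2 n z) 0 = (q2 n z') 0 := congrArg (fun x : E4 => x 0) h
    have h1 : (q2 n z) 1 = (q2 n z') 1 := congrArg (fun x : E4 => x 1) h
    change z 0 = z' 0 at h0
    change z 1 = z' 1 at h1
    have h2 : Real.exp (z 2) * Real.cos (2 * Real.pi / n * z 3) =
        Real.exp (z' 2) * Real.cos (2 * Real.pi / n * z' 3) := congrArg (fun x : E4 => x 2) h
    have h3 : Real.exp (z 2) * Real.sin (2 * Real.pi / n * z 3) =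
        Real.exp (z' 2) * Real.sin (2 * Real.pi / n * z' 3) := congrArg (fun x : E4 => x 3) h
    have he : Complex.exp ⟨z 2, 2 * Real.pi / n * z 3⟩ =
        Complex.exp ⟨z' 2, 2 * Real.pi / n * z' 3⟩ := by
      apply Complex.ext
      · rw [Complex.exp_re, Complex.exp_re]
        exact h2
      · rw [Complex.exp_im, Complex.exp_im]
        exact h3
    obtain ⟨m, hm⟩ := Complex.exp_eq_exp_iff_exists_int.1 he
    have hre := congrArg Complex.re hm
    have him := congrArg Complex.im hm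
    simp at hre him
    refine ⟨-m, ?_⟩
    have h4 : z' 3 = z 3 + n * (-m : ℤ) := by
      push_cast
      field_simp at him
      linarith
    ext i
    fin_cases i
    · simp [shf, h0]
    · simp [shf, h1]
    · simp [shf, hre]
    · simp only [shf]
      show z' 3 = _
      rw [h4]
      simp
  · rintro ⟨k, rfl⟩
    have h4 : 2 * Real.pi / n * (z 3 + n * k) = 2 * Real.pi / n * z 3 + k * (2 * Real.pi) := by
      field_simp
    have e3 : (shf (n * k) z) 3 = z 3 + n * k := by simp [shf]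
    have e2 : (shf (n * k) z) 2 = z 2 := by simp [shf]
    ext i
    fin_cases i
    · show z 0 = (shf (n * k) z) 0
      simp [shf]
    · show z 1 = (shf (n * k) z) 1
      simp [shf]
    · show (q2 n z) 2 = (q2 n (shf (n * k) z)) 2
      rw [ExpBasic_two, ExpBasic_two, e3, e2, h4, Real.cos_add_int_mul_two_pi]
    · show (q2 n z) 3 = (q2 n (shf (n * k) z)) 3
      rw [ExpBasic_three, ExpBasic_three, e3, e2, h4, Real.sin_add_int_mul_two_pi]

theorem q2_shf {n : ℕ} (hn : 0 < n) (z : E4) : q2 n (shf 1 z) = rotate n (q2 n z) := by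
  have hn' : (n : ℝ) ≠ 0 := Nat.cast_ne_zero.2 hn.ne'
  have e3 : (shf 1 z) 3 = z 3 + 1 := by simp [shf]
  have e2 : (shf 1 z) 2 = z 2 := by simp [shf]
  have h4 : 2 * Real.pi / n * (z 3 + 1) = 2 * Real.pi / n * z 3 + 2 * Real.pi / n := by ring
  ext i
  fin_cases i
  · show (shf 1 z) 0 = z 0
    simp [shf]
  · show (shf 1 z) 1 = z 1
    simp [shf]
  · show (q2 n (shf 1 z)) 2 = Real.cos (2 * Real.pi / n) * (q2 n z) 2 -
      Real.sin (2 * Real.pi / n) * (q2 n z) 3
    rw [ExpBasic_two, ExpBasic_two, ExpBasic_three, e3, e2, h4, Real.cos_add]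
    ring
  · show (q2 n (shf 1 z)) 3 = Real.sin (2 * Real.pi / n) * (q2 n z) 2 +
      Real.cos (2 * Real.pi / n) * (q2 n z) 3
    rw [ExpBasic_three, ExpBasic_two, ExpBasic_three, e3, e2, h4, Real.sin_add]
    ring

theorem continuous_q2 (n : ℕ) : Continuous (q2 n) := by
  unfold q2
  fun_prop

theorem rotate_onPlane {n : ℕ} {y : E4} (hy : OnPlane y) : rotate n y = y := by
  obtain ⟨h2, h3⟩ := hy
  ext i
  fin_cases i <;> simp [rotate, h2, h3]

theorem rotate_off {n : ℕ} {y : E4} : OnPlane (rotate n y) ↔ OnPlane y := by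
  constructor
  · intro h
    have h1 := rotate_onPlane (n := n) h
    have h2 : (rotH n) (rotate n y) = (rotH n) y := h1
    rwa [(rotH n).injective h2] at h
  · intro h
    rwa [rotate_onPlane h]

theorem shf_shf (a b : ℝ) (z : E4) : shf a (shf b z) = shf (a + b) z := by
  unfold shf
  rw [add_assoc, ← add_smul, add_comm b a]

theorem shf_zero (z : E4) : shf 0 z = z := by simp [shf]

theorem wsq_shf (c : ℝ) (z : E4) : wsq (shf c z) = wsq z := by
  simp [wsq, shf]

/-- iterated rotations -/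
theorem q2_shf_nat {n : ℕ} (hn : 0 < n) (a : ℕ) (z : E4) :
    q2 n (shf a z) = (rotate n)^[a] (q2 n z) := by
  induction a with
  | zero => simp [shf_zero]
  | succ a ih =>
    have h : shf ((a + 1 : ℕ) : ℝ) z = shf 1 (shf a z) := by
      rw [shf_shf]
      congr 1
      push_cast
      ring
    rw [h, q2_shf hn, ih, Function.iterate_succ_apply']

end Pool.Agent.Rot4
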