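import Pool.Agent.Rot4.CoordCone
import Pool.Agent.Rot4.CoordReg
import Pool.Agent.Rot4.ExpBasic

/-!
# From homeomorphisms of `ℝ⁴` to the coordinates

PROOF. `Φ` maps the closed ray onto itself (`Φ (t e0) = 2 ^ (-a) t e0`, the ray is in every cone), so
it preserves `Om` (`not_Om_iff`, injectivity), and so does `Φ⁻¹`. `F' z = q1 (Φ (b1 z))`, with the
inverse `z ↦ q1 (Φ⁻¹ (b1 z))` (`b1_q1`, `q1_b1`, `Om_b1`); continuity by `continuousAt_q1`,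
`continuous_b1`. For `wsq z` large `b1 z ∈ Cone δ` (`cone_of_wsq`, `q1_b1`), so `Φ (b1 z) = 2 ^ (-a)
b1 z` and `q1_smul`. `F' (shf n z) = shf n (F' z)`: `b1_shf`, `Φ * tau ^ n = tau ^ n * Φ`, `tau ^ n x
= 2 ^ (-n) x` (induction), `q1_smul`.
-/

set_option autoImplicit false

open scoped ContDiff Topology
open Set Filter Metric

namespace Pool.Agent.Rot4

open Pool.Agent.HopfCov Pool.Agent.HopfFin Pool.Agent.HopfCov.Smooth

/-- the powers of `x ↦ x / 2` -/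
theorem tau_pow_apply (a : ℕ) (x : E4) : (tau ^ a : E4 ≃ₜ E4) x = (2 : ℝ) ^ (-(a : ℝ)) • x := by
  induction a with
  | zero =>
    rw [pow_zero, Nat.cast_zero, neg_zero, Real.rpow_zero, one_smul]
    rfl
  | succ a ih =>
    have h1 : (tau ^ (a + 1) : E4 ≃ₜ E4) x = (tau : E4 ≃ₜ E4) ((tau ^ a : E4 ≃ₜ E4) x) := by
      rw [pow_succ']
      rfl
    have h2 : (tau : E4 ≃ₜ E4) ((tau ^ a : E4 ≃ₜ E4) x) =
        (2⁻¹ : ℝ) • ((tau ^ a : E4 ≃ₜ E4) x) := rfl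
    have h3 : (2 : ℝ) ^ (-((a + 1 : ℕ) : ℝ)) = 2⁻¹ * (2 : ℝ) ^ (-(a : ℝ)) := by
      rw [Nat.cast_add, Nat.cast_one, neg_add, Real.rpow_add two_pos, Real.rpow_neg_one, mul_comm]
    rw [h1, h2, ih, smul_smul, h3]

private theorem ray_BridgeTo {n a : ℕ} {Φ : E4 ≃ₜ E4} (h : Nn n a Φ) {t : ℝ} (ht : 0 ≤ t) :
    Φ (t • e0) = ((2 : ℝ) ^ (-(a : ℝ)) * t) • e0 := by
  obtain ⟨δ, hδ, hn⟩ := h.near
  rw [hn _ (smul_e0_mem_Cone hδ.le ht), tau_pow_apply, smul_smul]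

/-- `Φ` preserves the complement of the ray -/
theorem Nn.om {n a : ℕ} {Φ : E4 ≃ₜ E4} (h : Nn n a Φ) {x : E4} : Om (Φ x) ↔ Om x := by
  have hp : (0 : ℝ) < (2 : ℝ) ^ (-(a : ℝ)) := Real.rpow_pos_of_pos two_pos _
  rw [← not_iff_not, not_Om_iff, not_Om_iff]
  constructor
  · rintro ⟨t, ht, hx⟩
    refine ⟨t / (2 : ℝ) ^ (-(a : ℝ)), by positivity, Φ.injective ?_⟩
    rw [ray_BridgeTo h (by positivity), hx]
    congr 1
    field_simp
  · rintro ⟨t, ht, rfl⟩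
    exact ⟨(2 : ℝ) ^ (-(a : ℝ)) * t, by positivity, ray_BridgeTo h ht⟩

theorem to_coord {n a : ℕ} {Φ : E4 ≃ₜ E4} (h : Nn n a Φ) :
    ∃ F' : E4 ≃ₜ E4, (∀ x, Om x → F' (q1 x) = q1 (Φ x)) ∧
      (∃ R : ℝ, ∀ z, R ≤ wsq z → F' z = shf a z) ∧ ∀ z, F' (shf n z) = shf n (F' z) := by
  have hO : ∀ z, Om (Φ (b1 z)) := fun z => h.om.2 (Om_b1 z)
  have hO' : ∀ z, Om (Φ.symm (b1 z)) := fun z => by
    rw [← h.om, Homeomorph.apply_symm_apply]
    exact Om_b1 z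
  let F' : E4 ≃ₜ E4 :=
    { toFun := fun z => q1 (Φ (b1 z))
      invFun := fun z => q1 (Φ.symm (b1 z))
      left_inv := fun z => by
        change q1 (Φ.symm (b1 (q1 (Φ (b1 z))))) = z
        rw [b1_q1 (hO z), Homeomorph.symm_apply_apply, q1_b1]
      right_inv := fun z => by
        change q1 (Φ (b1 (q1 (Φ.symm (b1 z))))) = z
        rw [b1_q1 (hO' z), Homeomorph.apply_symm_apply, q1_b1]
      continuous_toFun := continuous_iff_continuousAt.2 fun z =>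
        ContinuousAt.comp (g := q1) (f := fun z => Φ (b1 z)) (continuousAt_q1 (hO z))
          (Φ.continuous.comp continuous_b1).continuousAt
      continuous_invFun := continuous_iff_continuousAt.2 fun z =>
        ContinuousAt.comp (g := q1) (f := fun z => Φ.symm (b1 z)) (continuousAt_q1 (hO' z))
          (Φ.symm.continuous.comp continuous_b1).continuousAt }
  have hF : ∀ z, F' z = q1 (Φ (b1 z)) := fun z => rfl
  refine ⟨F', fun x hx => ?_, ?_, fun z => ?_⟩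
  · rw [hF, b1_q1 hx]
  · obtain ⟨δ, hδ, hn⟩ := h.near
    obtain ⟨R, hR⟩ := cone_of_wsq hδ
    refine ⟨R, fun z hz => ?_⟩
    have h1 : b1 z ∈ Cone δ := hR _ (Om_b1 z) (by rwa [q1_b1])
    rw [hF, hn _ h1, tau_pow_apply, q1_smul (Om_b1 z), q1_b1]
  · have h1 : Φ ((tau ^ n : E4 ≃ₜ E4) (b1 z)) = (tau ^ n : E4 ≃ₜ E4) (Φ (b1 z)) :=
      DFunLike.congr_fun h.comm (b1 z)
    rw [hF, hF, b1_shf, ← tau_pow_apply, h1, tau_pow_apply, q1_smul (hO z)]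

end Pool.Agent.Rot4
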