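import Pool.Agent.Rot4.Main

/-!
# Actions and smooth structures on `S¹ × S³`
-/

set_option autoImplicit false

open scoped ContDiff Topology Manifold
open Set Filter Metric

namespace Pool.Agent.Rot4

open Pool.Agent.HopfCov hiding pr
open Pool.Agent.HopfFin
open Pool.Agent.HopfFree
open Pool.Agent.HopfEnd
open Pool.Agent.HopfCov.Smooth

theorem off_class {n : ℕ} (hn : 1 < n) : (∀ f : Homeo4, Action n f → LinearOffOrbit n f) ↔
    ∀ M : Mfd4, ClassS M → OffPoint M := by
  simp only [classS_iff]
  exact off_all hn

end Pool.Agent.Rot4
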