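import Pool.Agent.Rot4.Defs

/-!
# The set where `wsq` is large is connected
-/

set_option autoImplicit false

open scoped ContDiff Topology
open Set Filter Metric

namespace Pool.Agent.Rot4

open Pool.Agent.HopfCov Pool.Agent.HopfFin Pool.Agent.HopfCov.Smooth

private theorem norm_sq_Conn (v : EuclideanSpace ℝ (Fin 3)) :
    ‖v‖ ^ 2 = v 0 ^ 2 + v 1 ^ 2 + v 2 ^ 2 := by
  rw [EuclideanSpace.norm_sq_eq, Fin.sum_univ_three]
  simp only [Real.norm_eq_abs, sq_abs]

/-- the complement of a ball times the line is connected: it is the image of `[√R, ∞) × S² × ℝ`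
(or: for `R > 0` join two points by a path: `IsPreconnected` of the image under a continuous map
of `{w : E4 | ...}`; use `(isConnected_compl_closedBall...)`/`isPreconnected_sphere` for the
three-dimensional Euclidean space and the continuous map `(t, v, s) ↦ (t v, s)`) -/
theorem preconnected_wsq {R : ℝ} (hR : 0 < R) : IsPreconnected {z : E4 | R ≤ wsq z} := by
  have hrank : 1 < Module.rank ℝ (EuclideanSpace ℝ (Fin 3)) := by
    rw [← Module.finrank_eq_rank, finrank_euclideanSpace_fin]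
    norm_num
  have h1 : IsPreconnected (Ici (Real.sqrt R) ×ˢ
      (sphere (0 : EuclideanSpace ℝ (Fin 3)) 1 ×ˢ (univ : Set ℝ))) :=
    isPreconnected_Ici.prod ((isPreconnected_sphere hrank 0 1).prod isPreconnected_univ)
  obtain ⟨g, hg⟩ : ∃ g : ℝ × (EuclideanSpace ℝ (Fin 3) × ℝ) → E4, g = fun a =>
      WithLp.toLp 2 ![a.1 * a.2.1 0, a.1 * a.2.1 1, a.1 * a.2.1 2, a.2.2] := ⟨_, rfl⟩
  have hgc : Continuous g := by
    rw [hg]
    fun_prop
  have h2 := h1.image g hgc.continuousOn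
  have h3 : g '' (Ici (Real.sqrt R) ×ˢ
      (sphere (0 : EuclideanSpace ℝ (Fin 3)) 1 ×ˢ (univ : Set ℝ))) = {z : E4 | R ≤ wsq z} := by
    ext z
    constructor
    · rintro ⟨⟨t, v, s⟩, ⟨ht, hv, -⟩, rfl⟩
      have ht' : Real.sqrt R ≤ t := ht
      have hv' : ‖v‖ = 1 := mem_sphere_zero_iff_norm.1 hv
      have hv2 := norm_sq_Conn v
      rw [hv'] at hv2
      have e1 : wsq (g (t, v, s)) = t ^ 2 * (v 0 ^ 2 + v 1 ^ 2 + v 2 ^ 2) := by
        rw [hg]
        show (t * v 0) ^ 2 + (t * v 1) ^ 2 + (t * v 2) ^ 2 = _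
        ring
      have e2 : R ≤ t ^ 2 := by
        rw [← Real.sq_sqrt hR.le]
        exact pow_le_pow_left₀ (Real.sqrt_nonneg R) ht' 2
      show R ≤ wsq (g (t, v, s))
      rw [e1, ← hv2]
      linarith
    · intro hz
      have hz' : R ≤ wsq z := hz
      have hw : 0 < wsq z := lt_of_lt_of_le hR hz'
      have ht : 0 < Real.sqrt (wsq z) := Real.sqrt_pos.2 hw
      have ht2 : Real.sqrt (wsq z) ^ 2 = z 0 ^ 2 + z 1 ^ 2 + z 2 ^ 2 := Real.sq_sqrt hw.le
      obtain ⟨t, htt⟩ : ∃ t, t = Real.sqrt (wsq z) := ⟨_, rfl⟩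
      rw [← htt] at ht ht2
      refine ⟨(t, WithLp.toLp 2 ![z 0 / t, z 1 / t, z 2 / t], z 3), ⟨?_, ?_, mem_univ _⟩, ?_⟩
      · show Real.sqrt R ≤ t
        rw [htt]
        exact Real.sqrt_le_sqrt hz'
      · show WithLp.toLp 2 ![z 0 / t, z 1 / t, z 2 / t] ∈ sphere (0 : EuclideanSpace ℝ (Fin 3)) 1
        rw [mem_sphere_zero_iff_norm, ← sq_eq_sq₀ (norm_nonneg _) zero_le_one, norm_sq_Conn]
        show (z 0 / t) ^ 2 + (z 1 / t) ^ 2 + (z 2 / t) ^ 2 = 1 ^ 2
        have h4 : (z 0 / t) ^ 2 + (z 1 / t) ^ 2 + (z 2 / t) ^ 2 =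
            (z 0 ^ 2 + z 1 ^ 2 + z 2 ^ 2) / t ^ 2 := by
          field_simp
        rw [h4, ← ht2, one_pow]
        exact div_self (pow_ne_zero 2 ht.ne')
      · rw [hg]
        ext i
        fin_cases i
        · show t * (z 0 / t) = z 0
          field_simp
        · show t * (z 1 / t) = z 1
          field_simp
        · show t * (z 2 / t) = z 2
          field_simp
        · rfl
  rw [h3] at h2
  exact h2

end Pool.Agent.Rot4
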