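import Pool.Agent.Rot4.CoordInv

/-!
# Cones around the ray in the coordinates

PROOF. By `wsq_q1`, `wsq (q1 x) = (N + x 0) / (N - x 0)`, `N = ‖x‖`. `x ∈ Cone δ` means `‖pr x‖ ≤ δ
x 0`, that is `x 0 ≥ 0` and `N ^ 2 ≤ (1 + δ ^ 2) x 0 ^ 2` (`norm_sq_eq`).
`cone_of_wsq`: let `c = √(1 + δ ^ 2) > 1` (or any `c > 1` with `c ^ 2 ≤ 1 + δ ^ 2`), `R = (c + 1) / (c
- 1)`: `R (N - x 0) ≤ N + x 0` gives `(R - 1) N ≤ (R + 1) x 0`, that is `N ≤ c x 0`.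
`wsq_of_cone`: choose `δ > 0` with `N ≤ c x 0`, `c = (R + 1) / (R - 1)` for `x ∈ Cone δ` (`R > 1`
without loss of generality); then `R (N - x 0) ≤ N + x 0`.
-/

set_option autoImplicit false

open scoped ContDiff Topology
open Set Filter Metric

namespace Pool.Agent.Rot4

open Pool.Agent.HopfCov Pool.Agent.HopfFin Pool.Agent.HopfCov.Smooth

theorem cone_of_wsq {δ : ℝ} (hδ : 0 < δ) : ∃ R : ℝ, ∀ x, Om x → R ≤ wsq (q1 x) → x ∈ Cone δ := by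
  set c : ℝ := Real.sqrt (1 + δ ^ 2) with hc
  have hc2 : c ^ 2 = 1 + δ ^ 2 := Real.sq_sqrt (by positivity)
  have hc0 : 0 ≤ c := Real.sqrt_nonneg _
  have hc1 : 1 < c := by nlinarith [pow_pos hδ 2]
  refine ⟨(c + 1) / (c - 1), fun x hx h => ?_⟩
  rw [wsq_q1 hx] at h
  have hx' : x 0 < ‖x‖ := hx
  have h1 : (0 : ℝ) < ‖x‖ - x 0 := by linarith
  have h2 : (0 : ℝ) < c - 1 := by linarith
  rw [div_le_div_iff₀ h2 h1] at h
  have h3 : ‖x‖ ≤ c * x 0 := by nlinarith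
  have h4 := norm_nonneg x
  have h5 : 0 ≤ x 0 := by
    by_contra h6
    rw [not_le] at h6
    nlinarith
  have h6 := norm_sq_eq x
  change ‖pr x‖ ≤ δ * x 0
  have h7 : ‖pr x‖ ^ 2 ≤ (δ * x 0) ^ 2 := by
    have h8 : ‖x‖ ^ 2 ≤ (c * x 0) ^ 2 := pow_le_pow_left₀ h4 h3 2
    rw [mul_pow, hc2] at h8
    rw [mul_pow]
    linarith
  exact (pow_le_pow_iff_left₀ (norm_nonneg _) (by positivity) two_ne_zero).1 h7

theorem wsq_of_cone (R : ℝ) : ∃ δ : ℝ, 0 < δ ∧ ∀ x ∈ Cone δ, Om x → R ≤ wsq (q1 x) := by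
  set R' : ℝ := max R 2 with hR'
  have hR2 : 2 ≤ R' := le_max_right _ _
  have hRR : R ≤ R' := le_max_left _ _
  set c : ℝ := (R' + 1) / (R' - 1) with hc
  have h0 : (0 : ℝ) < R' - 1 := by linarith
  have hcm : c * (R' - 1) = R' + 1 := by
    rw [hc]
    field_simp
  have hc1 : 1 < c := by
    rw [hc, lt_div_iff₀ h0]
    linarith
  have hd : 0 < c ^ 2 - 1 := by nlinarith
  refine ⟨Real.sqrt (c ^ 2 - 1), Real.sqrt_pos.2 hd, fun x hx hO => ?_⟩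
  have hx1 : ‖pr x‖ ≤ Real.sqrt (c ^ 2 - 1) * x 0 := hx
  have h1 := norm_nonneg (pr x)
  have h2 : 0 ≤ x 0 := by
    by_contra h3
    rw [not_le] at h3
    have := mul_neg_of_pos_of_neg (Real.sqrt_pos.2 hd) h3
    linarith
  have h3 : ‖pr x‖ ^ 2 ≤ (c ^ 2 - 1) * x 0 ^ 2 := by
    have := pow_le_pow_left₀ h1 hx1 2
    rwa [mul_pow, Real.sq_sqrt hd.le] at this
  have h4 := norm_sq_eq x
  have h5 : ‖x‖ ≤ c * x 0 := by
    refine (pow_le_pow_iff_left₀ (norm_nonneg _) (by positivity) two_ne_zero).1 ?_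
    rw [mul_pow]
    linarith
  have hO' : x 0 < ‖x‖ := hO
  have h6 : (0 : ℝ) < ‖x‖ - x 0 := by linarith
  refine hRR.trans ?_
  rw [wsq_q1 hO, le_div_iff₀ h6]
  nlinarith

end Pool.Agent.Rot4
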