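import Pool.Agent.Rot4.Defs

/-!
# `q1` and `b1` are inverse to each other

PROOFS. Let `N = ‖x‖`, `N ^ 2 = x 0 ^ 2 + x 1 ^ 2 + x 2 ^ 2 + x 3 ^ 2` (`EuclideanSpace.norm_eq`,
`Real.sq_sqrt`, or `EuclideanSpace.real_norm_sq_eq`, `Fin.sum_univ_four`), `N - x 0 > 0` on `Om`.
`wsq (q1 x) = (N ^ 2 - x 0 ^ 2) / (N - x 0) ^ 2 = (N + x 0) / (N - x 0)`, so
`(wsq + 1) = 2 N / (N - x 0)`, `(wsq - 1) / (wsq + 1) = x 0 / N`, `2 w_i / (wsq + 1) = x_i / N`;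
and `2 ^ (logb 2 N) = N` (`N > 0`: `x = 0` is not in `Om`). Conversely the vector in the definition
of `b1` has norm `1` (`(wsq - 1) ^ 2 + 4 wsq = (wsq + 1) ^ 2`), so `‖b1 z‖ = 2 ^ (- z 3)`
(`norm_b1`), and `1 - (wsq - 1) / (wsq + 1) = 2 / (wsq + 1)`.
-/

set_option autoImplicit false

open scoped ContDiff Topology
open Set Filter Metric

namespace Pool.Agent.Rot4

open Pool.Agent.HopfCov Pool.Agent.HopfFin Pool.Agent.HopfCov.Smooth

theorem Om.ne {x : E4} (hx : Om x) : x ≠ 0 := by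
  rintro rfl
  simp [Om] at hx

theorem wsq_nonneg (z : E4) : 0 ≤ wsq z := by
  unfold wsq
  positivity

private theorem nsq (x : E4) : ‖x‖ ^ 2 = x 0 ^ 2 + x 1 ^ 2 + x 2 ^ 2 + x 3 ^ 2 := by
  rw [EuclideanSpace.norm_sq_eq, Fin.sum_univ_four]
  simp only [Real.norm_eq_abs, sq_abs]

private theorem b1_zero (z : E4) :
    b1 z 0 = (2 : ℝ) ^ (-z 3) * ((wsq z - 1) / (wsq z + 1)) := rfl

private theorem b1_one (z : E4) : b1 z 1 = (2 : ℝ) ^ (-z 3) * (2 * z 0 / (wsq z + 1)) := rfl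

private theorem b1_two (z : E4) : b1 z 2 = (2 : ℝ) ^ (-z 3) * (2 * z 1 / (wsq z + 1)) := rfl

private theorem b1_three (z : E4) : b1 z 3 = (2 : ℝ) ^ (-z 3) * (2 * z 2 / (wsq z + 1)) := rfl

private theorem two_pos_rpow (a : ℝ) : (0 : ℝ) < (2 : ℝ) ^ a := Real.rpow_pos_of_pos two_pos a

theorem norm_b1 (z : E4) : ‖b1 z‖ = (2 : ℝ) ^ (-z 3) := by
  have hw : (0 : ℝ) < wsq z + 1 := by
    have := wsq_nonneg z
    linarith
  have hc := two_pos_rpow (-z 3)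
  have h : ‖b1 z‖ ^ 2 = ((2 : ℝ) ^ (-z 3)) ^ 2 := by
    rw [nsq, b1_zero, b1_one, b1_two, b1_three]
    have h1 : wsq z = z 0 ^ 2 + z 1 ^ 2 + z 2 ^ 2 := rfl
    have h2 : ((wsq z - 1) / (wsq z + 1)) ^ 2 + (2 * z 0 / (wsq z + 1)) ^ 2 +
        (2 * z 1 / (wsq z + 1)) ^ 2 + (2 * z 2 / (wsq z + 1)) ^ 2 = 1 := by
      rw [div_pow, div_pow, div_pow, div_pow, ← add_div, ← add_div, ← add_div,
        div_eq_one_iff_eq (by positivity)]
      rw [h1]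
      ring
    linear_combination ((2 : ℝ) ^ (-z 3)) ^ 2 * h2
  exact (pow_left_inj₀ (norm_nonneg _) hc.le two_ne_zero).1 h

theorem Om_b1 (z : E4) : Om (b1 z) := by
  have hw : (0 : ℝ) < wsq z + 1 := by
    have := wsq_nonneg z
    linarith
  show b1 z 0 < ‖b1 z‖
  rw [norm_b1, b1_zero]
  have h1 : (wsq z - 1) / (wsq z + 1) < 1 := by
    rw [div_lt_one hw]
    linarith
  calc (2 : ℝ) ^ (-z 3) * ((wsq z - 1) / (wsq z + 1)) < (2 : ℝ) ^ (-z 3) * 1 :=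
        mul_lt_mul_of_pos_left h1 (two_pos_rpow _)
    _ = _ := mul_one _

private theorem Om.sub_pos {x : E4} (hx : Om x) : 0 < ‖x‖ - x 0 := by
  have h : x 0 < ‖x‖ := hx
  linarith

theorem wsq_q1 {x : E4} (hx : Om x) : wsq (q1 x) = (‖x‖ + x 0) / (‖x‖ - x 0) := by
  have h0 := hx.sub_pos
  have h1 := nsq x
  show (x 1 / (‖x‖ - x 0)) ^ 2 + (x 2 / (‖x‖ - x 0)) ^ 2 + (x 3 / (‖x‖ - x 0)) ^ 2 = _
  rw [div_pow, div_pow, div_pow, ← add_div, ← add_div, div_eq_div_iff (by positivity) h0.ne']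
  linear_combination (-(‖x‖ - x 0)) * h1

private theorem norm_pos' {x : E4} (hx : Om x) : 0 < ‖x‖ := norm_pos_iff.2 hx.ne

private theorem q1_rpow {x : E4} (hx : Om x) : (2 : ℝ) ^ (-(q1 x) 3) = ‖x‖ := by
  show (2 : ℝ) ^ (-(-Real.logb 2 ‖x‖)) = ‖x‖
  rw [neg_neg, Real.rpow_logb two_pos (by norm_num) (norm_pos' hx)]

theorem b1_q1 {x : E4} (hx : Om x) : b1 (q1 x) = x := by
  have h0 := hx.sub_pos
  have hN := norm_pos' hx
  have hw := wsq_q1 hx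
  have hw1 : wsq (q1 x) + 1 = 2 * ‖x‖ / (‖x‖ - x 0) := by
    rw [hw]
    field_simp
    ring
  have hw2 : wsq (q1 x) - 1 = 2 * x 0 / (‖x‖ - x 0) := by
    rw [hw]
    field_simp
    ring
  have e0 : (q1 x) 0 = x 1 / (‖x‖ - x 0) := rfl
  have e1 : (q1 x) 1 = x 2 / (‖x‖ - x 0) := rfl
  have e2 : (q1 x) 2 = x 3 / (‖x‖ - x 0) := rfl
  ext i
  fin_cases i
  · show b1 (q1 x) 0 = x 0
    rw [b1_zero, q1_rpow hx, hw1, hw2]
    field_simp
  · show b1 (q1 x) 1 = x 1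
    rw [b1_one, q1_rpow hx, hw1, e0]
    field_simp
  · show b1 (q1 x) 2 = x 2
    rw [b1_two, q1_rpow hx, hw1, e1]
    field_simp
  · show b1 (q1 x) 3 = x 3
    rw [b1_three, q1_rpow hx, hw1, e2]
    field_simp

theorem q1_b1 (z : E4) : q1 (b1 z) = z := by
  have hw : (0 : ℝ) < wsq z + 1 := by
    have := wsq_nonneg z
    linarith
  have hc := two_pos_rpow (-z 3)
  have hd : ‖b1 z‖ - b1 z 0 = (2 : ℝ) ^ (-z 3) * (2 / (wsq z + 1)) := by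
    rw [norm_b1, b1_zero]
    field_simp
    ring
  ext i
  fin_cases i
  · show b1 z 1 / (‖b1 z‖ - b1 z 0) = z 0
    rw [hd, b1_one]
    field_simp
  · show b1 z 2 / (‖b1 z‖ - b1 z 0) = z 1
    rw [hd, b1_two]
    field_simp
  · show b1 z 3 / (‖b1 z‖ - b1 z 0) = z 2
    rw [hd, b1_three]
    field_simp
  · show -Real.logb 2 ‖b1 z‖ = z 3
    rw [norm_b1, Real.logb_rpow two_pos (by norm_num), neg_neg]

theorem b1_shf (c : ℝ) (z : E4) : b1 (shf c z) = (2 : ℝ) ^ (-c) • b1 z := by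
  have e0 : (shf c z) 0 = z 0 := by simp [shf]
  have e1 : (shf c z) 1 = z 1 := by simp [shf]
  have e2 : (shf c z) 2 = z 2 := by simp [shf]
  have e3 : (shf c z) 3 = z 3 + c := by simp [shf]
  have hw : wsq (shf c z) = wsq z := by
    unfold wsq
    rw [e0, e1, e2]
  unfold b1
  rw [hw, e0, e1, e2, e3, smul_smul]
  congr 1
  rw [← Real.rpow_add two_pos]
  congr 1
  ring

theorem Om_smul {c : ℝ} (hc : 0 < c) {x : E4} : Om (c • x) ↔ Om x := by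
  show (c • x) 0 < ‖c • x‖ ↔ x 0 < ‖x‖
  have h1 : (c • x) 0 = c * x 0 := rfl
  rw [h1, norm_smul, Real.norm_eq_abs, abs_of_pos hc, mul_lt_mul_iff_right₀ hc]

/-- positive multiples; use `b1_shf` and `q1_b1`, `b1_q1` -/
theorem q1_smul {c : ℝ} {x : E4} (hx : Om x) :
    q1 ((2 : ℝ) ^ (-c) • x) = shf c (q1 x) := by
  have h1 := b1_shf c (q1 x)
  rw [b1_q1 hx] at h1
  rw [← h1, q1_b1]

/-- the complement of `Om` is the closed ray: `x 0 = ‖x‖` and `norm_sq_eq` (HopfFin/Cones) give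
`pr x = 0`, `eq_add_pr` -/
theorem not_Om_iff {x : E4} : ¬ Om x ↔ ∃ t : ℝ, 0 ≤ t ∧ x = t • e0 := by
  constructor
  · intro hx
    have h1 : ‖x‖ ≤ x 0 := not_lt.1 hx
    have h2 := norm_sq_eq x
    have h3 := norm_nonneg x
    have h4 : ‖pr x‖ ^ 2 ≤ 0 := by nlinarith
    have h5 : ‖pr x‖ = 0 := pow_eq_zero_iff two_ne_zero |>.1 (le_antisymm h4 (sq_nonneg _))
    have h6 : pr x = 0 := norm_eq_zero.1 h5
    refine ⟨x 0, h3.trans h1, ?_⟩
    have h7 := eq_add_pr x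
    rwa [h6, add_zero] at h7
  · rintro ⟨t, ht, rfl⟩ h
    have h1 : (t • e0 : E4) 0 = t := by simp [e0]
    have h2 : ‖(t • e0 : E4)‖ = t := by
      rw [norm_smul, Real.norm_eq_abs, abs_of_nonneg ht]
      simp [e0]
    have h3 : (t • e0 : E4) 0 < ‖(t • e0 : E4)‖ := h
    rw [h1, h2] at h3
    exact lt_irrefl t h3

end Pool.Agent.Rot4
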