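import Pool.Agent.Rot4.ExpBasic

/-!
# Compact sets off the plane

PROOFS. `wsq_lt_of_compact`: on the compact set `K` the continuous functions `y 0 ^ 2 + y 1 ^ 2` and
`(log (y 2 ^ 2 + y 3 ^ 2) / 2) ^ 2` are bounded (`y 2 ^ 2 + y 3 ^ 2 ≠ 0` on `K`; `IsCompact.exists_bound_of_continuousOn`
or `bddAbove_image`), and for `y = q2 n z` their sum is `wsq z` (`y 2 ^ 2 + y 3 ^ 2 = exp (2 z 2)`).
`isCompact_image`: the set is the image of the compact set `{z | wsq z ≤ R, 0 ≤ z 3 ≤ n}` (closed and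
bounded; shift by a multiple of `n`, `q2_eq`, `Int.floor`).
-/

set_option autoImplicit false

open scoped ContDiff Topology
open Set Filter Metric

namespace Pool.Agent.Rot4

open Pool.Agent.HopfCov Pool.Agent.HopfFin Pool.Agent.HopfCov.Smooth

private theorem expC_wsq (n : ℕ) (z : E4) :
    wsq z = (q2 n z) 0 ^ 2 + (q2 n z) 1 ^ 2 +
      (Real.log ((q2 n z) 2 ^ 2 + (q2 n z) 3 ^ 2) / 2) ^ 2 := by
  have h0 : (q2 n z) 0 = z 0 := rfl
  have h1 : (q2 n z) 1 = z 1 := rfl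
  have h2 : (q2 n z) 2 = Real.exp (z 2) * Real.cos (2 * Real.pi / n * z 3) := rfl
  have h3 : (q2 n z) 3 = Real.exp (z 2) * Real.sin (2 * Real.pi / n * z 3) := rfl
  have h4 : (q2 n z) 2 ^ 2 + (q2 n z) 3 ^ 2 = Real.exp (z 2) ^ 2 := by
    rw [h2, h3]
    linear_combination Real.exp (z 2) ^ 2 * Real.sin_sq_add_cos_sq (2 * Real.pi / n * z 3)
  rw [h4, Real.log_pow, Real.log_exp, h0, h1]
  unfold wsq
  push_cast
  ring

theorem wsq_lt_of_compact (n : ℕ) {K : Set E4} (hK : IsCompact K) (h : ∀ x ∈ K, ¬ OnPlane x) :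
    ∃ R : ℝ, 0 < R ∧ ∀ z, q2 n z ∈ K → wsq z < R := by
  have hc : ContinuousOn (fun y : E4 => y 0 ^ 2 + y 1 ^ 2 +
      (Real.log (y 2 ^ 2 + y 3 ^ 2) / 2) ^ 2) K := by
    have h1 : Continuous fun y : E4 => y 0 ^ 2 + y 1 ^ 2 := by fun_prop
    have h2 : Continuous fun y : E4 => y 2 ^ 2 + y 3 ^ 2 := by fun_prop
    refine h1.continuousOn.add (ContinuousOn.pow (ContinuousOn.div_const
      (h2.continuousOn.log fun y hy h3 => ?_) _) _)
    apply h y hy
    have h4 : 0 ≤ y 2 ^ 2 := sq_nonneg _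
    have h5 : 0 ≤ y 3 ^ 2 := sq_nonneg _
    have h6 : y 2 ^ 2 = 0 := by linarith
    have h7 : y 3 ^ 2 = 0 := by linarith
    exact ⟨pow_eq_zero_iff two_ne_zero |>.1 h6, pow_eq_zero_iff two_ne_zero |>.1 h7⟩
  obtain ⟨C, hC⟩ := hK.exists_bound_of_continuousOn hc
  refine ⟨|C| + 1, by positivity, fun z hz => ?_⟩
  have h1 := hC _ hz
  rw [← expC_wsq n z, Real.norm_eq_abs] at h1
  have h2 := le_abs_self (wsq z)
  have h3 := le_abs_self C
  linarith

theorem isCompact_image {n : ℕ} (hn : 0 < n) (R : ℝ) : IsCompact (q2 n '' {z | wsq z ≤ R}) := by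
  have hn' : (0 : ℝ) < n := by exact_mod_cast hn
  have heq : q2 n '' {z | wsq z ≤ R} = q2 n '' {z | wsq z ≤ R ∧ 0 ≤ z 3 ∧ z 3 ≤ n} := by
    ext y
    constructor
    · rintro ⟨z, hz, rfl⟩
      have hz3 : (shf (n * ((-⌊z 3 / n⌋ : ℤ) : ℝ)) z) 3 =
          z 3 + n * ((-⌊z 3 / n⌋ : ℤ) : ℝ) := by
        simp [shf]
      refine ⟨shf (n * ((-⌊z 3 / n⌋ : ℤ) : ℝ)) z, ⟨?_, ?_, ?_⟩, ?_⟩
      · rw [wsq_shf]
        exact hz
      · rw [hz3]
        have h1 := Int.floor_le (z 3 / n)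
        rw [le_div_iff₀ hn'] at h1
        push_cast
        linarith
      · rw [hz3]
        have h1 := Int.lt_floor_add_one (z 3 / n)
        rw [div_lt_iff₀ hn'] at h1
        push_cast
        linarith
      · exact ((q2_eq hn).2 ⟨_, rfl⟩).symm
    · rintro ⟨z, hz, rfl⟩
      exact ⟨z, hz.1, rfl⟩
  rw [heq]
  refine IsCompact.image ?_ (continuous_q2 n)
  refine Metric.isCompact_of_isClosed_isBounded ?_ ?_
  · have h1 : Continuous fun z : E4 => wsq z := by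
      unfold wsq
      fun_prop
    have h2 : Continuous fun z : E4 => z 3 := by fun_prop
    exact (isClosed_le h1 continuous_const).inter
      ((isClosed_le continuous_const h2).inter (isClosed_le h2 continuous_const))
  · refine (Metric.isBounded_closedBall (x := (0 : E4)) (r := R + n ^ 2 + 1)).subset ?_
    rintro z ⟨h1, h2, h3⟩
    rw [mem_closedBall_zero_iff]
    have h4 : ‖z‖ ^ 2 = z 0 ^ 2 + z 1 ^ 2 + z 2 ^ 2 + z 3 ^ 2 := by
      rw [EuclideanSpace.norm_sq_eq, Fin.sum_univ_four]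
      simp only [Real.norm_eq_abs, sq_abs]
    have h5 : z 3 ^ 2 ≤ (n : ℝ) ^ 2 := pow_le_pow_left₀ h2 h3 2
    have h6 : ‖z‖ ^ 2 ≤ R + n ^ 2 := by
      rw [h4]
      unfold wsq at h1
      linarith
    nlinarith [norm_nonneg z, sq_nonneg (‖z‖ - 1)]

end Pool.Agent.Rot4
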