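import Pool.Agent.Rot4.ExpReg
import Pool.Agent.Rot4.ExpCompact

/-!
# Homeomorphisms which descend

PROOF. `F' (shf (n k) z) = shf (n k) (F' z)` for all integers `k` (induction, `shf_shf`), so `q2 n (F'
z)` depends only on `q2 n z` (`q2_eq`). Define `F y = q2 n (F' z)` if `y = q2 n z` is not on the plane
(`q2_surj`, `Classical.choose`) and `F y = y` on the plane. The same with `F'⁻¹` gives the inverse
(`F'⁻¹` commutes with `shf n`, `F'⁻¹ z = shf (-a) z` for `R ≤ wsq z`; `wsq (F' z) ≥ R` iff `wsq z ≥ R`).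
`F y = (rotate n)^[a] y` off the compact set `K = q2 n '' {wsq ≤ R}` (`isCompact_image`, `q2_off`):
if `y = q2 n z` is not in `K` then `wsq z > R` and `q2_shf_nat`; on the plane `rotate_onPlane`.
Continuity: off the plane by `IsOpenMap`/quotient map (`isOpenMap_q2`, `continuous_q2`: `F ∘ q2 = q2 ∘
F'` is continuous and `q2 n` is an open continuous surjection onto the complement of the plane); on the
plane because `F` agrees with a continuous map off the closed set `K`. The inverse: the same (it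
agrees with `(rotH n)⁻¹ ^ a` off a compact set; or prove that `F` is continuous, bijective and open).
-/

set_option autoImplicit false

open scoped ContDiff Topology
open Set Filter Metric

namespace Pool.Agent.Rot4

open Pool.Agent.HopfCov Pool.Agent.HopfFin Pool.Agent.HopfCov.Smooth

private theorem comm_nat_Down {n : ℕ} {G : E4 ≃ₜ E4} (h2 : ∀ z, G (shf n z) = shf n (G z))
    (k : ℕ) (z : E4) : G (shf (n * k) z) = shf (n * k) (G z) := by
  induction k with
  | zero => simp [shf_zero]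
  | succ k ih =>
    have h : ∀ z, shf (n * ((k + 1 : ℕ) : ℝ)) z = shf n (shf (n * k) z) := by
      intro z
      rw [shf_shf]
      congr 1
      push_cast
      ring
    rw [h, h2, ih, ← h]

private theorem comm_int_Down {n : ℕ} {G : E4 ≃ₜ E4} (h2 : ∀ z, G (shf n z) = shf n (G z))
    (k : ℤ) (z : E4) : G (shf (n * k) z) = shf (n * k) (G z) := by
  obtain ⟨m, rfl | rfl⟩ := k.eq_nat_or_neg
  · exact comm_nat_Down h2 m z
  · have h3 := comm_nat_Down h2 m (shf (n * ((-(m : ℤ) : ℤ) : ℝ)) z)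
    have h4 : ∀ z, shf (n * m) (shf (n * ((-(m : ℤ) : ℤ) : ℝ)) z) = z := by
      intro z
      rw [shf_shf]
      have h5 : (n * m + n * ((-(m : ℤ) : ℤ) : ℝ) : ℝ) = 0 := by
        push_cast
        ring
      rw [h5, shf_zero]
    have h6 : ∀ z, shf (n * ((-(m : ℤ) : ℤ) : ℝ)) (shf (n * m) z) = z := by
      intro z
      rw [shf_shf]
      have h5 : (n * ((-(m : ℤ) : ℤ) : ℝ) + n * m : ℝ) = 0 := by
        push_cast
        ring
      rw [h5, shf_zero]
    rw [h4] at h3
    rw [h3, h6]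

private theorem core_Down {n : ℕ} (hn : 0 < n) {G : E4 ≃ₜ E4} {R c : ℝ} {r : E4 → E4}
    (hr : Continuous r) (hrq : ∀ z, r (q2 n z) = q2 n (shf c z))
    (hrp : ∀ y, OnPlane y → r y = y) (h1 : ∀ z, R ≤ wsq z → G z = shf c z)
    (h2 : ∀ z, G (shf n z) = shf n (G z)) :
    ∃ F : E4 → E4, Continuous F ∧ (∀ z, q2 n (G z) = F (q2 n z)) ∧
      (∀ y, OnPlane y → F y = y) ∧ ∀ y, y ∉ q2 n '' {z | wsq z ≤ R} → F y = r y := by
  classical
  obtain ⟨F, hF⟩ : ∃ F : E4 → E4, ∀ y, F y = if h : ¬ OnPlane y then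
      q2 n (G (Classical.choose (q2_surj hn h))) else y := ⟨_, fun _ => rfl⟩
  have hq : ∀ z, q2 n (G z) = F (q2 n z) := by
    intro z
    rw [hF, dif_pos (q2_off n z)]
    have h3 := Classical.choose_spec (q2_surj hn (q2_off n z))
    obtain ⟨k, hk⟩ := (q2_eq hn).1 h3
    refine ((q2_eq hn).2 ⟨k, ?_⟩).symm
    rw [← comm_int_Down h2, ← hk]
  have hp : ∀ y, OnPlane y → F y = y := by
    intro y hy
    rw [hF, dif_neg (not_not.2 hy)]
  have ho : ∀ y, y ∉ q2 n '' {z | wsq z ≤ R} → F y = r y := by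
    intro y hy
    by_cases h : OnPlane y
    · rw [hp y h, hrp y h]
    · obtain ⟨z, rfl⟩ := q2_surj hn h
      have h3 : R ≤ wsq z := by
        by_contra h4
        exact hy ⟨z, (not_le.1 h4).le, rfl⟩
      rw [← hq, h1 z h3, hrq]
  refine ⟨F, ?_, hq, hp, ho⟩
  rw [continuous_iff_continuousAt]
  intro y
  by_cases h : OnPlane y
  · have hK : IsClosed (q2 n '' {z | wsq z ≤ R}) := (isCompact_image hn R).isClosed
    have hy : y ∉ q2 n '' {z | wsq z ≤ R} := by
      rintro ⟨z, -, rfl⟩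
      exact q2_off n z h
    have h3 : F =ᶠ[𝓝 y] r := by
      filter_upwards [hK.isOpen_compl.mem_nhds hy] with y' hy'
      exact ho y' hy'
    exact hr.continuousAt.congr h3.symm
  · obtain ⟨z, rfl⟩ := q2_surj hn h
    intro V hV
    have hc : Continuous fun z => F (q2 n z) := by
      have h3 : (fun z => F (q2 n z)) = fun z => q2 n (G z) := funext fun z => (hq z).symm
      rw [h3]
      exact (continuous_q2 n).comp G.continuous
    have h3 : (fun z => F (q2 n z)) ⁻¹' V ∈ 𝓝 z := hc.continuousAt hV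
    have h4 := (isOpenMap_q2 hn).image_mem_nhds h3
    rw [Filter.mem_map]
    refine Filter.mem_of_superset h4 ?_
    rintro _ ⟨z', hz', rfl⟩
    exact hz'

theorem descend {n a : ℕ} (hn : 0 < n) {F' : E4 ≃ₜ E4} {R : ℝ}
    (h1 : ∀ z, R ≤ wsq z → F' z = shf a z) (h2 : ∀ z, F' (shf n z) = shf n (F' z)) :
    ∃ F : E4 ≃ₜ E4, (∀ z, q2 n (F' z) = F (q2 n z)) ∧ AgreeOff F ((rotate n)^[a]) := by
  have h1' : ∀ z, R ≤ wsq z → F'.symm z = shf (-a) z := by
    intro z hz
    have h3 := h1 (shf (-a) z) (by rwa [wsq_shf])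
    rw [shf_shf, add_neg_cancel, shf_zero] at h3
    rw [← h3, F'.symm_apply_apply, h3]
  have h2' : ∀ z, F'.symm (shf n z) = shf n (F'.symm z) := by
    intro z
    have h3 := h2 (F'.symm z)
    rw [F'.apply_symm_apply] at h3
    rw [← h3, F'.symm_apply_apply]
  have hinv : Function.LeftInverse (rotH n).symm (rotate n) := fun y =>
    (rotH n).symm_apply_apply y
  obtain ⟨F, c1, c2, c3, c4⟩ := core_Down hn (G := F') (R := R) (c := a)
    (r := (rotate n)^[a]) ((rotH n).continuous.iterate a) (fun z => (q2_shf_nat hn a z).symm)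
    (fun y hy => Function.iterate_fixed (rotate_onPlane hy) a) h1 h2
  obtain ⟨F₁, d1, d2, d3, -⟩ := core_Down hn (G := F'.symm) (R := R) (c := -a)
    (r := ((rotH n).symm)^[a]) ((rotH n).symm.continuous.iterate a) (fun z => by
      have h3 := q2_shf_nat hn a (shf (-a) z)
      rw [shf_shf, add_neg_cancel, shf_zero] at h3
      rw [h3]
      exact hinv.iterate a _)
    (fun y hy => Function.iterate_fixed (by
      have h3 := hinv y
      rwa [rotate_onPlane hy] at h3) a) h1' h2'
  refine ⟨⟨⟨F, F₁, fun y => ?_, fun y => ?_⟩, c1, d1⟩, c2, ?_⟩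
  · by_cases hy : OnPlane y
    · rw [c3 y hy, d3 y hy]
    · obtain ⟨z, rfl⟩ := q2_surj hn hy
      rw [← c2, ← d2, F'.symm_apply_apply]
  · by_cases hy : OnPlane y
    · rw [d3 y hy, c3 y hy]
    · obtain ⟨z, rfl⟩ := q2_surj hn hy
      rw [← d2, ← c2, F'.apply_symm_apply]
  · refine ⟨q2 n '' {z | wsq z ≤ R}, isCompact_image hn R, ?_, c4⟩
    rintro _ ⟨z, -, rfl⟩
    exact q2_off n z

end Pool.Agent.Rot4
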