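import Pool.Agent.Rot4.Up
import Pool.Agent.Rot4.Down
import Pool.Agent.Rot4.BridgeOf

/-!
# The correspondence
-/

set_option autoImplicit false

open scoped ContDiff Topology
open Set Filter Metric

namespace Pool.Agent.Rot4

open Pool.Agent.HopfCov Pool.Agent.HopfFin Pool.Agent.HopfCov.Smooth

theorem up {n a : ℕ} (hn : 0 < n) {F : E4 ≃ₜ E4} (hF : AgreeOff F ((rotate n)^[a])) :
    ∃ Φ : E4 ≃ₜ E4, Nn n a Φ ∧ Corr n Φ F := by
  obtain ⟨F', h1, ⟨R, h2⟩, h3⟩ := lift_up hn hF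
  obtain ⟨Φ, h4, h5⟩ := of_coord hn h2 h3
  exact ⟨Φ, h4, fun x hx => h4.om.2 hx, fun x hx => by rw [h5 x hx, h1]⟩

theorem down {n a : ℕ} (hn : 0 < n) {Φ : E4 ≃ₜ E4} (h : Nn n a Φ) :
    ∃ F : E4 ≃ₜ E4, AgreeOff F ((rotate n)^[a]) ∧ Corr n Φ F := by
  obtain ⟨F', h1, ⟨R, h2⟩, h3⟩ := to_coord h
  obtain ⟨F, h4, h5⟩ := descend hn h2 h3
  exact ⟨F, h5, fun x hx => h.om.2 hx, fun x hx => by rw [← h1 x hx, h4]⟩

theorem Corr.mul {n : ℕ} {Φ F Ψ H : E4 ≃ₜ E4} (h : Corr n Φ F) (h' : Corr n Ψ H) :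
    Corr n (Φ * Ψ) (F * H) :=
  ⟨fun x hx => h.dom _ (h'.dom _ hx), fun x hx => by
    rw [mul_apply', h.eq _ (h'.dom _ hx), h'.eq _ hx, mul_apply']⟩

theorem Corr.one (n : ℕ) : Corr n 1 1 := ⟨fun _ hx => hx, fun _ _ => rfl⟩

theorem Corr.pow {n : ℕ} {Φ F : E4 ≃ₜ E4} (h : Corr n Φ F) (k : ℕ) : Corr n (Φ ^ k) (F ^ k) := by
  induction k with
  | zero => exact Corr.one n
  | succ k ih =>
    rw [pow_succ, pow_succ]
    exact ih.mul h

private theorem tau_pow_mem_Cone {δ : ℝ} {x : E4} (hx : x ∈ Cone δ) (b : ℕ) :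
    (tau ^ b : E4 ≃ₜ E4) x ∈ Cone δ := by
  rw [tau_pow_apply]
  exact Cone_smul (Real.rpow_nonneg (by norm_num) _) hx

private theorem tau_pow_zero_CorrAlg (b : ℕ) : (tau ^ b : E4 ≃ₜ E4) 0 = 0 := by
  rw [tau_pow_apply, smul_zero]

theorem Nn.mul {n a b : ℕ} {Φ Ψ : E4 ≃ₜ E4} (h : Nn n a Φ) (h' : Nn n b Ψ) :
    Nn n (a + b) (Φ * Ψ) := by
  obtain ⟨δ, hδ, h1⟩ := h.near
  obtain ⟨ε, hε, h2⟩ := h'.near
  refine ⟨?_, ?_, min δ ε, lt_min hδ hε, fun x hx => ?_⟩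
  · rw [mul_apply', h'.zero, h.zero]
  · rw [mul_assoc, h'.comm, ← mul_assoc, h.comm, mul_assoc]
  · have hx1 := Cone_mono (lt_min hδ hε) (min_le_left δ ε) hx
    have hx2 := Cone_mono (lt_min hδ hε) (min_le_right δ ε) hx
    rw [mul_apply', h2 x hx2, h1 _ (tau_pow_mem_Cone hx1 b), ← mul_apply', ← pow_add]

theorem Nn.one (n : ℕ) : Nn n 0 1 := by
  refine ⟨rfl, by rw [one_mul, mul_one], 1, one_pos, fun x _ => ?_⟩
  rw [pow_zero]

theorem Nn.tau (n : ℕ) : Nn n 1 tau := by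
  refine ⟨?_, ?_, 1, one_pos, fun x _ => ?_⟩
  · have h := tau_pow_zero_CorrAlg 1
    rwa [pow_one] at h
  · rw [← pow_succ', ← pow_succ]
  · rw [pow_one]

theorem Nn.pow {n a : ℕ} {Φ : E4 ≃ₜ E4} (h : Nn n a Φ) (k : ℕ) : Nn n (a * k) (Φ ^ k) := by
  induction k with
  | zero =>
    rw [mul_zero, pow_zero]
    exact Nn.one n
  | succ k ih =>
    rw [pow_succ, mul_add, mul_one]
    exact ih.mul h

theorem Nn.inv {n : ℕ} {Φ : E4 ≃ₜ E4} (h : Nn n 0 Φ) : Nn n 0 Φ⁻¹ := by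
  obtain ⟨δ, hδ, h1⟩ := h.near
  have hc : Commute Φ (HopfCov.tau ^ n) := h.comm
  refine ⟨?_, (hc.inv_left).eq, δ, hδ, fun x hx => ?_⟩
  · have h2 := inv_apply_self' Φ 0
    rwa [h.zero] at h2
  · have h2 := inv_apply_self' Φ x
    rw [h1 x hx, pow_zero] at h2
    rw [pow_zero]
    exact h2

/-- `q1_smul` (with exponent `1`), `q2_shf` -/
theorem Corr_tau {n : ℕ} (hn : 0 < n) : Corr n tau (rotH n) := by
  have h1 : ∀ x : E4, (HopfCov.tau : E4 ≃ₜ E4) x = (2 : ℝ) ^ (-(1 : ℝ)) • x := by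
    intro x
    have h := tau_pow_apply 1 x
    rw [pow_one, Nat.cast_one] at h
    exact h
  refine ⟨fun x hx => ?_, fun x hx => ?_⟩
  · rw [h1]
    exact (Om_smul (Real.rpow_pos_of_pos (by norm_num) _)).2 hx
  · rw [h1, q1_smul hx, q2_shf hn]
    rfl

/-- `F` and `F'` agree off the plane (`q2_surj`, `z = q1 (b1 z)`), and the plane has empty interior -/
theorem Corr.unique {n : ℕ} (hn : 0 < n) {Φ F F' : E4 ≃ₜ E4} (h : Corr n Φ F)
    (h' : Corr n Φ F') : F = F' := by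
  have hd : Dense {y : E4 | ¬ OnPlane y} := by
    intro y
    by_cases hy : OnPlane y
    · rw [Metric.mem_closure_iff]
      intro ε hε
      refine ⟨y + (ε / 2) • (EuclideanSpace.single 2 1 : E4), fun hp => ?_, ?_⟩
      · have h2 : (y + (ε / 2) • (EuclideanSpace.single 2 1 : E4)) 2 = y 2 + ε / 2 := by
          simp
        have h3 := hp.1
        rw [h2, hy.1] at h3
        linarith
      · rw [dist_eq_norm, sub_add_cancel_left, norm_neg, norm_smul,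
          Real.norm_of_nonneg (by linarith)]
        simp
        linarith
    · exact subset_closure hy
  have he : Set.EqOn F F' {y : E4 | ¬ OnPlane y} := by
    intro y hy
    obtain ⟨z, rfl⟩ := q2_surj hn hy
    have h1 := h.eq (b1 z) (Om_b1 z)
    have h2 := h'.eq (b1 z) (Om_b1 z)
    rw [q1_b1] at h1 h2
    rw [← h1, ← h2]
  have h3 := Continuous.ext_on hd F.continuous F'.continuous he
  exact Homeomorph.ext fun y => congrFun h3 y

/-- two lifts which agree near the ray: `lift_unique` for the maps `z ↦ q1 (Φ (b1 z))`, `z ↦ q1 (Ψ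
(b1 z))` on `univ` (continuous by `continuousAt_q1`, `continuous_b1`), which agree where `wsq` is
large; on the closed ray both are `x ↦ 2 ^ (-a) x` -/
theorem Corr.lift_eq {n a : ℕ} (hn : 0 < n) {Φ Ψ F : E4 ≃ₜ E4} (hΦ : Nn n a Φ) (hΨ : Nn n a Ψ)
    (h : Corr n Φ F) (h' : Corr n Ψ F) : Φ = Ψ := by
  obtain ⟨δ, hδ, h1⟩ := hΦ.near
  obtain ⟨ε, hε, h2⟩ := hΨ.near
  have hm : 0 < min δ ε := lt_min hδ hε
  have hcone : ∀ x ∈ Cone (min δ ε), Φ x = Ψ x := by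
    intro x hx
    rw [h1 x (Cone_mono hm (min_le_left δ ε) hx), h2 x (Cone_mono hm (min_le_right δ ε) hx)]
  have hcont : ∀ {Θ : E4 ≃ₜ E4}, Corr n Θ F → Continuous fun z => q1 (Θ (b1 z)) := by
    intro Θ hΘ
    rw [continuous_iff_continuousAt]
    intro z
    have h3 : ContinuousAt (fun z => Θ (b1 z)) z :=
      (Θ.continuous.comp continuous_b1).continuousAt
    exact (continuousAt_q1 (hΘ.dom _ (Om_b1 z))).comp_of_eq h3 rfl
  obtain ⟨R, hR⟩ := cone_of_wsq hm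
  obtain ⟨z₀, hz₀⟩ : ∃ z : E4, R ≤ wsq z := by
    refine ⟨EuclideanSpace.single 0 (|R| + 1), ?_⟩
    unfold wsq
    simp
    nlinarith [le_abs_self R, abs_nonneg R]
  have hkey : ∀ z ∈ (Set.univ : Set E4), q1 (Φ (b1 z)) = q1 (Ψ (b1 z)) := by
    refine lift_unique hn isPreconnected_univ (hcont h).continuousOn (hcont h').continuousOn
      (fun z _ => ?_) (Set.mem_univ z₀) ?_
    · rw [h.eq _ (Om_b1 z), h'.eq _ (Om_b1 z)]
    · have h3 : b1 z₀ ∈ Cone (min δ ε) := by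
        refine hR _ (Om_b1 z₀) ?_
        rw [q1_b1]
        exact hz₀
      exact congrArg q1 (hcone _ h3)
  refine Homeomorph.ext fun x => ?_
  by_cases hx : Om x
  · have h3 := hkey (q1 x) (Set.mem_univ _)
    rw [b1_q1 hx] at h3
    have h4 := congrArg b1 h3
    rwa [b1_q1 (h.dom _ hx), b1_q1 (h'.dom _ hx)] at h4
  · obtain ⟨t, ht, rfl⟩ := not_Om_iff.1 hx
    exact hcone _ (smul_e0_mem_Cone hm.le ht)

end Pool.Agent.Rot4
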