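import Pool.Agent.Rot4.CorrAlg

/-!
# Smoothness

PROOF. `reg_iff`: `q = q2 n ∘ q1` is `Reg` at `x` and at `Φ x` (`reg_q1`, `reg_q2`, `Reg.comp`), and
`q ∘ Φ = F ∘ q` near `x` (`isOpen_Om`). `→`: `F ∘ q = q ∘ Φ` is `Reg` at `x`, and `q` has a smooth local
inverse at `x` (inverse function theorem; the lemma `LDA.of_comp_right` or the results on `RG` in
`HopfRem/ParRG`, or `Reg.symm`-type lemmas; alternatively the local inverse of `q` near `q x` is
`Reg`), so `F` is `Reg` at `q x`. `←`: `q ∘ Φ = F ∘ q` is `Reg` at `x` and `q` has a smooth local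
inverse near `Φ x` which maps `q (Φ y)` to `Φ y` for `y` near `x` (continuity of `Φ`).
`sm_iff`: the points off the plane are the `q x`, `x ∈ Om` (`q2_surj`, `q1_b1`, `Om_b1`); on the plane
`F` agrees near every point with `(rotH n) ^ a` (the complement of the compact set `K` is open), which
is linear; on the open ray `Φ = tau ^ a` near every point (`Cone_mem_nhds`).
-/

set_option autoImplicit false

open scoped ContDiff Topology
open Set Filter Metric

namespace Pool.Agent.Rot4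

open Pool.Agent.HopfCov Pool.Agent.HopfFin Pool.Agent.HopfCov.Smooth

private theorem cs_rg_of_inv {f g : E4 → E4} (hf : ContDiff ℝ ∞ f) (hg : ContDiff ℝ ∞ g)
    (h : ∀ x, g (f x) = x) (x : E4) : RG f x := by
  refine ⟨hf.contDiffAt, fun h0 => ?_⟩
  have h5 : HasFDerivAt (fun y => g (f y)) ((fderiv ℝ g (f x)).comp (fderiv ℝ f x)) x :=
    ((hg.contDiffAt.differentiableAt (by simp)).hasFDerivAt).comp x
      (hf.contDiffAt.differentiableAt (by simp)).hasFDerivAt
  have h6 : fderiv ℝ (fun y => g (f y)) x = ContinuousLinearMap.id ℝ E4 := by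
    have h7 : (fun y => g (f y)) = fun y => y := funext h
    rw [h7, fderiv_fun_id]
  have h8 := h5.fderiv
  rw [h6] at h8
  have h9 := congrArg ContinuousLinearMap.det h8
  rw [det_comp_clm, h0, mul_zero] at h9
  simp [ContinuousLinearMap.det] at h9

private theorem cs_rotate (n : ℕ) (x : E4) : RG (rotate n) x := by
  refine cs_rg_of_inv (g := (rotH n).symm) ?_ ?_ (fun y => (rotH n).left_inv y) x
  · show ContDiff ℝ ∞ (fun x : E4 => (WithLp.toLp 2 ![x 0, x 1,
      Real.cos (2 * Real.pi / n) * x 2 - Real.sin (2 * Real.pi / n) * x 3,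
      Real.sin (2 * Real.pi / n) * x 2 + Real.cos (2 * Real.pi / n) * x 3] : E4))
    rw [contDiff_euclidean]
    intro i
    fin_cases i <;> simp <;> fun_prop
  · show ContDiff ℝ ∞ (fun x : E4 => (WithLp.toLp 2 ![x 0, x 1,
      Real.cos (2 * Real.pi / n) * x 2 + Real.sin (2 * Real.pi / n) * x 3,
      -Real.sin (2 * Real.pi / n) * x 2 + Real.cos (2 * Real.pi / n) * x 3] : E4))
    rw [contDiff_euclidean]
    intro i
    fin_cases i <;> simp <;> fun_prop

private theorem cs_iter (n a : ℕ) (x : E4) : RG ((rotate n)^[a]) x := by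
  induction a generalizing x with
  | zero => exact RG_id x
  | succ a ih =>
    rw [Function.iterate_succ]
    exact RG.comp (g := (rotate n)^[a]) (f := rotate n) (ih _) (cs_rotate n x)

private theorem cs_tau_pow (a : ℕ) (x : E4) : RG (tau ^ a : E4 ≃ₜ E4) x := by
  induction a generalizing x with
  | zero => exact RG_id x
  | succ a ih =>
    rw [pow_succ]
    exact RG.mul (ih _) (LD_tau x).rg

private theorem cs_rg_of_reg {f : E4 → E4} {x : E4} (h : Reg f x) : RG f x :=
  Filter.Eventually.self_of_nhds h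

private theorem cs_Q {n : ℕ} (hn : 0 < n) {x : E4} (hx : Om x) :
    RG (fun y => q2 n (q1 y)) x :=
  RG.comp (g := q2 n) (f := q1) (cs_rg_of_reg (reg_q2 hn (q1 x))) (cs_rg_of_reg (reg_q1 hx))

theorem reg_iff {n : ℕ} (hn : 0 < n) {Φ F : E4 ≃ₜ E4} (h : Corr n Φ F) {x : E4} (hx : Om x) :
    Reg Φ x ↔ Reg F (q2 n (q1 x)) := by
  have hO : ∀ {y : E4}, Om y → ∀ᶠ z in 𝓝 y, Om z := fun {y} hy =>
    isOpen_Om.mem_nhds (show y ∈ {x : E4 | Om x} from hy)
  have hEq : ∀ {y : E4}, Om y →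
      (fun z => q2 n (q1 (Φ z))) =ᶠ[𝓝 y] fun z => F (q2 n (q1 z)) := fun {y} hy =>
    (hO hy).mono fun z hz => h.eq z hz
  constructor
  · intro hr
    show ∀ᶠ z in 𝓝 (q2 n (q1 x)), RG F z
    have hmap := (cs_Q hn hx).map_nhds
    have h1 : ∀ᶠ y in 𝓝 x, RG F (q2 n (q1 y)) := by
      filter_upwards [hr, hO hx] with y hy hy2
      have h2 : RG (fun z => q2 n (q1 (Φ z))) y :=
        RG.comp (g := fun z => q2 n (q1 z)) (f := Φ) (cs_Q hn (h.dom y hy2)) hy
      exact RG.of_comp_right (f := fun z => q2 n (q1 z)) (g := F) (cs_Q hn hy2)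
        (h2.congr (hEq hy2))
    have h3 : ∀ᶠ z in map (fun y => q2 n (q1 y)) (𝓝 x), RG F z := h1
    rwa [hmap] at h3
  · intro hr
    show ∀ᶠ y in 𝓝 x, RG Φ y
    have hc : ContinuousAt (fun y => q2 n (q1 y)) x := (cs_Q hn hx).continuousAt
    filter_upwards [hc.eventually hr, hO hx] with y hy hy2
    have h2 : RG (fun z => F (q2 n (q1 z))) y :=
      RG.comp (g := F) (f := fun z => q2 n (q1 z)) hy (cs_Q hn hy2)
    exact RG.of_comp (f := Φ) (g := fun z => q2 n (q1 z)) Φ.continuous.continuousAt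
      (cs_Q hn (h.dom y hy2)) (h2.congr (hEq hy2).symm)

/-- near the plane `F` is regular -/
theorem reg_plane {n a : ℕ} {F : E4 ≃ₜ E4} (hF : AgreeOff F ((rotate n)^[a])) {x : E4}
    (hx : OnPlane x) : Reg F x := by
  obtain ⟨K, hK, hK1, hK2⟩ := hF
  have h1 : ∀ᶠ y in 𝓝 x, y ∉ K := hK.isClosed.isOpen_compl.mem_nhds fun hxK => hK1 x hxK hx
  show ∀ᶠ y in 𝓝 x, RG F y
  filter_upwards [h1.eventually_nhds] with y hy
  exact (cs_iter n a y).congr (hy.mono fun z hz => (hK2 z hz).symm)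

theorem sm_iff {n a : ℕ} (hn : 0 < n) {Φ F : E4 ≃ₜ E4} (hΦ : Nn n a Φ) (h : Corr n Φ F)
    (hF : AgreeOff F ((rotate n)^[a])) : Sm Φ ↔ ∀ x, InvertibleAt F x := by
  constructor
  · intro hS y
    by_cases hy : OnPlane y
    · exact cs_rg_of_reg (reg_plane hF hy)
    · obtain ⟨z, hz⟩ := q2_surj hn hy
      have hO := Om_b1 z
      have h1 : Reg Φ (b1 z) := by
        show ∀ᶠ w in 𝓝 (b1 z), RG Φ w
        filter_upwards [isOpen_compl_singleton.mem_nhds
          (show b1 z ∈ ({(0 : E4)}ᶜ : Set E4) from hO.ne)] with w hw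
        exact hS.2 w hw
      have h2 := (reg_iff hn h hO).1 h1
      rw [q1_b1, hz] at h2
      exact cs_rg_of_reg h2
  · intro hI
    refine ⟨hΦ.zero, fun x hx => ?_⟩
    by_cases hO : Om x
    · have h1 : Reg F (q2 n (q1 x)) := Filter.Eventually.of_forall fun z => hI z
      exact cs_rg_of_reg ((reg_iff hn h hO).2 h1)
    · obtain ⟨t, ht, rfl⟩ := not_Om_iff.1 hO
      have ht' : 0 < t := by
        rcases ht.lt_or_eq with h1 | h1
        · exact h1
        · exact absurd (by rw [← h1, zero_smul]) hx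
      obtain ⟨δ, hδ, h2⟩ := hΦ.near
      have h3 : (tau ^ a : E4 ≃ₜ E4) =ᶠ[𝓝 (t • e0)] Φ :=
        Filter.eventuallyEq_of_mem (Cone_mem_nhds hδ ht') fun y hy => (h2 y hy).symm
      exact (cs_tau_pow a (t • e0)).congr h3

end Pool.Agent.Rot4
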