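import Pool.Agent.HopfRem.Statement4

/-!
# Cyclic actions on `ℝ⁴` which are linear near the fixed plane and near infinity

A smooth action of `ℤ / n` on `S⁴` whose fixed point set is an unknotted 2-sphere is smoothly
equivalent to an action which agrees near the 2-sphere `ℝ² ∪ ∞` of `S⁴ = ℝ⁴ ∪ ∞` with the rotations
around the plane `ℝ²` (equivariant tubular neighbourhoods). Such an action is given by a
diffeomorphism `f` of `ℝ⁴` with `f ^ n = 1` which agrees off a compact subset of `ℝ⁴ ∖ ℝ²` with the
rotation by the angle `2 π / n`.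
-/

set_option autoImplicit false

open scoped ContDiff Topology Manifold
open Set Filter Metric

namespace Pool.Agent.HopfCov.Smooth

/-- the point lies on the plane `ℝ² × 0` -/
def OnPlane (x : E4) : Prop := x 2 = 0 ∧ x 3 = 0

/-- the rotation of `ℝ⁴` around the plane `ℝ² × 0` by the angle `2 π / n` -/
noncomputable def rotate (n : ℕ) (x : E4) : E4 :=
  WithLp.toLp 2 ![x 0, x 1, Real.cos (2 * Real.pi / n) * x 2 - Real.sin (2 * Real.pi / n) * x 3,
    Real.sin (2 * Real.pi / n) * x 2 + Real.cos (2 * Real.pi / n) * x 3]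

/-- the maps `f` and `g` agree off a compact set which does not meet the plane, that is near the
2-sphere `ℝ² ∪ ∞` of `S⁴ = ℝ⁴ ∪ ∞` -/
def AgreeOff (f g : E4 → E4) : Prop :=
  ∃ K : Set E4, IsCompact K ∧ (∀ x ∈ K, ¬ OnPlane x) ∧ ∀ x, x ∉ K → f x = g x

/-- `f` is a diffeomorphism of `ℝ⁴` -/
def AllSmooth (f : Homeo4) : Prop := ∀ x, InvertibleAt f.fn x

/-- `f` generates a smooth action of `ℤ / n` on `ℝ⁴` which is the action by rotations near the plane
and near infinity, and which is conjugate to the action by rotations by a homeomorphism which is the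
identity near the plane and near infinity -/
structure Action (n : ℕ) (f : Homeo4) : Prop where
  smooth : AllSmooth f
  pow : ∀ x, (f ^ n).fn x = x
  near : AgreeOff f.fn (rotate n)
  top : ∃ h : Homeo4, AgreeOff h.fn id ∧ ∀ x, h.fn (f.fn x) = rotate n (h.fn x)

/-- `f` is conjugate to the rotation by a diffeomorphism which is the identity near the plane and near
infinity -/
def LinearAction (n : ℕ) (f : Homeo4) : Prop :=
  ∃ h : Homeo4, AgreeOff h.fn id ∧ (∀ x, h.fn (f.fn x) = rotate n (h.fn x)) ∧ AllSmooth h

/-- `f` is conjugate to the rotation by a homeomorphism which is the identity near the plane and near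
infinity and a local diffeomorphism off one orbit -/
def LinearOffOrbit (n : ℕ) (f : Homeo4) : Prop :=
  ∃ h : Homeo4, AgreeOff h.fn id ∧ (∀ x, h.fn (f.fn x) = rotate n (h.fn x)) ∧
    ∃ y, ¬ OnPlane y ∧ ∀ x, (∀ k : ℕ, x ≠ (f ^ k).fn y) → InvertibleAt h.fn x

/-- `f` and `g` are conjugate by a diffeomorphism which is the identity near the plane and near
infinity -/
def SameAction (f g : Homeo4) : Prop :=
  ∃ h : Homeo4, AgreeOff h.fn id ∧ (∀ x, h.fn (f.fn x) = g.fn (h.fn x)) ∧ AllSmooth h

end Pool.Agent.HopfCov.Smooth
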