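import Pool.Agent.HopfFin.Cones
import Pool.Agent.HopfFin.Basic
import Pool.Agent.Rot4.StatementRot

/-!
# The explicit covering `ℝ⁴ ∖ ray → ℝ⁴ ∖ plane`

`Om` is the complement of the closed ray `ℝ≥0 e0`. `q1 : Om → ℝ⁴` is the diffeomorphism `x ↦ (w, s)`,
`w` the stereographic projection of `x / ‖x‖` from `e0` and `s = - log₂ ‖x‖`; `b1` is its inverse.
`q2 n : ℝ⁴ → ℝ⁴ ∖ plane` is the covering `(w, s) ↦ (w₁, w₂, exp (w₃ + 2 π i s / n))`. So
`x ↦ x / 2` corresponds to the shift `s ↦ s + 1` and to the rotation by `2 π / n`.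
-/

set_option autoImplicit false

open scoped ContDiff Topology
open Set Filter Metric

namespace Pool.Agent.Rot4

open Pool.Agent.HopfCov Pool.Agent.HopfFin Pool.Agent.HopfCov.Smooth

/-- the point does not lie on the closed ray `ℝ≥0 e0` -/
def Om (x : E4) : Prop := x 0 < ‖x‖

/-- the coordinates on the complement of the closed ray -/
noncomputable def q1 (x : E4) : E4 :=
  WithLp.toLp 2 ![x 1 / (‖x‖ - x 0), x 2 / (‖x‖ - x 0), x 3 / (‖x‖ - x 0), -Real.logb 2 ‖x‖]

/-- the square of the norm of the first three coordinates -/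
def wsq (z : E4) : ℝ := z 0 ^ 2 + z 1 ^ 2 + z 2 ^ 2

/-- the inverse of `q1` -/
noncomputable def b1 (z : E4) : E4 :=
  (2 : ℝ) ^ (-z 3) • WithLp.toLp 2 ![(wsq z - 1) / (wsq z + 1), 2 * z 0 / (wsq z + 1),
    2 * z 1 / (wsq z + 1), 2 * z 2 / (wsq z + 1)]

/-- the universal covering of the complement of the plane -/
noncomputable def q2 (n : ℕ) (z : E4) : E4 :=
  WithLp.toLp 2 ![z 0, z 1, Real.exp (z 2) * Real.cos (2 * Real.pi / n * z 3),
    Real.exp (z 2) * Real.sin (2 * Real.pi / n * z 3)]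

/-- the shift of the last coordinate -/
noncomputable def shf (c : ℝ) (z : E4) : E4 := z + c • (EuclideanSpace.single 3 1 : E4)

/-- the rotation by `2 π / n` as a homeomorphism -/
noncomputable def rotH (n : ℕ) : E4 ≃ₜ E4 where
  toFun := rotate n
  invFun x := WithLp.toLp 2 ![x 0, x 1,
    Real.cos (2 * Real.pi / n) * x 2 + Real.sin (2 * Real.pi / n) * x 3,
    -Real.sin (2 * Real.pi / n) * x 2 + Real.cos (2 * Real.pi / n) * x 3]
  left_inv x := by
    have h := Real.sin_sq_add_cos_sq (2 * Real.pi / n)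
    ext i
    fin_cases i <;> simp [rotate]
    · linear_combination x 2 * h
    · linear_combination x 3 * h
  right_inv x := by
    have h := Real.sin_sq_add_cos_sq (2 * Real.pi / n)
    ext i
    fin_cases i <;> simp [rotate]
    · linear_combination x 2 * h
    · linear_combination x 3 * h
  continuous_toFun := by
    unfold rotate
    fun_prop
  continuous_invFun := by
    fun_prop

/-- `Φ` commutes with `x ↦ x / 2 ^ n` and is `x ↦ x / 2 ^ a` on a thin cone around the ray -/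
structure Nn (n a : ℕ) (Φ : E4 ≃ₜ E4) : Prop where
  zero : Φ 0 = 0
  comm : Φ * tau ^ n = tau ^ n * Φ
  near : ∃ δ : ℝ, 0 < δ ∧ ∀ x ∈ Cone δ, Φ x = (tau ^ a : E4 ≃ₜ E4) x

/-- `Φ` lies over `F` -/
structure Corr (n : ℕ) (Φ F : E4 ≃ₜ E4) : Prop where
  dom : ∀ x, Om x → Om (Φ x)
  eq : ∀ x, Om x → q2 n (q1 (Φ x)) = F (q2 n (q1 x))

end Pool.Agent.Rot4
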