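import Pool.Agent.Rot4.StatementEqv
import Pool.Agent.Rot4.Defs
import Pool.Agent.HopfFin.Norm

/-!
# Sequences of pairwise inequivalent actions
-/

set_option autoImplicit false

open scoped ContDiff Topology
open Set Filter Metric

namespace Pool.Agent.Rot4

open Pool.Agent.HopfCov hiding pr
open Pool.Agent.HopfCov.Smooth

theorem sm_mul {h k : E4 ≃ₜ E4} (hh : ∀ x, InvertibleAt h x) (hk : ∀ x, InvertibleAt k x) :
    ∀ x, InvertibleAt (h * k : E4 ≃ₜ E4) x := fun x =>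
  RG.mul (a := h) (b := k) (hh _) (hk x)

theorem sm_inv {h : E4 ≃ₜ E4} (hh : ∀ x, InvertibleAt h x) : ∀ x, InvertibleAt (h⁻¹ : E4 ≃ₜ E4) x :=
  fun _ => RG.inv' (hh _)

/-- the equivalence relation for homeomorphisms -/
def SA (f g : E4 ≃ₜ E4) : Prop :=
  ∃ h : E4 ≃ₜ E4, AgreeOff h id ∧ h * f = g * h ∧ ∀ x, InvertibleAt h x

theorem sameAction_iff {f g : Homeo4} : SameAction f g ↔ SA f g :=
  ⟨fun ⟨h, h1, h2, h3⟩ => ⟨h, h1, Homeomorph.ext h2, h3⟩,
    fun ⟨h, h1, h2, h3⟩ => ⟨h, h1, fun x => DFunLike.congr_fun h2 x, h3⟩⟩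

/-- two actions equivalent to the same one are equivalent -/
theorem SA.join {f f' g : E4 ≃ₜ E4} (h : SA f g) (h' : SA f' g) : SA f f' := by
  obtain ⟨k, ⟨K, h1, h2, h3⟩, h4, h5⟩ := h
  obtain ⟨k', ⟨K', h1', h2', h3'⟩, h4', h5'⟩ := h'
  refine ⟨k'⁻¹ * k, ⟨K ∪ K', h1.union h1', ?_, ?_⟩, ?_, sm_mul (sm_inv h5') h5⟩
  · rintro x (hx | hx)
    · exact h2 x hx
    · exact h2' x hx
  · intro x hx
    have e1 : k x = x := h3 x fun h => hx (Or.inl h)
    have e2 : k' x = x := h3' x fun h => hx (Or.inr h)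
    show (k'⁻¹ : E4 ≃ₜ E4) (k x) = x
    rw [e1]
    exact k'.symm_apply_eq.2 e2.symm
  · have e : k'⁻¹ * g = f' * k'⁻¹ := by
      rw [inv_mul_eq_iff_eq_mul, ← mul_assoc, h4', mul_assoc, mul_inv_cancel, mul_one]
    rw [mul_assoc, h4, ← mul_assoc, e, mul_assoc]

/-- the reflection as a homeomorphism -/
noncomputable def refH (a b : ℝ) (ha : a ^ 2 = 1) (hb : b ^ 2 = 1) : E4 ≃ₜ E4 where
  toFun := reflect a b
  invFun := reflect a b
  left_inv x := by
    ext i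
    fin_cases i <;> simp [reflect]
    · linear_combination x 1 * ha
    · linear_combination x 3 * hb
  right_inv x := by
    ext i
    fin_cases i <;> simp [reflect]
    · linear_combination x 1 * ha
    · linear_combination x 3 * hb
  continuous_toFun := by
    unfold reflect
    fun_prop
  continuous_invFun := by
    unfold reflect
    fun_prop

theorem refH_mul {a b : ℝ} (ha : a ^ 2 = 1) (hb : b ^ 2 = 1) :
    refH a b ha hb * refH a b ha hb = 1 :=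
  Homeomorph.ext fun x => (refH a b ha hb).left_inv x

/-- the reflection as a linear isomorphism -/
noncomputable def refL (a b : ℝ) (ha : a ^ 2 = 1) (hb : b ^ 2 = 1) : E4 ≃ₗ[ℝ] E4 where
  toFun := reflect a b
  map_add' x y := by
    ext i
    fin_cases i <;> simp [reflect, mul_add]
  map_smul' c x := by
    ext i
    fin_cases i <;> simp [reflect, mul_left_comm]
  invFun := reflect a b
  left_inv := (refH a b ha hb).left_inv
  right_inv := (refH a b ha hb).right_inv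

theorem refH_smooth {a b : ℝ} (ha : a ^ 2 = 1) (hb : b ^ 2 = 1) :
    ∀ x, InvertibleAt (refH a b ha hb) x := by
  intro x
  have h1 : InvertibleAt ((refL a b ha hb).toContinuousLinearEquiv) x := by
    refine ⟨(refL a b ha hb).toContinuousLinearEquiv.contDiff.contDiffAt, ?_⟩
    rw [ContinuousLinearEquiv.fderiv]
    exact ((refL a b ha hb).isUnit_det').ne_zero
  exact h1

theorem onPlane_reflect {a b : ℝ} (hb : b ^ 2 = 1) {x : E4} :
    OnPlane (reflect a b x) ↔ OnPlane x := by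
  have h0 : b ≠ 0 := fun h => by
    rw [h] at hb
    norm_num at hb
  simp [OnPlane, reflect, h0]

theorem Equivalent.symm' {f g : Homeo4} (h : Equivalent f g) : Equivalent g f := by
  obtain ⟨k, ⟨a, b, ha, hb, K, h1, h2, h3⟩, h4, h5⟩ := h
  obtain ⟨k', hk'⟩ : ∃ k' : E4 ≃ₜ E4, k' = k := ⟨_, rfl⟩
  obtain ⟨f', hf'⟩ : ∃ f' : E4 ≃ₜ E4, f' = f := ⟨_, rfl⟩
  obtain ⟨g', hg'⟩ : ∃ g' : E4 ≃ₜ E4, g' = g := ⟨_, rfl⟩
  have h3' : ∀ x, x ∉ K → k' x = reflect a b x := by rw [hk']; exact h3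
  have h4' : ∀ x, k' (f' x) = g' (k' x) := by rw [hk', hf', hg']; exact h4
  have h5' : ∀ x, InvertibleAt k' x := by rw [hk']; exact h5
  have hmain : (∃ a b : ℝ, a ^ 2 = 1 ∧ b ^ 2 = 1 ∧ AgreeOff (k'⁻¹ : E4 ≃ₜ E4) (reflect a b)) ∧
      (∀ x, (k'⁻¹ : E4 ≃ₜ E4) (g' x) = f' ((k'⁻¹ : E4 ≃ₜ E4) x)) ∧
      ∀ x, InvertibleAt (k'⁻¹ : E4 ≃ₜ E4) x := by
    refine ⟨⟨a, b, ha, hb, refH a b ha hb '' K, h1.image (refH a b ha hb).continuous, ?_, ?_⟩, ?_,
      sm_inv h5'⟩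
    · rintro _ ⟨x, hx, rfl⟩
      exact fun h => h2 x hx ((onPlane_reflect hb).1 h)
    · intro x hx
      have e1 : reflect a b x ∉ K := fun h => hx ⟨_, h, (refH a b ha hb).left_inv x⟩
      have e2 := h3' _ e1
      rw [show reflect a b (reflect a b x) = x from (refH a b ha hb).left_inv x] at e2
      exact k'.symm_apply_eq.2 e2.symm
    · intro x
      refine k'.symm_apply_eq.2 ?_
      rw [h4']
      exact congrArg _ (k'.apply_symm_apply x).symm
  rw [hf', hg'] at hmain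
  exact ⟨(k'⁻¹ : E4 ≃ₜ E4), hmain⟩

/-- an equivalence is an equivalence rel the plane with a conjugate by a reflection -/
theorem Equivalent.sa {f g : Homeo4} (h : Equivalent f g) : ∃ (a b : ℝ) (ha : a ^ 2 = 1)
    (hb : b ^ 2 = 1), SA f (refH a b ha hb * (show E4 ≃ₜ E4 from g) * refH a b ha hb) := by
  obtain ⟨k, ⟨a, b, ha, hb, K, h1, h2, h3⟩, h4, h5⟩ := h
  obtain ⟨k', hk'⟩ : ∃ k' : E4 ≃ₜ E4, k' = k := ⟨_, rfl⟩
  obtain ⟨f', hf'⟩ : ∃ f' : E4 ≃ₜ E4, f' = f := ⟨_, rfl⟩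
  obtain ⟨g', hg'⟩ : ∃ g' : E4 ≃ₜ E4, g' = g := ⟨_, rfl⟩
  have h3' : ∀ x, x ∉ K → k' x = reflect a b x := by rw [hk']; exact h3
  have h4' : k' * f' = g' * k' := Homeomorph.ext (by rw [hk', hf', hg']; exact h4)
  have h5' : ∀ x, InvertibleAt k' x := by rw [hk']; exact h5
  have hmain : SA f' (refH a b ha hb * g' * refH a b ha hb) := by
    refine ⟨refH a b ha hb * k', ⟨K, h1, h2, fun x hx => ?_⟩, ?_, sm_mul (refH_smooth ha hb) h5'⟩
    · show reflect a b (k' x) = x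
      rw [h3' x hx]
      exact (refH a b ha hb).left_inv x
    · rw [mul_assoc, h4', mul_assoc (refH a b ha hb * g'),
        ← mul_assoc (refH a b ha hb) (refH a b ha hb), refH_mul, one_mul, mul_assoc]
  rw [hf', hg'] at hmain
  exact ⟨a, b, ha, hb, hmain⟩

theorem finite_eqv {F : ℕ → Homeo4} (h : ∀ i j, i ≠ j → ¬ SameAction (F i) (F j)) (g : Homeo4) :
    {j | Equivalent (F j) g}.Finite := by
  classical
  have h1 : {j | Equivalent (F j) g} ⊆ ⋃ p : {p : ℝ × ℝ // p.1 ^ 2 = 1 ∧ p.2 ^ 2 = 1},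
      {j | SA (F j) (refH p.1.1 p.1.2 p.2.1 p.2.2 * (show E4 ≃ₜ E4 from g) *
        refH p.1.1 p.1.2 p.2.1 p.2.2)} := by
    intro j hj
    obtain ⟨a, b, ha, hb, hs⟩ := Equivalent.sa hj
    exact mem_iUnion.2 ⟨⟨(a, b), ha, hb⟩, hs⟩
  have h2 : Finite {p : ℝ × ℝ // p.1 ^ 2 = 1 ∧ p.2 ^ 2 = 1} := by
    refine Set.Finite.to_subtype (Set.Finite.subset
      ((Set.toFinite ({1, -1} : Set ℝ)).prod (Set.toFinite ({1, -1} : Set ℝ))) ?_)
    rintro ⟨a, b⟩ ⟨ha, hb⟩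
    exact ⟨mul_self_eq_one_iff.1 (by rw [← sq]; exact ha),
      mul_self_eq_one_iff.1 (by rw [← sq]; exact hb)⟩
  refine (Set.finite_iUnion fun p => Set.Subsingleton.finite ?_).subset h1
  intro i hi j hj
  by_contra hij
  exact h i j hij (sameAction_iff.2 (SA.join hi hj))

theorem exists_ineq {F : ℕ → Homeo4} (h : ∀ i j, i ≠ j → ¬ SameAction (F i) (F j)) :
    ∃ φ : ℕ → ℕ, ∀ i j, i ≠ j → ¬ Equivalent (F (φ i)) (F (φ j)) := by
  have : Std.Symm (fun i j : ℕ => ¬ Equivalent (F i) (F j)) :=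
    ⟨fun i j hij hji => hij (Equivalent.symm' hji)⟩
  obtain ⟨φ, -, h1⟩ := exists_seq_of_forall_finset_exists' (fun _ : ℕ => True)
    (fun i j => ¬ Equivalent (F i) (F j)) fun s _ => by
      have h2 : (⋃ x ∈ s, {j | Equivalent (F j) (F x)}).Finite :=
        s.finite_toSet.biUnion fun x _ => finite_eqv h (F x)
      obtain ⟨y, hy⟩ := h2.exists_notMem
      refine ⟨y, trivial, fun x hx hxy => hy ?_⟩
      exact mem_iUnion₂.2 ⟨x, hx, Equivalent.symm' hxy⟩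
  exact ⟨φ, fun i j hij => h1 hij⟩

end Pool.Agent.Rot4
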