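import Pool.Agent.Rot4.ExpBasic

/-!
# `q2` is a local diffeomorphism

The derivative at `z` is injective: its value at `v` has the components `v 0`, `v 1`,
`exp (z 2) (cos θ v 2 - c sin θ v 3)`, `exp (z 2) (sin θ v 2 + c cos θ v 3)`, `c = 2 π / n ≠ 0`,
`θ = c z 3` (the derivative of `t ↦ q2 n (z + t v)` at `0`); if all vanish then `v = 0`.
-/

set_option autoImplicit false

open scoped ContDiff Topology
open Set Filter Metric

namespace Pool.Agent.Rot4

open Pool.Agent.HopfCov Pool.Agent.HopfFin Pool.Agent.HopfCov.Smooth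

private theorem contDiff_q2 (n : ℕ) : ContDiff ℝ ∞ (q2 n) := by
  rw [contDiff_euclidean]
  intro i
  fin_cases i
  · change ContDiff ℝ ∞ fun z : E4 => z 0
    fun_prop
  · change ContDiff ℝ ∞ fun z : E4 => z 1
    fun_prop
  · change ContDiff ℝ ∞ fun z : E4 => Real.exp (z 2) * Real.cos (2 * Real.pi / n * z 3)
    fun_prop
  · change ContDiff ℝ ∞ fun z : E4 => Real.exp (z 2) * Real.sin (2 * Real.pi / n * z 3)
    fun_prop

private theorem fderiv_inj {n : ℕ} (hn : 0 < n) (z v : E4) (hv : fderiv ℝ (q2 n) z v = 0) :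
    v = 0 := by
  have hc : 2 * Real.pi / n ≠ 0 := by
    have : (n : ℝ) ≠ 0 := by exact_mod_cast hn.ne'
    have := Real.pi_ne_zero
    positivity
  set c : ℝ := 2 * Real.pi / n with hcd
  have hd : HasFDerivAt (q2 n) (fderiv ℝ (q2 n) z) z :=
    ((contDiff_q2 n).differentiable (by simp) z).hasFDerivAt
  have hline : HasDerivAt (fun t : ℝ => z + t • v) v 0 := by
    have h1 : HasDerivAt (fun t : ℝ => t • v) ((1 : ℝ) • v) 0 := (hasDerivAt_id 0).smul_const v
    rw [one_smul] at h1
    exact h1.const_add z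
  have hg : HasDerivAt (fun t : ℝ => q2 n (z + t • v)) 0 0 := by
    have h0 : z + (0 : ℝ) • v = z := by simp
    have h1 : HasFDerivAt (q2 n) (fderiv ℝ (q2 n) z) (z + (0 : ℝ) • v) := by rw [h0]; exact hd
    have h2 := h1.comp_hasDerivAt (0 : ℝ) hline
    rw [hv] at h2
    exact h2
  have hcomp : ∀ i : Fin 4, HasDerivAt (fun t : ℝ => q2 n (z + t • v) i) 0 0 := by
    intro i
    have h0 : HasFDerivAt (fun x : E4 => x i) (EuclideanSpace.proj i : E4 →L[ℝ] ℝ)
        (q2 n (z + (0 : ℝ) • v)) := (EuclideanSpace.proj i : E4 →L[ℝ] ℝ).hasFDerivAt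
    have h1 := h0.comp_hasDerivAt (0 : ℝ) hg
    rw [map_zero] at h1
    exact h1
  have hlin : ∀ i : Fin 4, HasDerivAt (fun t : ℝ => z i + t * v i) (v i) 0 := by
    intro i
    have h1 : HasDerivAt (fun t : ℝ => t * v i) (1 * v i) 0 := (hasDerivAt_id 0).mul_const (v i)
    rw [one_mul] at h1
    exact h1.const_add (z i)
  have e0 : v 0 = 0 := by
    have h1 := hcomp 0
    have h2 : (fun t : ℝ => q2 n (z + t • v) 0) = fun t : ℝ => z 0 + t * v 0 := by
      funext t
      simp [q2]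
    rw [h2] at h1
    exact (hlin 0).unique h1
  have e1 : v 1 = 0 := by
    have h1 := hcomp 1
    have h2 : (fun t : ℝ => q2 n (z + t • v) 1) = fun t : ℝ => z 1 + t * v 1 := by
      funext t
      simp [q2]
    rw [h2] at h1
    exact (hlin 1).unique h1
  have hang : HasDerivAt (fun t : ℝ => c * (z 3 + t * v 3)) (c * v 3) 0 :=
    (hlin 3).const_mul c
  have hexp : HasDerivAt (fun t : ℝ => Real.exp (z 2 + t * v 2)) (Real.exp (z 2) * v 2) 0 := by
    have h1 := (hlin 2).exp
    simpa using h1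
  have e2 : Real.exp (z 2) * v 2 * Real.cos (c * z 3) +
      Real.exp (z 2) * (-Real.sin (c * z 3) * (c * v 3)) = 0 := by
    have h1 := hcomp 2
    have h2 : (fun t : ℝ => q2 n (z + t • v) 2) =
        fun t : ℝ => Real.exp (z 2 + t * v 2) * Real.cos (c * (z 3 + t * v 3)) := by
      funext t
      simp [q2, hcd]
    rw [h2] at h1
    have h3 := hexp.mul hang.cos
    have h4 := h3.unique h1
    simpa using h4
  have e3 : Real.exp (z 2) * v 2 * Real.sin (c * z 3) +
      Real.exp (z 2) * (Real.cos (c * z 3) * (c * v 3)) = 0 := by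
    have h1 := hcomp 3
    have h2 : (fun t : ℝ => q2 n (z + t • v) 3) =
        fun t : ℝ => Real.exp (z 2 + t * v 2) * Real.sin (c * (z 3 + t * v 3)) := by
      funext t
      simp [q2, hcd]
    rw [h2] at h1
    have h3 := hexp.mul hang.sin
    have h4 := h3.unique h1
    simpa using h4
  have hE := (Real.exp_pos (z 2)).ne'
  have hsc := Real.sin_sq_add_cos_sq (c * z 3)
  have f2 : v 2 = 0 := by
    have h1 : Real.exp (z 2) * v 2 = 0 := by
      linear_combination Real.cos (c * z 3) * e2 + Real.sin (c * z 3) * e3 -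
        Real.exp (z 2) * v 2 * hsc
    exact (mul_eq_zero.1 h1).resolve_left hE
  have f3 : v 3 = 0 := by
    have h1 : Real.exp (z 2) * (c * v 3) = 0 := by
      linear_combination -Real.sin (c * z 3) * e2 + Real.cos (c * z 3) * e3 -
        Real.exp (z 2) * (c * v 3) * hsc
    have h2 := (mul_eq_zero.1 h1).resolve_left hE
    exact (mul_eq_zero.1 h2).resolve_left hc
  ext i
  fin_cases i
  · exact e0
  · exact e1
  · exact f2
  · exact f3

private theorem det_q2 {n : ℕ} (hn : 0 < n) (z : E4) : (fderiv ℝ (q2 n) z).det ≠ 0 := by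
  intro h
  have h1 : LinearMap.det ((fderiv ℝ (q2 n) z : E4 →L[ℝ] E4) : E4 →ₗ[ℝ] E4) = 0 := h
  have h2 := LinearMap.bot_lt_ker_of_det_eq_zero h1
  obtain ⟨v, hv, hv0⟩ := Submodule.exists_mem_ne_zero_of_ne_bot h2.ne'
  exact hv0 (fderiv_inj hn z v hv)

theorem reg_q2 {n : ℕ} (hn : 0 < n) (z : E4) : Reg (q2 n) z :=
  Eventually.of_forall fun y => ⟨(contDiff_q2 n).contDiffAt, det_q2 hn y⟩

theorem isOpenMap_q2 {n : ℕ} (hn : 0 < n) : IsOpenMap (q2 n) := by
  rw [isOpenMap_iff_nhds_le]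
  intro z
  have hs : HasStrictFDerivAt (q2 n) (fderiv ℝ (q2 n) z) z :=
    (contDiff_q2 n).contDiffAt.hasStrictFDerivAt (by simp)
  have hinj : Function.Injective (fderiv ℝ (q2 n) z : E4 →ₗ[ℝ] E4) := by
    rw [injective_iff_map_eq_zero]
    intro v hv
    exact fderiv_inj hn z v hv
  have hsurj : (fderiv ℝ (q2 n) z : E4 →ₗ[ℝ] E4).range = ⊤ := by
    rw [LinearMap.range_eq_top]
    exact LinearMap.injective_iff_surjective.1 hinj
  exact (hs.map_nhds_eq_of_surj hsurj).ge

end Pool.Agent.Rot4
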