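import Pool.Agent.Rot4.ExpBasic

/-!
# Lifting maps through `q2`

`G z = (g z) 2 + i (g z) 3` is a continuous map to `ℂ ∖ 0`. As `E4` is simply connected and locally
path connected, there is a unique continuous `L : E4 → ℂ` with `exp (L z) = G z` and
`L z₀ = (u₀ 2) + i (2 π / n) (u₀ 3)`, and
`g' z = ((g z) 0, (g z) 1, Re (L z), n / (2 π) Im (L z))` is the lift.

`lift_unique`: if `q2 n (f z) = q2 n (f' z)` on a preconnected set and `f`, `f'` are continuous on
it and agree at a point of it then they agree: the maps `z ↦ (f z) 2 + i (2 π / n) (f z) 3` have the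
same exponentials.
-/

set_option autoImplicit false

open scoped ContDiff Topology
open Set Filter Metric

namespace Pool.Agent.Rot4

open Pool.Agent.HopfCov Pool.Agent.HopfFin Pool.Agent.HopfCov.Smooth

/-- the complex coordinate of a point -/
noncomputable def cc (n : ℕ) (u : E4) : ℂ := ⟨u 2, 2 * Real.pi / n * u 3⟩

theorem continuous_cc (n : ℕ) : Continuous (cc n) := by
  have h : cc n = fun u : E4 =>
      ((u 2 : ℝ) : ℂ) + ((2 * Real.pi / n * u 3 : ℝ) : ℂ) * Complex.I := by
    funext u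
    exact Complex.mk_eq_add_mul_I _ _
  rw [h]
  fun_prop

theorem exp_cc (n : ℕ) (u : E4) : Complex.exp (cc n u) = ⟨(q2 n u) 2, (q2 n u) 3⟩ := by
  apply Complex.ext
  · simp [Complex.exp_re, cc, q2]
  · simp [Complex.exp_im, cc, q2]

theorem exists_lift {n : ℕ} (hn : 0 < n) {g : E4 → E4} (hg : Continuous g)
    (h : ∀ z, ¬ OnPlane (g z)) {z₀ u₀ : E4} (hu : q2 n u₀ = g z₀) :
    ∃ g' : E4 → E4, Continuous g' ∧ (∀ z, q2 n (g' z) = g z) ∧ g' z₀ = u₀ := by
  have hn' : (n : ℝ) ≠ 0 := by exact_mod_cast hn.ne'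
  have hne : ∀ z, (⟨(g z) 2, (g z) 3⟩ : ℂ) ≠ 0 := by
    intro z hz
    exact h z ⟨by simpa using congrArg Complex.re hz, by simpa using congrArg Complex.im hz⟩
  have hcont : Continuous fun z => (⟨(g z) 2, (g z) 3⟩ : ℂ) := by
    have h1 : (fun z => (⟨(g z) 2, (g z) 3⟩ : ℂ)) =
        fun z => (((g z) 2 : ℝ) : ℂ) + (((g z) 3 : ℝ) : ℂ) * Complex.I := by
      funext z
      exact Complex.mk_eq_add_mul_I _ _
    rw [h1]
    fun_prop
  let G : C(E4, {z : ℂ // z ≠ 0}) :=
    ⟨fun z => ⟨⟨(g z) 2, (g z) 3⟩, hne z⟩, Continuous.subtype_mk hcont _⟩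
  have hp := Complex.isCoveringMap_exp
  have he : (fun z : ℂ => (⟨_, z.exp_ne_zero⟩ : {z : ℂ // z ≠ 0})) (cc n u₀) = G z₀ := by
    apply Subtype.ext
    show Complex.exp (cc n u₀) = ⟨(g z₀) 2, (g z₀) 3⟩
    rw [exp_cc, hu]
  obtain ⟨L, ⟨hL0, hL⟩, -⟩ := hp.existsUnique_continuousMap_lifts G z₀ (cc n u₀) he
  have hexp : ∀ z, Complex.exp (L z) = ⟨(g z) 2, (g z) 3⟩ := by
    intro z
    exact congrArg Subtype.val (congrFun hL z)
  have hLc : Continuous L := L.continuous
  have hre : Continuous fun z => (L z).re := Complex.continuous_re.comp hLc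
  have him : Continuous fun z => (L z).im := Complex.continuous_im.comp hLc
  refine ⟨fun z => WithLp.toLp 2 ![(g z) 0, (g z) 1, (L z).re, n / (2 * Real.pi) * (L z).im],
    ?_, ?_, ?_⟩
  · refine (PiLp.continuous_toLp 2 _).comp (continuous_pi fun i => ?_)
    fin_cases i
    · show Continuous fun z => (g z) 0
      fun_prop
    · show Continuous fun z => (g z) 1
      fun_prop
    · exact hre
    · exact continuous_const.mul him
  · intro z
    have h2 : 2 * Real.pi / n * (n / (2 * Real.pi) * (L z).im) = (L z).im := by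
      have := Real.pi_pos.ne'
      field_simp
    have hr := congrArg Complex.re (hexp z)
    have hi := congrArg Complex.im (hexp z)
    rw [Complex.exp_re] at hr
    rw [Complex.exp_im] at hi
    ext i
    fin_cases i
    · simp [q2]
    · simp [q2]
    · simp only [q2]
      simpa [h2] using hr
    · simp only [q2]
      simpa [h2] using hi
  · have h0 : (g z₀) 0 = u₀ 0 := by rw [← hu]; simp [q2]
    have h1 : (g z₀) 1 = u₀ 1 := by rw [← hu]; simp [q2]
    have h2 : (L z₀).re = u₀ 2 := by rw [hL0]; rfl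
    have h3 : (L z₀).im = 2 * Real.pi / n * u₀ 3 := by rw [hL0]; rfl
    have hpi := Real.pi_pos.ne'
    have h4 : n / (2 * Real.pi) * (L z₀).im = u₀ 3 := by
      rw [h3]
      field_simp
    ext i
    fin_cases i
    · simpa using h0
    · simpa using h1
    · simpa using h2
    · simpa using h4

theorem lift_unique {n : ℕ} (hn : 0 < n) {A : Set E4} (hA : IsPreconnected A) {f f' : E4 → E4}
    (hf : ContinuousOn f A) (hf' : ContinuousOn f' A) (h : ∀ z ∈ A, q2 n (f z) = q2 n (f' z))
    {z₀ : E4} (hz₀ : z₀ ∈ A) (h0 : f z₀ = f' z₀) : ∀ z ∈ A, f z = f' z := by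
  have hn' : (n : ℝ) ≠ 0 := by exact_mod_cast hn.ne'
  have hp := Complex.isCoveringMap_exp
  have hE : A.EqOn (fun z => cc n (f z)) fun z => cc n (f' z) := by
    refine hp.eqOn_of_comp_eqOn hA ((continuous_cc n).comp_continuousOn hf)
      ((continuous_cc n).comp_continuousOn hf') ?_ hz₀ ?_
    · intro z hz
      apply Subtype.ext
      show Complex.exp (cc n (f z)) = Complex.exp (cc n (f' z))
      rw [exp_cc, exp_cc, h z hz]
    · show cc n (f z₀) = cc n (f' z₀)
      rw [h0]
  intro z hz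
  have h1 := hE hz
  have hr : (f z) 2 = (f' z) 2 := congrArg Complex.re h1
  have hi : 2 * Real.pi / n * (f z) 3 = 2 * Real.pi / n * (f' z) 3 := congrArg Complex.im h1
  have hpi : 2 * Real.pi / n ≠ 0 := by positivity
  have hi' := mul_left_cancel₀ hpi hi
  have hq := h z hz
  have e0 : (f z) 0 = (f' z) 0 := by
    have := congrArg (fun y : E4 => y 0) hq
    simpa [q2] using this
  have e1 : (f z) 1 = (f' z) 1 := by
    have := congrArg (fun y : E4 => y 1) hq
    simpa [q2] using this
  ext i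
  fin_cases i
  · exact e0
  · exact e1
  · exact hr
  · exact hi'

end Pool.Agent.Rot4
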