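import Pool.Agent.HopfFin.MultiPath
import Pool.Agent.Rot4.Defs
import Pool.Agent.SmoothDegree.NullLagrangian

/-!
# Moving the ray by a homeomorphism supported in a cone

PROOF. `multi_path` (`HopfFin/MultiPath.lean`) with two closed cones (`ι = Fin 2` or `Bool`): `K 0 =
{x | δ / 2 * x 0 ≤ ‖pr x‖}` with `A 0 t = id`, and `K 1 = Cone (δ / 8)` with `A 1 t x = x + t (δ / 8)
(x 0) e1` (`det ≠ 0`: it has the inverse `x ↦ x - t (δ / 8) (x 0) e1`; see `GermShear` or `MultiPath` for
similar determinants). If `A 0 t x = A 1 t y`, then `x 0 = y 0` and `δ / 2 * x 0 ≤ ‖pr x‖ ≤ ‖pr y‖ + δ / 8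
* y 0 ≤ δ / 4 * x 0`, so `x 0 = 0`, `y = 0`, `x = 0`. The result `Θ` is the identity on `K 0`, which
contains the complement of `Cone δ`, and maps `t e0` to `t e0 + t (δ / 8) e1`, whose norm is larger than
its coordinate `t`.
-/

set_option autoImplicit false

open scoped ContDiff Topology
open Set Filter Metric

namespace Pool.Agent.Rot4

open Pool.Agent.HopfCov Pool.Agent.HopfFin Pool.Agent.HopfCov.Smooth

/-- the coordinate `x 0` -/
private noncomputable def co_MoveRay : E4 →L[ℝ] ℝ := EuclideanSpace.proj 0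

/-- the shear -/
private noncomputable def sr_MoveRay (c : ℝ) : E4 →L[ℝ] E4 :=
  ContinuousLinearMap.id ℝ E4 + c • co_MoveRay.smulRight e1

private theorem sr_apply_MoveRay (c : ℝ) (x : E4) : sr_MoveRay c x = x + (c * x 0) • e1 := by
  change x + c • (x 0 • e1) = _
  rw [smul_smul]

private theorem e1_zero_MoveRay : e1 0 = 0 := by simp [e1]

private theorem pr_e1_MoveRay : pr e1 = e1 := by simp [HopfFin.pr, e1]

private theorem norm_e1_MoveRay : ‖e1‖ = 1 := by simp [e1]

private theorem sr_zero_MoveRay (c : ℝ) (x : E4) : (sr_MoveRay c x) 0 = x 0 := by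
  rw [sr_apply_MoveRay, PiLp.add_apply, PiLp.smul_apply, e1_zero_MoveRay, smul_zero, add_zero]

private theorem sr_det_MoveRay (c : ℝ) : (sr_MoveRay c).det ≠ 0 := by
  apply SmoothDegree.det_ne_zero_of_inj
  intro v hv
  have h1 : v 0 = 0 := by
    have h2 := sr_zero_MoveRay c v
    rw [hv] at h2
    exact h2.symm
  rw [sr_apply_MoveRay, h1, mul_zero, zero_smul, add_zero] at hv
  exact hv

private theorem pr_sr_MoveRay (c : ℝ) (x : E4) : pr (sr_MoveRay c x) = pr x + (c * x 0) • e1 := by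
  rw [sr_apply_MoveRay, pr_add, pr_smul, pr_e1_MoveRay]

/-- the two cones stay apart -/
private theorem dis_MoveRay {δ : ℝ} (hδ : 0 < δ) {t : ℝ} (ht0 : 0 ≤ t) (ht1 : t ≤ 1) {x y : E4}
    (hx : δ / 2 * x 0 ≤ ‖pr x‖) (hy : y ∈ Cone (δ / 8)) (h : x = sr_MoveRay (t * (δ / 8)) y) :
    x = 0 ∧ y = 0 := by
  have hy0 : 0 ≤ y 0 := Cone_apply_nonneg (by positivity) hy
  have h1 : x 0 = y 0 := by rw [h, sr_zero_MoveRay]
  have h2 : ‖pr x‖ ≤ δ / 8 * y 0 + δ / 8 * y 0 := by
    rw [h, pr_sr_MoveRay]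
    refine (norm_add_le _ _).trans (add_le_add hy ?_)
    rw [norm_smul, norm_e1_MoveRay, mul_one, Real.norm_of_nonneg (by positivity)]
    refine mul_le_mul_of_nonneg_right ?_ hy0
    nlinarith
  have h3 : y 0 = 0 := by
    rw [h1] at hx
    nlinarith
  have h4 : y = 0 := Cone_eq_zero hy h3
  refine ⟨?_, h4⟩
  rw [h, h4, map_zero]

theorem move_ray {δ : ℝ} (hδ : 0 < δ) : ∃ Θ : E4 ≃ₜ E4, Pz Θ ∧ Supp Θ (Cone δ) ∧
    ∀ t : ℝ, 0 < t → Om (Θ (t • e0)) := by
  set K : Bool → Set E4 := fun b => if b then Cone (δ / 8) else {x : E4 | δ / 2 * x 0 ≤ ‖HopfFin.pr x‖}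
    with hKdef
  set A : Bool → ℝ → (E4 →L[ℝ] E4) := fun b t => if b then sr_MoveRay (t * (δ / 8)) else
    ContinuousLinearMap.id ℝ E4 with hAdef
  have hKt : K true = Cone (δ / 8) := rfl
  have hKf : K false = {x : E4 | δ / 2 * x 0 ≤ ‖HopfFin.pr x‖} := rfl
  have hAt : ∀ t, A true t = sr_MoveRay (t * (δ / 8)) := fun t => rfl
  have hAf : ∀ t, A false t = ContinuousLinearMap.id ℝ E4 := fun t => rfl
  have hcpr : Continuous fun x : E4 => ‖HopfFin.pr x‖ := by
    have h0 : Continuous fun x : E4 => x 0 :=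
      (EuclideanSpace.proj (𝕜 := ℝ) (0 : Fin 4)).continuous
    exact (continuous_id.sub (h0.smul continuous_const)).norm
  have hc0 : Continuous fun x : E4 => x 0 :=
    (EuclideanSpace.proj (𝕜 := ℝ) (0 : Fin 4)).continuous
  obtain ⟨ψ, h1, h2⟩ := multi_path K (by
      intro b
      cases b
      · rw [hKf]
        exact isClosed_le (continuous_const.mul hc0) hcpr
      · rw [hKt]
        exact isClosed_Cone _) (by
      intro b x hx c hc
      cases b
      · rw [hKf] at hx ⊢
        have hx' : δ / 2 * x 0 ≤ ‖pr x‖ := hx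
        change δ / 2 * (c • x) 0 ≤ ‖pr (c • x)‖
        rw [pr_smul, norm_smul, Real.norm_of_nonneg hc.le, PiLp.smul_apply, smul_eq_mul]
        nlinarith [mul_le_mul_of_nonneg_left hx' hc.le]
      · rw [hKt] at hx ⊢
        exact Cone_smul hc.le hx) A (by
      intro b
      cases b
      · exact continuous_const
      · change Continuous fun t : ℝ => ContinuousLinearMap.id ℝ E4 +
          (t * (δ / 8)) • co_MoveRay.smulRight e1
        fun_prop) (by
      intro b t
      cases b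
      · rw [hAf]
        apply SmoothDegree.det_ne_zero_of_inj
        intro v hv
        exact hv
      · rw [hAt]
        exact sr_det_MoveRay _) (by
      intro i j hij t ht0 ht1 x hx y hy h
      cases i <;> cases j
      · exact absurd rfl hij
      · rw [hAf, hAt] at h
        exact (dis_MoveRay hδ ht0 ht1 hx hy h).1
      · rw [hAf, hAt] at h
        exact (dis_MoveRay hδ ht0 ht1 hy hx h.symm).2
      · exact absurd rfl hij)
  refine ⟨ψ, h1, ?_, ?_⟩
  · intro x hx
    refine h2 false x ?_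
    change δ / 2 * x 0 ≤ ‖pr x‖
    have h3 : ¬ ‖pr x‖ ≤ δ * x 0 := hx
    rw [not_le] at h3
    rcases le_total 0 (x 0) with h4 | h4
    · nlinarith
    · nlinarith [norm_nonneg (pr x)]
  · intro t ht
    have h3 : t • e0 ∈ K true := smul_e0_mem_Cone (by positivity) ht.le
    have h4 := h2 true _ h3
    rw [hAt, hAt, zero_mul, one_mul] at h4
    have h5 : sr_MoveRay 0 (t • e0) = t • e0 := by
      rw [sr_apply_MoveRay, zero_mul, zero_smul, add_zero]
    rw [h5] at h4
    rw [h4]
    change (sr_MoveRay (δ / 8) (t • e0)) 0 < ‖sr_MoveRay (δ / 8) (t • e0)‖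
    have h6 := norm_sq_eq (sr_MoveRay (δ / 8) (t • e0))
    have h7 : (sr_MoveRay (δ / 8) (t • e0)) 0 = t := by
      rw [sr_zero_MoveRay, PiLp.smul_apply, e0_apply_zero, smul_eq_mul, mul_one]
    have h8 : 0 < ‖pr (sr_MoveRay (δ / 8) (t • e0))‖ := by
      rw [pr_sr_MoveRay, pr_smul, pr_e0, smul_zero, zero_add, norm_smul, norm_e1_MoveRay, mul_one,
        PiLp.smul_apply, e0_apply_zero, smul_eq_mul, mul_one]
      rw [Real.norm_of_nonneg (by positivity)]
      positivity
    rw [h7] at h6 ⊢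
    have h9 := norm_nonneg (sr_MoveRay (δ / 8) (t • e0))
    have h10 : 0 < ‖pr (sr_MoveRay (δ / 8) (t • e0))‖ ^ 2 := by positivity
    by_contra h11
    rw [not_lt] at h11
    nlinarith [pow_le_pow_left₀ h9 h11 2]

end Pool.Agent.Rot4
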