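import Pool.Agent.Rot4.RelNear
import Pool.Agent.Rot4.MoveRay
import Pool.Agent.Rot4.CoordInv
import Pool.Agent.HopfFree.Unique

/-!
# `Off` generators are standard off one orbit
-/

set_option autoImplicit false

open scoped ContDiff Topology
open Set Filter Metric

namespace Pool.Agent.Rot4

open Pool.Agent.HopfCov Pool.Agent.HopfFin Pool.Agent.HopfCov.Smooth

private theorem reloffa_tau_zpow (k : ℤ) (x : E4) :
    (tau ^ k : E4 ≃ₜ E4) x = ((2 : ℝ) ^ (-k)) • x := by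
  induction k using Int.induction_on with
  | zero => simp
  | succ n ih =>
    have h1 : (tau ^ ((n : ℤ) + 1) : E4 ≃ₜ E4) = tau * tau ^ (n : ℤ) := by
      rw [add_comm, zpow_add, zpow_one]
    rw [h1, mul_apply', ih]
    show (2⁻¹ : ℝ) • ((2 : ℝ) ^ (-(n : ℤ)) • x) = (2 : ℝ) ^ (-((n : ℤ) + 1)) • x
    rw [smul_smul, neg_add, zpow_add₀ two_ne_zero, zpow_neg_one, mul_comm]
  | pred n ih =>
    have h1 : (tau ^ (-(n : ℤ) - 1) : E4 ≃ₜ E4) = tau⁻¹ * tau ^ (-(n : ℤ)) := by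
      rw [sub_eq_neg_add, zpow_add, zpow_neg_one]
    have h2 : ∀ y : E4, (tau⁻¹ : E4 ≃ₜ E4) y = (2 : ℝ) • y := by
      intro y
      apply (tau : E4 ≃ₜ E4).injective
      rw [apply_inv_self']
      show y = (2⁻¹ : ℝ) • ((2 : ℝ) • y)
      rw [smul_smul, inv_mul_cancel₀ two_ne_zero, one_smul]
    rw [h1, mul_apply', ih, h2, smul_smul]
    congr 1
    have h3 : (-(-(n : ℤ) - 1)) = 1 + (n : ℤ) := by ring
    rw [h3, neg_neg, zpow_add₀ two_ne_zero, zpow_one]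

theorem off_rel0_aux {G : E4 ≃ₜ E4} (hPD : PD 1 G) (hc : Contr G) (hO : Off G) :
    ∃ Φ : E4 ≃ₜ E4, Φ 0 = 0 ∧ Φ * G = tau * Φ ∧
      ∃ b, ∀ x, x ≠ 0 → (∀ k : ℤ, x ≠ (G ^ k : E4 ≃ₜ E4) b) → Reg Φ x := by
  obtain ⟨G', ht, κ, hκ, he⟩ := hO
  have h1 : G' = κ * G * κ⁻¹ := by rw [he, mul_assoc, mul_inv_cancel, mul_one]
  have h2 : Contr G' := by
    rw [h1]
    exact hc.conj hκ.1
  have h4 : PD 1 G' := by
    rw [h1]
    obtain ⟨s, hs, hP⟩ := hκ.exists_sign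
    exact PD_conj hs hP hPD
  obtain ⟨Ψ, f1, f2, y, f3⟩ := core_point hGerm hSwap hRad hdim4 (one_mul 1) h4 ht h2
    (LinearIsometryEquiv.refl ℝ E4) det_refl_pos
  have f2' : Ψ * tau = G' * Ψ := Homeomorph.ext f2
  have f3' : ∀ x, x ≠ 0 → (∀ k : ℤ, x ≠ (tau ^ k : E4 ≃ₜ E4) y) → LD 1 Ψ x := f3
  have hinv : Ψ⁻¹ * G' = tau * Ψ⁻¹ := by
    calc Ψ⁻¹ * G' = Ψ⁻¹ * (G' * Ψ) * Ψ⁻¹ := by group
      _ = Ψ⁻¹ * (Ψ * tau) * Ψ⁻¹ := by rw [f2']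
      _ = tau * Ψ⁻¹ := by group
  obtain ⟨Φ, hΦ⟩ : ∃ Φ : E4 ≃ₜ E4, Φ = Ψ⁻¹ * κ := ⟨_, rfl⟩
  have hΦ0 : Φ 0 = 0 := by
    rw [hΦ, mul_apply', hκ.1]
    exact Ψ.injective (by rw [apply_inv_self', f1])
  have hconj : Φ * G = tau * Φ := by
    rw [hΦ, mul_assoc, he, ← mul_assoc, hinv, mul_assoc]
  have hk : ∀ k : ℤ, ∀ z, Φ ((G ^ k : E4 ≃ₜ E4) z) = (tau ^ k : E4 ≃ₜ E4) (Φ z) := by
    intro k z
    have h5 : Φ * G ^ k = tau ^ k * Φ := ((show SemiconjBy Φ G tau from hconj).zpow_right k).eq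
    rw [← mul_apply', h5, mul_apply']
  obtain ⟨b, hb⟩ : ∃ b : E4, b = (Φ⁻¹ : E4 ≃ₜ E4) y := ⟨_, rfl⟩
  have hΦb : Φ b = y := by rw [hb, apply_inv_self']
  refine ⟨Φ, hΦ0, hconj, b, fun x hx hxb => ?_⟩
  -- the points near `x`
  have hev : ∀ᶠ z in 𝓝 x, z ≠ 0 ∧ ∀ k : ℤ, z ≠ (G ^ k : E4 ≃ₜ E4) b := by
    by_cases hb0 : b = 0
    · have h5 : ∀ k : ℤ, (G ^ k : E4 ≃ₜ E4) b = 0 := by
        intro k
        apply Φ.injective
        rw [hk, hb0, hΦ0, reloffa_tau_zpow, smul_zero]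
      filter_upwards [isOpen_ne.mem_nhds hx] with z hz
      refine ⟨hz, fun k => ?_⟩
      rw [h5]
      exact hz
    · refine ev_off_gen hΦ0 (fun k => ?_) hx hb0 hxb
      rw [hk, reloffa_tau_zpow]
  filter_upwards [hev] with z hz
  obtain ⟨hz0, hzb⟩ := hz
  have h6 : LD 1 Ψ (Φ z) := by
    refine f3' _ (fun h => hz0 (Φ.injective (by rw [h, hΦ0]))) fun k h => ?_
    apply hzb k
    apply Φ.injective
    rw [hk, hΦb, h]
  have h7 : LD 1 (Ψ⁻¹ : E4 ≃ₜ E4) (κ z) := by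
    apply LD.inv'
    rw [hΦ, mul_apply'] at h6
    exact h6
  have h8 := hκ.2 z hz0
  have h9 : LD (fderiv ℝ κ z).det κ z := ⟨h8.1, mul_self_pos.2 h8.2⟩
  have h10 := h7.mul h9
  rw [← hΦ] at h10
  exact ⟨h10.1, fun h0 => by
    have h11 := h10.2
    rw [h0, mul_zero] at h11
    exact lt_irrefl _ h11⟩

end Pool.Agent.Rot4
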