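import Pool.Agent.Rot4.RelNear
import Pool.Agent.Rot4.MoveRay
import Pool.Agent.Rot4.CoordInv
import Pool.Agent.HopfFree.Unique
import Pool.Agent.Rot4.RelOffA

/-!
# `Off` generators are standard off one orbit, relative to the ray

PROOF of `off_rel0`. `Off G`: `κ G = G' κ` with `κ` in `Sm`, `Trap G'`; `G'` is `PD 1` and `Contr`
(as in `std_of_Off`, `HopfFin/Class.lean`: `PD_conj'`, `Contr.conj`). `core_point hGerm hSwap hRad
hdim4 (one_mul 1) .. (L = refl)` (`HopfRem/CoreP.lean`) gives `Φ₁ 0 = 0`, `Φ₁ (tau x) = G' (Φ₁ x)`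
(`tau = tauL refl` by definition), `y`, and `LD 1 Φ₁ x` for all `x ≠ 0` off the orbit of `y` under `tau`.
Put `Φ = Φ₁⁻¹ κ`: `Φ G = tau Φ`, `Φ 0 = 0`, and with `b = κ⁻¹ (Φ₁ y)` it is `Reg` at all `x ≠ 0` off
the orbit of `b` under `G` (`Φ (G ^ k b) = tau ^ k y`; `LD` of the inverse; nearby points are also
off the orbit: `ev_off_gen` of `HopfFin/FinalPlus.lean` with `T = Φ`, if `b ≠ 0`; if `b = 0` all nearby
points are nonzero; `Reg` from `LD` at the nearby points).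

PROOF of `off_rel`. Take `Φ₀`, `b₀` from `off_rel0`. If `b₀ = 0` put `b = - e0` (`Om b`) and `Φ₂ = Φ₀`. If
`Om b₀` put `b = b₀`, `Φ₂ = Φ₀`. Otherwise `b₀ = t e0` with `t > 0` (`not_Om_iff`); take `Θ` from
`move_ray`, it commutes with `G` (`comm_of_supp`); `Φ₂ = Φ₀ Θ` and `b = Θ⁻¹ b₀`: `Om b`, because otherwise
`b = s e0`, `s > 0` and `t e0 = Θ (s e0)` would be in `Om`; `Φ₂` is `Reg` at `x ≠ 0` off the orbit of
`b` (`Reg.comp`, `Sm.reg`, `Θ` maps the orbit of `b` to the orbit of `b₀`). The points `t e0`, `t > 0`,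
are not in the orbit of `b` (`G` and `G⁻¹` map the open ray to itself, so `G ^ k` too, and `b` is not
on it), so `RegRay Φ₂`; apply `rel_near`: `Φ = ψ Φ₂` (`Reg.comp` with `ψ` in `Sm`, `Φ₂ x ≠ 0`).
-/

set_option autoImplicit false

open scoped ContDiff Topology
open Set Filter Metric

namespace Pool.Agent.Rot4

open Pool.Agent.HopfCov Pool.Agent.HopfFin Pool.Agent.HopfCov.Smooth

theorem off_rel0 {G : E4 ≃ₜ E4} (hPD : PD 1 G) (hc : Contr G) (hO : Off G) :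
    ∃ Φ : E4 ≃ₜ E4, Φ 0 = 0 ∧ Φ * G = tau * Φ ∧
      ∃ b, ∀ x, x ≠ 0 → (∀ k : ℤ, x ≠ (G ^ k : E4 ≃ₜ E4) b) → Reg Φ x := by
  exact off_rel0_aux hPD hc hO

private theorem zpow_ray {G : E4 ≃ₜ E4} {δ : ℝ} (hδ : 0 < δ)
    (hG : ∀ x ∈ Cone δ, G x = (2⁻¹ : ℝ) • x) (k : ℤ) :
    ∀ t : ℝ, 0 < t → ∃ s : ℝ, 0 < s ∧ (G ^ k : E4 ≃ₜ E4) (t • e0) = s • e0 := by
  have h1 : ∀ t : ℝ, 0 < t → G (t • e0) = (2⁻¹ * t) • e0 := fun t ht => by
    rw [hG _ (smul_e0_mem_Cone hδ.le ht.le), smul_smul]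
  have h2 : ∀ t : ℝ, 0 < t → (G⁻¹ : E4 ≃ₜ E4) (t • e0) = (2 * t) • e0 := fun t ht => by
    have h := h1 (2 * t) (by positivity)
    have h3 : (2⁻¹ * (2 * t) : ℝ) = t := by ring
    rw [h3] at h
    rw [← h]
    exact G.symm_apply_apply _
  induction k using Int.induction_on with
  | zero => exact fun t ht => ⟨t, ht, rfl⟩
  | succ n ih =>
    intro t ht
    obtain ⟨s, hs, h⟩ := ih (2⁻¹ * t) (by positivity)
    refine ⟨s, hs, ?_⟩
    rw [zpow_add_one, Homeomorph.mul_apply, h1 t ht, h]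
  | pred n ih =>
    intro t ht
    obtain ⟨s, hs, h⟩ := ih (2 * t) (by positivity)
    refine ⟨s, hs, ?_⟩
    rw [zpow_sub_one, Homeomorph.mul_apply, h2 t ht, h]

private theorem off_rel_aux {G : E4 ≃ₜ E4} {δ : ℝ} (hδ : 0 < δ)
    (hG : ∀ x ∈ Cone δ, G x = (2⁻¹ : ℝ) • x) (hPD : PD 1 G) (hc : Contr G) (hO : Off G) :
    ∃ Φ : E4 ≃ₜ E4, Φ 0 = 0 ∧ Φ * G = tau * Φ ∧
      ∃ b, Om b ∧ ∀ x, x ≠ 0 → (∀ k : ℤ, x ≠ (G ^ k : E4 ≃ₜ E4) b) → Reg Φ x := by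
  obtain ⟨Φ₀, h00, hc0, b₀, hr0⟩ := off_rel0 hPD hc hO
  by_cases hb0 : b₀ = 0
  · refine ⟨Φ₀, h00, hc0, -e0, ?_, fun x hx _ => hr0 x hx fun k => ?_⟩
    · show (-e0 : E4) 0 < ‖(-e0 : E4)‖
      rw [norm_neg, norm_e0]
      have h : (-e0 : E4) 0 = -1 := by simp [e0]
      rw [h]
      norm_num
    · have h1 : ∀ k : ℤ, (G ^ k : E4 ≃ₜ E4) 0 = 0 := by
        intro k
        induction k using Int.induction_on with
        | zero => rfl
        | succ n ih => rw [zpow_add_one, Homeomorph.mul_apply, hPD.1, ih]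
        | pred n ih =>
          have h2 : (G⁻¹ : E4 ≃ₜ E4) 0 = 0 := by
            have h3 := G.symm_apply_apply 0
            rw [hPD.1] at h3
            exact h3
          rw [zpow_sub_one, Homeomorph.mul_apply, h2, ih]
      rw [hb0, h1 k]
      exact hx
  · by_cases hom : Om b₀
    · exact ⟨Φ₀, h00, hc0, b₀, hom, hr0⟩
    · obtain ⟨t, ht, hbt⟩ := not_Om_iff.1 hom
      obtain ⟨Θ, hP, hS, hΩ⟩ := move_ray hδ
      have hcomm : Θ * G = G * Θ := comm_of_supp hδ hG hP hS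
      have hz : ∀ k : ℤ, Θ * G ^ k = G ^ k * Θ := fun k =>
        (Commute.zpow_right (show Commute Θ G from hcomm) k).eq
      have hΘ0 : Θ 0 = 0 := hP.sm.1
      set b : E4 := (Θ⁻¹ : E4 ≃ₜ E4) b₀ with hb
      have hΘb : Θ b = b₀ := Θ.apply_symm_apply b₀
      refine ⟨Φ₀ * Θ, ?_, ?_, b, ?_, ?_⟩
      · rw [Homeomorph.mul_apply, hΘ0, h00]
      · rw [mul_assoc, hcomm, ← mul_assoc, hc0, mul_assoc]
      · by_contra hnb
        obtain ⟨s, hs, hbs⟩ := not_Om_iff.1 hnb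
        rcases hs.eq_or_lt with h | h
        · apply hb0
          rw [← hΘb, hbs, ← h, zero_smul, hΘ0]
        · apply hom
          have := hΩ s h
          rwa [← hbs, hΘb] at this
      · intro x hx hk
        refine Reg.comp (f := Θ) (g := Φ₀) (hr0 (Θ x) (hP.sm.ne hx) fun k h => hk k ?_)
          (hP.sm.reg hx)
        have h2 : (G ^ k : E4 ≃ₜ E4) b₀ = Θ ((G ^ k : E4 ≃ₜ E4) b) := by
          have h3 := DFunLike.congr_fun (hz k) b
          rw [Homeomorph.mul_apply, Homeomorph.mul_apply, hΘb] at h3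
          exact h3.symm
        rw [h2] at h
        exact Θ.injective h

theorem off_rel {G : E4 ≃ₜ E4} {δ : ℝ} (hδ : 0 < δ) (hG : ∀ x ∈ Cone δ, G x = (2⁻¹ : ℝ) • x)
    (hPD : PD 1 G) (hc : Contr G) (hO : Off G) :
    ∃ Φ : E4 ≃ₜ E4, Φ 0 = 0 ∧ Φ * G = tau * Φ ∧ (∃ ε : ℝ, 0 < ε ∧ ∀ x ∈ Cone ε, Φ x = x) ∧
      ∃ b, Om b ∧ ∀ x, x ≠ 0 → (∀ k : ℤ, x ≠ (G ^ k : E4 ≃ₜ E4) b) → Reg Φ x := by
  obtain ⟨Φ, hΦ0, hΦc, b, hb, hr⟩ := off_rel_aux hδ hG hPD hc hO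
  have hray : RegRay Φ := by
    intro t ht
    refine hr _ (smul_ne_zero ht.ne' ?_) fun k h => ?_
    · intro h
      have := norm_e0
      rw [h, norm_zero] at this
      exact zero_ne_one this
    · obtain ⟨s, hs, h2⟩ := zpow_ray hδ hG (-k) t ht
      have h3 : (G ^ (-k) : E4 ≃ₜ E4) ((G ^ k : E4 ≃ₜ E4) b) = b := by
        rw [← Homeomorph.mul_apply, ← zpow_add, neg_add_cancel, zpow_zero]
        rfl
      rw [h] at h2
      rw [h3] at h2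
      exact not_Om_iff.2 ⟨s, hs.le, h2⟩ hb
  obtain ⟨ψ, hψ, hψc, hε⟩ := rel_near hδ hG hΦc hray
  refine ⟨ψ * Φ, ?_, hψc, hε, b, hb, fun x hx hk => ?_⟩
  · rw [Homeomorph.mul_apply, hΦ0]
    exact hψ.sm.1
  · have hne : Φ x ≠ 0 := fun h => hx (Φ.injective (h.trans hΦ0.symm))
    exact Reg.comp (f := Φ) (g := ψ) (hψ.sm.reg hne) (hr x hx hk)

end Pool.Agent.Rot4
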