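import Pool.Agent.Rot4.Act
import Pool.Agent.Rot4.RelOff

/-!
# Actions with `Off` generators are linear off one orbit

PROOF. `off_rel` (with `Pair.near`) gives `Φ` and `b`; `Φ` commutes with `G ^ n = tau ^ n` up to
`Φ G = tau Φ`: `Φ tau ^ n = Φ G ^ n = tau ^ n Φ`, so `Nn n 0 Φ`; `drop_conj` (with `f' = rotH n`,
`G' = tau`: `Corr_tau`) gives `h`; `y = q2 n (q1 b)` is not on the plane (`q2_off` or from the
formula: `exp > 0` and `cos`, `sin` not both `0`). Let `x` be different from all `f ^ k y`, `k :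
ℕ`. If `x` is on the plane: `reg_plane` (`Reg` implies `InvertibleAt`). Otherwise `x = q2 n (q1
x')` with `Om x'` (`q2_surj`, `b1`), `x' ≠ G ^ k b` for all integers `k`: otherwise `x = f ^ k y`
for `k ≥ 0` (`Corr.pow`), and for `k < 0` write `k = k' - n j` with `k' ≥ 0`, `j ≥ 0`; `G ^ (n j)
= tau ^ (n j)` does not change the image (`f ^ n = 1`: apply `Corr.pow` to `G ^ (n j) x' = G ^ k'
b`). So `Reg Φ x'`, `Reg h x` by `reg_iff`.
-/

set_option autoImplicit false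

open scoped ContDiff Topology
open Set Filter Metric

namespace Pool.Agent.Rot4

open Pool.Agent.HopfCov hiding pr
open Pool.Agent.HopfFin
open Pool.Agent.HopfCov.Smooth

/-- points over one orbit of `f` lie over the orbit of `G` -/
private theorem OffFrom_orbit {n : ℕ} (hn : 0 < n) {f G H : E4 ≃ₜ E4} (h : Pair n f G H)
    (hf : f ^ n = 1) {x b : E4} (hx : Om x) (hb : Om b) {m : ℤ}
    (hm : x = (G ^ m : E4 ≃ₜ E4) b) :
    ∃ k : ℕ, q2 n (q1 x) = (f ^ k : E4 ≃ₜ E4) (q2 n (q1 b)) := by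
  obtain ⟨k, hk⟩ : ∃ k : ℕ, (k : ℤ) = (n * m.natAbs : ℕ) + m := by
    refine ⟨((n * m.natAbs : ℕ) + m).toNat, Int.toNat_of_nonneg ?_⟩
    have h1 : (m.natAbs : ℤ) ≤ (n * m.natAbs : ℕ) := by
      exact_mod_cast Nat.le_mul_of_pos_left m.natAbs hn
    omega
  refine ⟨k, ?_⟩
  have h1 : (G ^ (n * m.natAbs) : E4 ≃ₜ E4) x = (G ^ k : E4 ≃ₜ E4) b := by
    rw [hm, ← mul_apply', ← zpow_natCast G (n * m.natAbs), ← zpow_add, ← hk, zpow_natCast]
  have h2 := (h.corr.pow (n * m.natAbs)).eq x hx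
  have h3 := (h.corr.pow k).eq b hb
  have h4 : (f ^ (n * m.natAbs) : E4 ≃ₜ E4) = 1 := by rw [pow_mul, hf, one_pow]
  rw [h4] at h2
  rw [h1, h3] at h2
  exact h2.symm

private theorem OffFrom_aux {n : ℕ} (hn : 0 < n) {f G H : E4 ≃ₜ E4} (h : Pair n f G H)
    (hf : f ^ n = 1) (hPD : PD 1 G) (hc : Contr G) (hO : Off G) :
    ∃ k : E4 ≃ₜ E4, AgreeOff k id ∧ (∀ x, k (f x) = rotate n (k x)) ∧
      ∃ y, ¬ OnPlane y ∧ ∀ x, (∀ m : ℕ, x ≠ (f ^ m : E4 ≃ₜ E4) y) → InvertibleAt k x := by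
  obtain ⟨δ, hδ, hG⟩ := h.near
  obtain ⟨Φ, hΦ0, hΦG, ⟨ε, hε, hΦε⟩, b, hb, hreg⟩ := off_rel hδ hG hPD hc hO
  have hcomm : Φ * tau ^ n = tau ^ n * Φ := by
    have h1 : SemiconjBy Φ G tau := hΦG
    have h2 := (h1.pow_right n).eq
    rwa [h.pow] at h2
  have hNn : Nn n 0 Φ :=
    ⟨hΦ0, hcomm, ε, hε, fun x hx => by rw [pow_zero]; exact hΦε x hx⟩
  obtain ⟨k, hk1, hk2, hk3⟩ := drop_conj hn h.corr (Corr_tau hn) hNn hΦG
  refine ⟨k, hk1, fun x => hk3 x, q2 n (q1 b), q2_off n _, fun x hx => ?_⟩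
  by_cases hpl : OnPlane x
  · have h1 : Reg k x := reg_plane (n := n) (a := 0) hk1 hpl
    exact Filter.Eventually.self_of_nhds h1
  · obtain ⟨z, hz⟩ := q2_surj hn hpl
    have hz' : q2 n (q1 (b1 z)) = x := by rw [q1_b1, hz]
    have h1 : Reg Φ (b1 z) := by
      refine hreg (b1 z) (Om_b1 z).ne fun m hm => ?_
      obtain ⟨j, hj⟩ := OffFrom_orbit hn h hf (Om_b1 z) hb hm
      exact hx j (hz' ▸ hj)
    have h2 := (reg_iff hn hk2 (Om_b1 z)).1 h1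
    rw [hz'] at h2
    exact Filter.Eventually.self_of_nhds h2

theorem off_from {n : ℕ} (hn : 0 < n) {f : Homeo4} {G H : E4 ≃ₜ E4} (h : Pair n f G H)
    (hf : f ^ n = 1) (hPD : PD 1 G) (hc : Contr G) (hO : Off G) : LinearOffOrbit n f :=
  OffFrom_aux hn h hf hPD hc hO

end Pool.Agent.Rot4
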