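import Pool.Agent.Rot4.Defs
import Pool.Agent.HopfFree.Unique

/-!
# Generators which are standard off one orbit are `Off`

PROOF. `space_good hG hT` (`HopfFin/Space.lean` or where it is: a manifold with generator `G`),
`offPoint_of_sing` (`HopfFin/OffIff.lean`) with the singular orbit of `b`, `off_of_offPoint`.
-/

set_option autoImplicit false

open scoped ContDiff Topology
open Set Filter Metric

namespace Pool.Agent.Rot4

open Pool.Agent.HopfCov Pool.Agent.HopfFin Pool.Agent.HopfCov.Smooth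

theorem off_of_sing {G T Φ : E4 ≃ₜ E4} (hG : Sm G) (hT : Good G T e0) (h0 : Φ 0 = 0)
    (hΦ : Φ * G = tau * Φ) {b : E4} (hb : b ≠ 0)
    (hr : ∀ x, x ≠ 0 → (∀ k : ℤ, x ≠ (G ^ k : E4 ≃ₜ E4) b) → Reg Φ x) : Off G := by
  obtain ⟨M, p, g, i1, i2, i3, i4, i5⟩ := space_good hG hT
  exact off_of_offPoint ⟨i2, i3⟩ i4 i5 hT.contr
    (offPoint_of_sing ⟨i2, i3⟩ i4 i5 h0 hΦ hb hr)

end Pool.Agent.Rot4
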