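import Pool.Agent.Rot4.Act
import Pool.Agent.Rot4.OffSing

/-!
# Actions which are linear off one orbit have `Off` generators

PROOF. `lift_conj` (with `f' = rotH n`, `G' = tau`: `Nn.tau`, `Corr_tau`) gives `Φ` over `h` with `Φ G =
tau Φ`. The point `y` is not on the plane: `y = q2 n z` (`q2_surj`), `b = b1 z`, `Om b`, `q1 b = z`. Let
`x ≠ 0` be not in the `G`-orbit of `b`. If `x` is in `Om`: then `q x ≠ f ^ k y` for all `k : ℕ`, `q x = q2
n (q1 x)`: otherwise `x` and `G ^ k b` have the same image (`Corr.pow`), so `x = tau ^ (n j) G ^ k b`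
with an integer `j` (`q2_eq`, `b1_shf` and `b1_q1`: `tau ^ (n j)` is the multiplication with `2 ^ (- n
j)`), and this is `G ^ (n j + k) b` by `G ^ n = tau ^ n`. So `InvertibleAt h (q x)`, and at all points
near `q x` too (the orbit of `y` is finite because `f ^ n = 1`, `hp`, so its complement is open), so
`Reg h (q x)` and `Reg Φ x` by `reg_iff`. If `x` is not in `Om`, then `x` is on the open ray
(`not_Om_iff`), where `Φ` is the identity near `x` (`Nn.near`, `Cone_mem_nhds`). `off_of_sing` with `T =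
H`, `Pair.good`.
-/

set_option autoImplicit false

open scoped ContDiff Topology
open Set Filter Metric

namespace Pool.Agent.Rot4

open Pool.Agent.HopfCov hiding pr
open Pool.Agent.HopfFin
open Pool.Agent.HopfCov.Smooth

private theorem tau_zpow_OffTo (m : ℤ) (x : E4) :
    (HopfCov.tau ^ m : E4 ≃ₜ E4) x = (2 : ℝ) ^ (-(m : ℝ)) • x := by
  cases m with
  | ofNat k =>
    have h := tau_pow_apply k x
    simpa using h
  | negSucc k =>
    have h1 : (HopfCov.tau ^ (k + 1) : E4 ≃ₜ E4) ((2 : ℝ) ^ (((k + 1 : ℕ) : ℝ)) • x) = x := by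
      rw [tau_pow_apply, smul_smul, ← Real.rpow_add two_pos, neg_add_cancel, Real.rpow_zero,
        one_smul]
    have h2 : (HopfCov.tau ^ (Int.negSucc k) : E4 ≃ₜ E4) =
        ((HopfCov.tau ^ (k + 1) : E4 ≃ₜ E4))⁻¹ := zpow_negSucc _ _
    have h3 : (-((Int.negSucc k : ℤ) : ℝ)) = ((k + 1 : ℕ) : ℝ) := by
      rw [Int.cast_negSucc, neg_neg]
    rw [h2, h3]
    have h4 := inv_apply_self' (HopfCov.tau ^ (k + 1) : E4 ≃ₜ E4)
      ((2 : ℝ) ^ (((k + 1 : ℕ) : ℝ)) • x)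
    rw [h1] at h4
    exact h4

/-- points with the same image lie in the same orbit -/
theorem orbit_of_q {n : ℕ} (hn : 0 < n) {G : E4 ≃ₜ E4} (hp : G ^ n = tau ^ n) {x y : E4} (hx : Om x)
    (hy : Om y) (h : q2 n (q1 x) = q2 n (q1 y)) : ∃ j : ℤ, x = (G ^ j : E4 ≃ₜ E4) y := by
  obtain ⟨k, hk⟩ := (q2_eq hn).1 h.symm
  refine ⟨n * k, ?_⟩
  have h1 : (G ^ ((n : ℤ) * k) : E4 ≃ₜ E4) = HopfCov.tau ^ ((n : ℤ) * k) := by
    rw [zpow_mul, zpow_mul, zpow_natCast, zpow_natCast, hp]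
  have h2 := congrArg b1 hk
  rw [b1_q1 hx, b1_shf, b1_q1 hy] at h2
  rw [h1, tau_zpow_OffTo, h2]
  congr 2
  push_cast
  ring

theorem off_to {n : ℕ} (hn : 0 < n) {f : Homeo4} {G H : E4 ≃ₜ E4} (h : Pair n f G H)
    (hf : f ^ n = 1) (ho : LinearOffOrbit n f) : Off G := by
  obtain ⟨hh, h1, h2, y, hy, h3⟩ := ho
  obtain ⟨Φ, hΦ, hcor, hcomm⟩ :=
    lift_conj (f := f) (f' := rotH n) (G' := HopfCov.tau) (h := hh) hn h.nnG h.corr (Nn.tau n)
      (Corr_tau hn) h1 h2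
  obtain ⟨z, rfl⟩ := q2_surj hn hy
  refine off_of_sing h.sm h.good hΦ.zero hcomm (b := b1 z) (Om_b1 z).ne ?_
  intro x hx0 hx
  by_cases hO : Om x
  · rw [reg_iff hn hcor hO]
    have hfin : (Set.range fun k : ℕ => (f ^ k).fn (q2 n z)).Finite := by
      refine ((Set.finite_Iio n).image fun k : ℕ => (f ^ k).fn (q2 n z)).subset ?_
      rintro _ ⟨k, rfl⟩
      refine ⟨k % n, Nat.mod_lt _ hn, ?_⟩
      have h4 : f ^ k = f ^ (k % n) := by
        conv_lhs => rw [← Nat.div_add_mod k n, pow_add, pow_mul, hf, one_pow, one_mul]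
      show (f ^ (k % n)).fn (q2 n z) = (f ^ k).fn (q2 n z)
      rw [h4]
    have hnot : q2 n (q1 x) ∉ Set.range fun k : ℕ => (f ^ k).fn (q2 n z) := by
      rintro ⟨k, hk⟩
      have h5 : q2 n (q1 ((G ^ k : E4 ≃ₜ E4) (b1 z))) = q2 n (q1 x) := by
        rw [(Corr.pow h.corr k).eq _ (Om_b1 z), q1_b1]
        exact hk
      obtain ⟨j, hj⟩ := orbit_of_q hn h.pow hO ((Corr.pow h.corr k).dom _ (Om_b1 z)) h5.symm
      refine hx (j + k) ?_
      rw [hj, zpow_add, zpow_natCast]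
      rfl
    have hev : ∀ᶠ w in 𝓝 (q2 n (q1 x)), w ∉ Set.range fun k : ℕ => (f ^ k).fn (q2 n z) :=
      hfin.isClosed.isOpen_compl.mem_nhds hnot
    show ∀ᶠ w in 𝓝 (q2 n (q1 x)), InvertibleAt hh.fn w
    filter_upwards [hev] with w hw
    exact h3 w fun k hk => hw ⟨k, hk.symm⟩
  · obtain ⟨t, ht, rfl⟩ := not_Om_iff.1 hO
    have ht' : 0 < t := by
      rcases ht.lt_or_eq with h1 | h1
      · exact h1
      · exact absurd (by rw [← h1, zero_smul]) hx0
    obtain ⟨δ, hδ, h4⟩ := hΦ.near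
    have h5 : ∀ᶠ w in 𝓝 (t • e0), (Φ : E4 → E4) =ᶠ[𝓝 w] id := by
      have h6 : ∀ᶠ w in 𝓝 (t • e0), w ∈ Cone δ := Cone_mem_nhds hδ ht'
      filter_upwards [h6.eventually_nhds] with w hw
      filter_upwards [hw] with v hv
      rw [h4 v hv, pow_zero]
      rfl
    show ∀ᶠ w in 𝓝 (t • e0), ContDiffAt ℝ ∞ Φ w ∧ (fderiv ℝ Φ w).det ≠ 0
    filter_upwards [h5] with w hw
    refine ⟨contDiffAt_id.congr_of_eventuallyEq hw, ?_⟩
    rw [hw.fderiv_eq, fderiv_id]
    simp [ContinuousLinearMap.det]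

end Pool.Agent.Rot4
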