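import Pool.Agent.Rot4.Defs
import Pool.Agent.HopfFree.MainP

/-!
# The normal form, relative to the ray

PROOF. `normal_form_n Rf_rI (goodR_of hT) hn ..` (`HopfFree/NormN.lean`, `HopfFree/MainP.lean`: as in
the proof of `main_n_pos`; from `Cj (G ^ n) (tau ^ n)` one gets `φ G ^ n = tau φ` with `φ` in `Sm`,
since `tau ^ n` is conjugate to `tau` by the radial power map `pow_mk`, see `MainP`) gives
`κ G κ⁻¹ = K₁ tau K₁⁻¹`, `Supp K₁ (Cone 1)`, `K₁` commutes with `tau ^ n`. Put `K = J K₁ J`, `J = - id`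
(`Homeomorph.neg E4`): `K x = x` on `Cone 1` because `- x` is not in `Cone 1` for `x ≠ 0` in `Cone 1`
(`Cone_apply_nonneg`, `Cone_eq_zero`), `J` commutes with `tau` and is in `Sm`, `J J = 1`. `H = K⁻¹`
and `G' = H⁻¹ tau H = J κ G κ⁻¹ J`.
-/

set_option autoImplicit false

open scoped ContDiff Topology
open Set Filter Metric

namespace Pool.Agent.Rot4

open Pool.Agent.HopfCov hiding pr
open Pool.Agent.HopfFin
open Pool.Agent.HopfTw
open Pool.Agent.HopfFree

private noncomputable def J_RelNorm : E4 ≃ₜ E4 := linH (LinearIsometryEquiv.neg ℝ)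

private theorem J_apply_RelNorm (x : E4) : J_RelNorm x = -x := by
  unfold J_RelNorm
  rw [linH_apply]
  rfl

private theorem J_sm_RelNorm : Sm J_RelNorm := Sm_linH _

private theorem J_inv_RelNorm : J_RelNorm⁻¹ = J_RelNorm := by
  refine inv_eq_of_mul_eq_one_right (Homeomorph.ext fun x => ?_)
  rw [mul_apply', J_apply_RelNorm, J_apply_RelNorm, neg_neg]
  rfl

private theorem J_tau_RelNorm : Commute J_RelNorm (tau : E4 ≃ₜ E4) := Homeomorph.ext fun x => by
  rw [mul_apply', mul_apply', J_apply_RelNorm, J_apply_RelNorm, tau_apply, tau_apply, smul_neg]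

theorem norm_rel {G T : E4 ≃ₜ E4} (hG : Sm G) (hT : Good G T e0) {n : ℕ} (hn : 0 < n)
    (h : Cj (G ^ n) (tau ^ n)) :
    ∃ G' H : E4 ≃ₜ E4, Cj G G' ∧ Sm G' ∧ H 0 = 0 ∧ H * G' = tau * H ∧
      H * tau ^ n = tau ^ n * H ∧ ∃ ε : ℝ, 0 < ε ∧ ∀ x ∈ Cone ε, H x = x := by
  obtain ⟨μ, hμ, -, hμt⟩ := pow_mk n hn
  obtain ⟨φ, hφ, hφn⟩ := h.trans (show Cj (tau : E4 ≃ₜ E4) (tau ^ n) from ⟨μ, hμ, hμt⟩).symm
  obtain ⟨κ, K, hκ, h0, hK, hκK, hKn⟩ := normal_form_n Rf_rI (goodR_of hT) hn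
    (by rw [linH_rI, one_pow]) hφ (by rw [tauL_rI]; exact hφn)
  rw [tauL_rI] at hκK hKn
  obtain ⟨J, hJ⟩ : ∃ J : E4 ≃ₜ E4, J = J_RelNorm := ⟨_, rfl⟩
  have hJx : ∀ x : E4, J x = -x := fun x => by rw [hJ, J_apply_RelNorm]
  have hJs : Sm J := by rw [hJ]; exact J_sm_RelNorm
  have hJi : J⁻¹ = J := by rw [hJ]; exact J_inv_RelNorm
  have hJJ : J * J = 1 := by
    have h1 := mul_inv_cancel J
    rwa [hJi] at h1
  have hJt : Commute J (tau : E4 ≃ₜ E4) := by rw [hJ]; exact J_tau_RelNorm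
  have hJtn : Commute J ((tau : E4 ≃ₜ E4) ^ n) := hJt.pow_right n
  have hK0 : (K⁻¹ : E4 ≃ₜ E4) 0 = 0 := K.injective (by rw [apply_inv_self', h0])
  have hJκ : Sm (J * κ) := hJs.mul hκ
  have hG' : Cj G ((J * κ) * G * (J * κ)⁻¹) := Cj_conj G hJκ
  have e1 : (J * κ) * G * (J * κ)⁻¹ = J * K * tau * K⁻¹ * J := by
    calc (J * κ) * G * (J * κ)⁻¹ = J * (κ * G * κ⁻¹) * J⁻¹ := by group
      _ = J * K * tau * K⁻¹ * J := by
        rw [hκK, hJi]
        group
  refine ⟨(J * κ) * G * (J * κ)⁻¹, J * K⁻¹ * J, hG', (hJκ.mul hG).mul hJκ.inv, ?_, ?_, ?_, 1,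
    one_pos, ?_⟩
  · rw [mul_apply', mul_apply', hJs.1, hK0, hJs.1]
  · rw [e1]
    calc J * K⁻¹ * J * (J * K * tau * K⁻¹ * J) = J * K⁻¹ * (J * J) * K * tau * K⁻¹ * J := by
          simp only [mul_assoc]
      _ = (J * tau) * K⁻¹ * J := by
          rw [hJJ]
          group
      _ = tau * (J * K⁻¹ * J) := by
          rw [hJt.eq]
          simp only [mul_assoc]
  · have e2 : K⁻¹ * tau ^ n = tau ^ n * K⁻¹ :=
      ((show Commute K ((tau : E4 ≃ₜ E4) ^ n) from hKn).inv_left).eq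
    calc J * K⁻¹ * J * tau ^ n = J * (K⁻¹ * tau ^ n) * J := by
          rw [mul_assoc (J * K⁻¹), hJtn.eq]
          simp only [mul_assoc]
      _ = (J * tau ^ n) * K⁻¹ * J := by
          rw [e2]
          simp only [mul_assoc]
      _ = tau ^ n * (J * K⁻¹ * J) := by
          rw [hJtn.eq]
          simp only [mul_assoc]
  · intro x hx
    rw [mul_apply', mul_apply', hJx x]
    have h1 : K (-x) = -x := by
      by_cases hc : -x ∈ Cone 1
      · have h2 := Cone_apply_nonneg one_pos hx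
        have h3 := Cone_apply_nonneg one_pos hc
        rw [PiLp.neg_apply] at h3
        have h4 : x = 0 := Cone_eq_zero hx (by linarith)
        rw [h4, neg_zero, h0]
      · exact hK _ hc
    have h2 : (K⁻¹ : E4 ≃ₜ E4) (-x) = -x := by
      conv_lhs => rw [← h1]
      exact inv_apply_self' K (-x)
    rw [h2, hJx, neg_neg]

end Pool.Agent.Rot4
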