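import Pool.Agent.Rot4.ActDown
import Pool.Agent.Rot4.ActLin
import Pool.Agent.Rot4.OffTo
import Pool.Agent.Rot4.OffFrom
import Pool.Agent.Rot4.RelNorm
import Pool.Agent.Rot4.Equiv
import Pool.Agent.HopfFree.Std
import Pool.Agent.HopfFin.FinIdx

/-!
# The theorems
-/

set_option autoImplicit false

open scoped ContDiff Topology Manifold
open Set Filter Metric

namespace Pool.Agent.Rot4

open Pool.Agent.HopfCov hiding pr
open Pool.Agent.HopfFin
open Pool.Agent.HopfFree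
open Pool.Agent.HopfEnd
open Pool.Agent.HopfCov.Smooth

theorem e0_ne : (e0 : E4) ≠ 0 := by
  intro h
  have h1 := norm_e0
  rw [h, norm_zero] at h1
  exact zero_ne_one h1

theorem Action.pow_eq {n : ℕ} {f : Homeo4} (hf : Action n f) : f ^ n = 1 :=
  Homeomorph.ext fun x => hf.pow x

theorem off_iff {n : ℕ} (hn : 0 < n) {f : Homeo4} (hf : Action n f) {G H : E4 ≃ₜ E4}
    (h : Pair n f G H) : LinearOffOrbit n f ↔ Off G :=
  ⟨off_to hn h (Action.pow_eq hf), off_from hn h (Action.pow_eq hf) (h.good.PD h.sm e0_ne)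
    h.good.contr⟩

/-- an orbit space of a contraction which is conjugate to `x ↦ x / 2` -/
theorem cj_of_std {M : Mfd4} (hM : InS M) (hM' : T2Space M ∧ CompactSpace M) {p : V4 → M.carrier}
    {g : V4 ≃ₜ V4} {G : E4 ≃ₜ E4} (hp : OrbitMap g p) (hG : Extends G g) (h1 : PD 1 G)
    (hc : Contr G) (h : DiffeoS1S3 M) : Cj G tau := by
  have a1 : T2Space M.carrier := hM'.1
  have a2 : CompactSpace M.carrier := hM'.2
  exact std_of_Off h1 hc (off_of_offPoint hM' hp hG hc (offPoint_of_std hM h))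
    (ext_of_std specSwapMul specSwapContr specInversion specModelOrbit hp hG hc h)

/-- an action gives a member of `S` all of whose coverings with `m` sheets, `n ∣ m`, are
standard -/
theorem mfd_of_act {n : ℕ} {f G H : E4 ≃ₜ E4} (h : Pair n f G H) :
    ∃ M : Mfd4, InS M ∧ CoverStd n M ∧ (OffPoint M ↔ Off G) ∧ (DiffeoS1S3 M ↔ Cj G tau) := by
  have hT := h.good
  have hPD : PD 1 G := hT.PD h.sm e0_ne
  have hC : Contr G := hT.contr
  obtain ⟨M, p, g, i1, i2, i3, i4, i5⟩ := space_good h.sm hT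
  refine ⟨M, i1, coverStd_of ⟨i2, i3⟩ i4 i5 (by rw [h.pow]; exact Cj.refl _),
    ⟨off_of_offPoint ⟨i2, i3⟩ i4 i5 hC, offPoint_of_Off ⟨i2, i3⟩ i4 i5 hPD hC⟩,
    cj_of_std i1 ⟨i2, i3⟩ i4 i5 hPD hC, std_of_Cj ⟨i2, i3⟩ i4 i5⟩

/-- conversely -/
theorem act_of_mfd {n : ℕ} (hn : 0 < n) {M : Mfd4} (hM : InS M) (hC : CoverStd n M) :
    ∃ (f : Homeo4) (G H : E4 ≃ₜ E4), Action n f ∧ Pair n f G H ∧ (OffPoint M ↔ Off G) ∧
      (DiffeoS1S3 M ↔ Cj G tau) := by
  obtain ⟨a1, a2, p, g, G, T, h3, h4, h5, h6, h7⟩ := lift_good hM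
  have hPD : PD 1 G := h7.PD h5 e0_ne
  -- the covering with `n` sheets
  obtain ⟨T', h8⟩ := h7.pow norm_e0 hn
  have hPD' : PD 1 (G ^ n) := hPD.pow n
  obtain ⟨N, p', g', j1, j2, j3, j4, j5⟩ := space_good (Sm_of_PD hPD') h8
  obtain rfl : g' = g ^ n := j5.eq_of (h4.pow n)
  obtain ⟨q, hq, -⟩ := cover_of_orbit (M := M) (N := N) a1 j2 j3 h3 h4 h6 hn j4
  have j2' : T2Space N.carrier := j2
  have hN : Closed N := ⟨j3, j2, OrbitMap.connected j4⟩
  have h9 := hC n N q dvd_rfl hn hN hq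
  have h10 : Cj (G ^ n) (tau ^ n) :=
    (cj_of_std j1 ⟨j2, j3⟩ j4 j5 hPD' (h6.pow hn) h9).trans (Cj_tau_pow hn).symm
  obtain ⟨G', H, g1, g2, g3, g4, g5, g6⟩ := norm_rel h5 h7 hn h10
  obtain ⟨f, f1, f2⟩ := act_down hn g2 g3 g4 g5 g6
  refine ⟨f, G', H, f1, f2, ?_, ?_⟩
  · rw [← Off.congr g1]
    exact ⟨off_of_offPoint ⟨a1, a2⟩ h3 h4 h6, offPoint_of_Off ⟨a1, a2⟩ h3 h4 hPD h6⟩
  · constructor
    · intro h
      exact g1.symm.trans (cj_of_std hM ⟨a1, a2⟩ h3 h4 hPD h6 h)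
    · intro h
      exact std_of_Cj ⟨a1, a2⟩ h3 h4 (g1.trans h)

/-- conjugate contractions have diffeomorphic orbit spaces -/
theorem cjV_of_cj {G G' : E4 ≃ₜ E4} (hG : Sm G) (hG' : Sm G') (h : Cj G G') : CjV G G' := by
  obtain ⟨Φ, h1, h2⟩ := h
  obtain ⟨k, k1, k2⟩ := h1.restr
  obtain ⟨g, g1, -⟩ := hG.restr
  obtain ⟨g', g1', -⟩ := hG'.restr
  refine ⟨k, g, g', k2, g1, g1', Or.inl ?_⟩
  have h3 : k * g = g' * k := ((k1.mul g1).eq_of (by rw [h2]; exact g1'.mul k1))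
  rw [h3, mul_inv_cancel_right]

/-- `main_n_pos`, `norm_rel`, `act_down` -/
theorem family {m : ℕ} (hm : 1 < m) {M : Mfd4} (hM : InS M) (hO : ¬ OffPoint M) :
    ∃ F : ℕ → Homeo4, (∀ k, Action m (F k) ∧ ¬ LinearOffOrbit m (F k)) ∧
      ∀ i j, i ≠ j → ¬ SameAction (F i) (F j) := by
  obtain ⟨G, T, h1, h2, h3, h4⟩ := exists_star hM hO
  obtain ⟨V, h8, h9⟩ := main_n_pos h1 h2 h3 h4 hm
  choose T' h10 using fun k => (h8 k).2.2.2.1
  have hm0 : 0 < m := by omega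
  choose G' H g1 g2 g3 g4 g5 g6 using fun k =>
    norm_rel (h8 k).1 (h10 k) hm0 (h8 k).2.2.2.2
  choose F f1 f2 using fun k => act_down hm0 (g2 k) (g3 k) (g4 k) (g5 k) (g6 k)
  refine ⟨F, fun k => ⟨f1 k, fun h => ?_⟩, fun i j hij hs => ?_⟩
  · have h5 := (off_iff hm0 (f1 k) (f2 k)).1 h
    exact (h8 k).2.2.1 ((Off.congr (g1 k)).2 h5)
  · have h5 := same hm0 (f2 i) (f2 j) hs
    have h6 : Cj (V i) (V j) := ((g1 i).trans h5).trans (g1 j).symm
    exact h9 i j hij (cjV_of_cj (h8 i).1 (h8 j).1 h6)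

theorem off_all {n : ℕ} (hn : 1 < n) : (∀ f : Homeo4, Action n f → LinearOffOrbit n f) ↔
    ∀ M : Mfd4, InS M → OffPoint M := by
  have hn0 : 0 < n := by omega
  constructor
  · intro h M hM
    by_contra hO
    obtain ⟨F, h1, -⟩ := family hn hM hO
    exact (h1 0).2 (h _ (h1 0).1)
  · intro h f hf
    obtain ⟨G, H, hP⟩ := act_up hn0 hf
    obtain ⟨M, h1, -, h2, -⟩ := mfd_of_act hP
    exact (off_iff hn0 hf hP).2 (h2.1 (h M h1))

theorem linear_all {n : ℕ} (hn : 1 < n) : (∀ f : Homeo4, Action n f → LinearAction n f) ↔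
    ∀ M : Mfd4, InS M → CoverStd n M → DiffeoS1S3 M := by
  have hn0 : 0 < n := by omega
  constructor
  · intro h M hM hC
    obtain ⟨f, G, H, h1, h2, -, h3⟩ := act_of_mfd hn0 hM hC
    exact h3.2 ((linear_iff hn0 h2).1 (h f h1))
  · intro h f hf
    obtain ⟨G, H, hP⟩ := act_up hn0 hf
    obtain ⟨M, h1, h2, -, h3⟩ := mfd_of_act hP
    exact (linear_iff hn0 hP).2 (h3.1 (h M h1 h2))

/-- **infinitely many actions** -/
theorem infinite_actions {n : ℕ} (hn : 1 < n)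
    (h : ∃ f : Homeo4, Action n f ∧ ¬ LinearOffOrbit n f) {m : ℕ} (hm : 1 < m) :
    ∃ F : ℕ → Homeo4, (∀ k, Action m (F k) ∧ ¬ LinearOffOrbit m (F k)) ∧
      ∀ i j, i ≠ j → ¬ Equivalent (F i) (F j) := by
  obtain ⟨f, h1, h2⟩ := h
  have h3 : ¬ ∀ M : Mfd4, InS M → OffPoint M := fun h4 => h2 ((off_all hn).2 h4 f h1)
  push Not at h3
  obtain ⟨M, hM, hO⟩ := h3
  obtain ⟨F, h5, h6⟩ := family hm hM hO
  obtain ⟨φ, h7⟩ := exists_ineq h6
  exact ⟨fun k => F (φ k), fun k => h5 (φ k), h7⟩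

/-- **the question for `n`** -/
theorem question_iff {n : ℕ} (hn : 1 < n) : (∀ f : Homeo4, Action n f → LinearAction n f) ↔
    (∀ f : Homeo4, Action n f → LinearOffOrbit n f) ∧ ∀ g ∈ grpD, g ^ n ∈ derD → g ∈ derD := by
  rw [linear_all hn, off_all hn]
  exact cancel_S hn

/-- **the question for `n`**, with all orders on the right hand side -/
theorem question_all {n : ℕ} (hn : 1 < n) : (∀ f : Homeo4, Action n f → LinearAction n f) ↔
    (∀ m ≥ 2, ∀ f : Homeo4, Action m f → LinearOffOrbit m f) ∧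
      ∀ g ∈ grpD, g ^ n ∈ derD → g ∈ derD := by
  rw [question_iff hn]
  exact ⟨fun h => ⟨fun m hm => (off_all (show 1 < m by omega)).2 ((off_all hn).1 h.1), h.2⟩,
    fun h => ⟨h.1 n (by omega), h.2⟩⟩

/-- **the question and the uniqueness of the smooth structure of `S¹ × S³`** -/
theorem unique_iff_question {n : ℕ} (hn : 1 < n) : (∀ M : Mfd4, ClassS M → DiffeoS1S3 M) ↔
    Schoenflies ∧ ∀ f : Homeo4, Action n f → LinearAction n f := by
  simp only [classS_iff]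
  constructor
  · intro h
    exact ⟨schoenflies_iff.1 (unique_iff.1 h).1, (linear_all hn).2 fun M hM _ => h M hM⟩
  · rintro ⟨h1, h2⟩
    have h3 := (off_all hn).1 ((question_iff hn).1 h2).1
    have h4 : derD = grpD := schoenflies_iff.2 h1
    refine unique_iff.2 ⟨h4, finite_iff.2 ⟨h3, ?_⟩⟩
    rw [h4, Subgroup.relIndex_self]
    exact one_ne_zero

/-- under the Schoenflies conjecture the answers for all `n` are the same -/
theorem all_of_one (hS : Schoenflies) {n m : ℕ} (hn : 1 < n) (hm : 1 < m)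
    (h : ∀ f : Homeo4, Action n f → LinearAction n f) :
    ∀ f : Homeo4, Action m f → LinearAction m f := by
  have h1 := ((question_iff hn).1 h).1
  have h2 : derD = grpD := schoenflies_iff.2 hS
  refine (question_iff hm).2 ⟨(off_all hm).2 ((off_all hn).1 h1), fun g hg _ => ?_⟩
  rw [h2]
  exact hg

end Pool.Agent.Rot4
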