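import Pool.Agent.HopfFree.MainP
import Pool.Agent.HopfFin.Extend
import Pool.Agent.HopfFin.OffIff
import Pool.Agent.HopfFin.Space
import Pool.Agent.Rot4.Defs

/-!
# The group level relative to a neighbourhood of the ray
-/

set_option autoImplicit false

open scoped ContDiff Topology
open Set Filter Metric

namespace Pool.Agent.Rot4

open Pool.Agent.HopfCov hiding pr
open Pool.Agent.HopfFin Pool.Agent.HopfCov.Smooth
open Pool.Agent.HopfTw Pool.Agent.HopfFree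

/-- a homeomorphism which is the identity on a thin cone is regular there -/
theorem reg_of_agree {H : E4 ≃ₜ E4} (h : AgreeNear H id) {t : ℝ} (ht : 0 < t) :
    Reg H (t • e0) := by
  obtain ⟨δ, hδ, h1⟩ := h
  have h2 : (H : E4 → E4) =ᶠ[𝓝 (t • e0)] id := by
    filter_upwards [Cone_mem_nhds hδ ht] with x hx using h1 x hx
  filter_upwards [h2.eventuallyEq_nhds] with y hy
  refine ⟨contDiffAt_id.congr_of_eventuallyEq hy, ?_⟩
  rw [hy.fderiv_eq, fderiv_id]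
  simp [ContinuousLinearMap.det]

theorem Nn.agree {n : ℕ} {Φ : E4 ≃ₜ E4} (h : Nn n 0 Φ) : AgreeNear Φ id := by
  obtain ⟨δ, hδ, h1⟩ := h.near
  exact ⟨δ, hδ, fun x hx => by rw [h1 x hx]; rfl⟩

/-- (e) a homeomorphism which is the identity near the ray and conjugates `G` to `x ↦ x / 2` -/
theorem good_of_ray {n : ℕ} {G H : E4 ≃ₜ E4} (hH : Nn n 0 H) (h : H * G = tau * H) :
    Good G H e0 := by
  refine ⟨hH.zero, h, fun t ht => ?_⟩
  have h1 : (H⁻¹ : E4 ≃ₜ E4) (t • e0) = t • e0 := by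
    apply H.injective
    rw [apply_inv_self']
    obtain ⟨δ, hδ, h1⟩ := hH.agree
    exact (h1 _ (smul_e0_mem_Cone hδ.le ht.le)).symm
  rw [h1]
  exact reg_of_agree hH.agree ht

/-- (a) the normal form -/
theorem ray_norm {G T : E4 ≃ₜ E4} (hG : Sm G) (hT : Good G T e0) {n : ℕ} (hn : 0 < n)
    (hc : Cj (G ^ n) (tau ^ n)) :
    ∃ K : E4 ≃ₜ E4, Nn n 0 K ∧ Sm (K * tau * K⁻¹) ∧ Cj G (K * tau * K⁻¹) := by
  obtain ⟨φ₁, hφ₁, hφ₂⟩ := hc
  obtain ⟨μ, hμ, -, hμt⟩ := pow_mk n hn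
  have hφ : (μ⁻¹ * φ₁) * G ^ n = tau * (μ⁻¹ * φ₁) := by
    have h1 : μ⁻¹ * tau ^ n = tau * μ⁻¹ := by
      calc μ⁻¹ * tau ^ n = μ⁻¹ * (tau ^ n * μ) * μ⁻¹ := by group
        _ = tau * μ⁻¹ := by rw [← hμt]; group
    calc (μ⁻¹ * φ₁) * G ^ n = μ⁻¹ * (φ₁ * G ^ n) := by group
      _ = (μ⁻¹ * tau ^ n) * φ₁ := by rw [hφ₂]; group
      _ = tau * (μ⁻¹ * φ₁) := by rw [h1]; group
  obtain ⟨κ, K, hκ, h0, hK, hκK, hKn⟩ := normal_form_n Rf_rI (goodR_of hT) hn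
    (by rw [linH_rI, one_pow]) (hμ.inv.mul hφ₁) (by rw [tauL_rI]; exact hφ)
  rw [tauL_rI] at hκK hKn
  obtain ⟨N, hN⟩ : ∃ N : E4 ≃ₜ E4, N = linH (LinearIsometryEquiv.neg ℝ) := ⟨_, rfl⟩
  have hNx : ∀ x, N x = -x := fun x => by rw [hN]; rfl
  have hNN : N * N = 1 := Homeomorph.ext fun x => by
    rw [mul_apply', hNx, hNx, neg_neg]
    rfl
  have hNi : N⁻¹ = N := inv_eq_of_mul_eq_one_left hNN
  have hNt : N * tau = tau * N := Homeomorph.ext fun x => by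
    rw [mul_apply', mul_apply', hNx, hNx, tau_apply, tau_apply, smul_neg]
  have hNs : Sm N := by
    refine ⟨by rw [hNx, neg_zero], fun x _ => ?_⟩
    have h1 : (N : E4 → E4) = fun x => -x := funext hNx
    rw [h1]
    refine ⟨contDiffAt_id.neg, ?_⟩
    have h2 : HasFDerivAt (fun x : E4 => -x) (-(ContinuousLinearMap.id ℝ E4)) x :=
      (hasFDerivAt_id x).neg
    rw [h2.fderiv]
    intro h3
    have h4 : LinearMap.det (-(LinearMap.id : E4 →ₗ[ℝ] E4)) = 0 := h3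
    rw [← neg_one_smul ℝ (LinearMap.id : E4 →ₗ[ℝ] E4), LinearMap.det_smul, LinearMap.det_id] at h4
    simp at h4
  have hNtn : N * tau ^ n = tau ^ n * N := ((show Commute N tau from hNt).pow_right n).eq
  have hKc : N * K * N * tau ^ n = tau ^ n * (N * K * N) := by
    calc N * K * N * tau ^ n = N * K * (N * tau ^ n) := by group
      _ = N * (K * tau ^ n) * N := by rw [hNtn]; group
      _ = (N * tau ^ n) * K * N := by rw [hKn]; group
      _ = tau ^ n * (N * K * N) := by rw [hNtn]; group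
  have hE : N * K * N * tau * (N * K * N)⁻¹ = (N * κ) * G * (N * κ)⁻¹ := by
    calc N * K * N * tau * (N * K * N)⁻¹ = N * K * (N * tau) * N⁻¹ * K⁻¹ * N⁻¹ := by group
      _ = N * (K * tau * K⁻¹) * N⁻¹ := by rw [hNt]; group
      _ = N * (κ * G * κ⁻¹) * N⁻¹ := by rw [hκK]
      _ = (N * κ) * G * (N * κ)⁻¹ := by group
  refine ⟨N * K * N, ⟨?_, hKc, 1, one_pos, fun x hx => ?_⟩, ?_, ?_⟩
  · rw [mul_apply', mul_apply', hNx 0, neg_zero, h0, hNx, neg_zero]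
  · show (N * K * N) x = x
    rw [mul_apply', mul_apply', hNx x, hNx]
    by_cases hx0 : x = 0
    · rw [hx0, neg_zero, h0, neg_zero]
    have h1 : -x ∉ Cone 1 := by
      intro h1
      have h2 := Cone_apply_nonneg one_pos h1
      have h3 := Cone_apply_nonneg one_pos hx
      have h4 : (-x) 0 = -(x 0) := rfl
      rw [h4] at h2
      exact hx0 (Cone_eq_zero hx (by linarith))
    rw [hK _ h1, neg_neg]
  · rw [hE]
    exact ((hNs.mul hκ).mul hG).mul (hNs.mul hκ).inv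
  · rw [hE]
    exact Cj_conj _ (hNs.mul hκ)

/-- the correction near the ray -/
theorem ray_fix {n : ℕ} {G Φ : E4 ≃ₜ E4} (hN : Nn n 1 G) (hn1 : G ^ n = tau ^ n)
    (h0 : Φ 0 = 0) (hr : RegRay Φ) (hc : Φ * G = tau * Φ) :
    ∃ ψ : E4 ≃ₜ E4, Pz ψ ∧ Nn n 0 (ψ⁻¹ * Φ) ∧ (ψ⁻¹ * Φ) * G = tau * (ψ⁻¹ * Φ) := by
  obtain ⟨δ, hδ, hG⟩ := hN.near
  have he : EqvNear Φ := by
    refine ⟨δ, hδ, fun x hx => ?_⟩
    have h1 : G x = (2⁻¹ : ℝ) • x := by rw [hG x hx, pow_one]; rfl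
    have h2 := DFunLike.congr_fun hc x
    rw [mul_apply', mul_apply', h1] at h2
    exact h2
  have he0 : (e0 : E4) ≠ 0 := fun h => by
    have h1 := norm_e0
    rw [h, norm_zero] at h1
    exact zero_ne_one h1
  obtain ⟨ψ, hψ, hag⟩ := extend_germ Φ hr he
    (fun s t _ _ h => smul_left_injective ℝ he0 (Φ.injective h))
  have hcomm : (ψ⁻¹ * Φ) * G = tau * (ψ⁻¹ * Φ) := by
    have h1 : ψ⁻¹ * tau = tau * ψ⁻¹ := hψ.inv.comm
    calc (ψ⁻¹ * Φ) * G = ψ⁻¹ * (Φ * G) := by group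
      _ = (ψ⁻¹ * tau) * Φ := by rw [hc]; group
      _ = tau * (ψ⁻¹ * Φ) := by rw [h1]; group
  have hpow : ∀ k : ℕ, (ψ⁻¹ * Φ) * G ^ k = tau ^ k * (ψ⁻¹ * Φ) := by
    intro k
    induction k with
    | zero => simp
    | succ k ih =>
      calc (ψ⁻¹ * Φ) * G ^ (k + 1) = ((ψ⁻¹ * Φ) * G ^ k) * G := by rw [pow_succ]; group
        _ = tau ^ k * ((ψ⁻¹ * Φ) * G) := by rw [ih]; group
        _ = tau ^ (k + 1) * (ψ⁻¹ * Φ) := by rw [hcomm, pow_succ]; group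
  refine ⟨ψ, hψ, ⟨?_, ?_, ?_⟩, hcomm⟩
  · rw [mul_apply', h0, hψ.inv.sm.1]
  · have h2 := hpow n
    rw [hn1] at h2
    exact h2
  · obtain ⟨ε, hε, h3⟩ := agree_inv_comp hag
    exact ⟨ε, hε, fun x hx => h3 x hx⟩

/-- (b) a standard generator is standard relative to the ray -/
theorem ray_lin {n : ℕ} {G : E4 ≃ₜ E4} (hN : Nn n 1 G) (hn1 : G ^ n = tau ^ n)
    (h : Cj G tau) : ∃ Φ : E4 ≃ₜ E4, Nn n 0 Φ ∧ Sm Φ ∧ Φ * G = tau * Φ := by
  obtain ⟨Φ, hΦ, hc⟩ := h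
  have he0 : (e0 : E4) ≠ 0 := fun h => by
    have h1 := norm_e0
    rw [h, norm_zero] at h1
    exact zero_ne_one h1
  obtain ⟨ψ, hψ, h1, h2⟩ := ray_fix hN hn1 hΦ.1
    (fun t ht => hΦ.reg (smul_ne_zero ht.ne' he0)) hc
  exact ⟨ψ⁻¹ * Φ, h1, hψ.inv.sm.mul hΦ, h2⟩

end Pool.Agent.Rot4
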