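import Pool.Agent.Rot4.Ray
import Pool.Agent.HopfFin.NearId
import Pool.Agent.Rot4.CoordInv

/-!
# The group level relative to a neighbourhood of the ray: one singular orbit
-/

set_option autoImplicit false

open scoped ContDiff Topology
open Set Filter Metric

namespace Pool.Agent.Rot4

open Pool.Agent.HopfCov hiding pr
open Pool.Agent.HopfFin Pool.Agent.HopfCov.Smooth
open Pool.Agent.HopfTw Pool.Agent.HopfFree

private theorem ro_e0 : (e0 : E4) ≠ 0 := fun h => by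
  have h1 := norm_e0
  rw [h, norm_zero] at h1
  exact zero_ne_one h1

/-- a bump function on the cone, homogeneous of degree one -/
private noncomputable def roB (c : ℝ) (x : E4) : ℝ :=
  x 0 * Real.smoothTransition ((x 0 / ‖x‖ - c) / (1 - c))

private theorem roB_smooth (c : ℝ) {x : E4} (hx : x ≠ 0) : ContDiffAt ℝ ∞ (roB c) x := by
  have h1 : ContDiffAt ℝ ∞ (fun x : E4 => x 0) x := by fun_prop
  have h2 : ContDiffAt ℝ ∞ (fun x : E4 => ‖x‖) x := contDiffAt_norm ℝ hx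
  have h3 : ContDiffAt ℝ ∞ (fun x : E4 => (x 0 / ‖x‖ - c) / (1 - c)) x :=
    ((h1.div h2 (norm_ne_zero_iff.2 hx)).sub contDiffAt_const).div_const _
  exact h1.mul (Real.smoothTransition.contDiffAt.comp x h3)

private theorem roB_half (c : ℝ) (x : E4) : roB c ((2⁻¹ : ℝ) • x) = 2⁻¹ * roB c x := by
  have h1 : ((2⁻¹ : ℝ) • x) 0 = 2⁻¹ * x 0 := rfl
  have h2 : 2⁻¹ * x 0 / (2⁻¹ * ‖x‖) = x 0 / ‖x‖ := mul_div_mul_left _ _ (by norm_num)
  rw [roB, h1, norm_smul, Real.norm_of_nonneg (by norm_num), h2, roB]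
  ring

/-- a diffeomorphism which tilts the ray within a thin cone -/
theorem exists_tilt {δ : ℝ} (hδ : 0 < δ) : ∃ Λ : E4 ≃ₜ E4, Pz Λ ∧ Supp Λ (Cone δ) ∧
    ∀ t : ℝ, 0 < t → Om (Λ (t • e0)) := by
  obtain ⟨c, hc⟩ : ∃ c : ℝ, c = 1 / √(1 + δ ^ 2) := ⟨_, rfl⟩
  have h1 : 1 < √(1 + δ ^ 2) := by
    rw [Real.lt_sqrt (by norm_num)]
    nlinarith
  have hc0 : 0 < c := by rw [hc]; positivity
  have hc1 : c < 1 := by
    rw [hc, div_lt_one (by positivity)]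
    exact h1
  obtain ⟨ε, hε, hF⟩ := near_id_smul (fun x => roB c x • e1) (by
      show roB c 0 • e1 = 0
      have : roB c 0 = 0 := by rw [roB]; simp
      rw [this, zero_smul])
    (fun x hx => (roB_smooth c hx).smul contDiffAt_const) (fun x => by
      show roB c _ • e1 = _
      rw [roB_half, mul_smul])
  obtain ⟨Λ, hΛ, hΛx⟩ := hF (ε / 2) (by rw [abs_of_pos (by positivity)]; linarith)
  refine ⟨Λ, hΛ, fun x hx => ?_, fun t ht => ?_⟩
  · have h2 : roB c x = 0 := by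
      by_cases hx0 : x 0 ≤ 0
      · by_cases hz : x = 0
        · rw [hz, roB]; simp
        have h3 : (x 0 / ‖x‖ - c) / (1 - c) ≤ 0 := by
          have h4 : x 0 / ‖x‖ ≤ 0 := div_nonpos_of_nonpos_of_nonneg hx0 (norm_nonneg x)
          exact div_nonpos_of_nonpos_of_nonneg (by linarith) (by linarith)
        rw [roB, Real.smoothTransition.zero_of_nonpos h3, mul_zero]
      · push Not at hx0
        have hn : 0 < ‖x‖ := norm_pos_iff.2 fun h => by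
          rw [h] at hx0
          exact lt_irrefl _ hx0
        have h3 : (x 0 / ‖x‖ - c) / (1 - c) ≤ 0 := by
          have h4 : x 0 / ‖x‖ ≤ c := by
            rw [hc, div_le_div_iff₀ hn (by positivity), one_mul]
            have h5 : δ * x 0 < ‖pr x‖ := by
              by_contra hcon
              push Not at hcon
              exact hx hcon
            have h6 := norm_sq_eq x
            have h7 : (x 0 * √(1 + δ ^ 2)) ^ 2 ≤ ‖x‖ ^ 2 := by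
              rw [mul_pow, Real.sq_sqrt (by positivity), h6]
              nlinarith [mul_pos hδ hx0]
            exact (abs_le_of_sq_le_sq h7 hn.le |> (le_abs_self _).trans)
          exact div_nonpos_of_nonpos_of_nonneg (by linarith) (by linarith)
        rw [roB, Real.smoothTransition.zero_of_nonpos h3, mul_zero]
    rw [hΛx, h2, zero_smul, smul_zero, add_zero]
  · have h2 : roB c (t • e0) = t := by
      have h3 : (t • e0 : E4) 0 = t := by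
        show t * e0 0 = t
        rw [e0_apply_zero, mul_one]
      rw [roB, h3, norm_smul, norm_e0, mul_one, Real.norm_of_nonneg ht.le, div_self ht.ne',
        div_self (by linarith), Real.smoothTransition.one, mul_one]
    rw [hΛx, h2]
    obtain ⟨y, hy⟩ : ∃ y : E4, y = t • e0 + (ε / 2) • t • e1 := ⟨_, rfl⟩
    rw [← hy]
    have hy0 : y 0 = t := by
      rw [hy]
      show t * e0 0 + (ε / 2) * (t * e1 0) = t
      rw [e0_apply_zero]
      simp [e1]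
    have hpy : pr y = ((ε / 2) * t) • e1 := by
      rw [pr, hy0, hy, add_sub_cancel_left, smul_smul]
    have hn := norm_sq_eq y
    have he1 : ‖(e1 : E4)‖ = 1 := by simp [e1]
    rw [hy0, hpy, norm_smul, he1, mul_one, Real.norm_of_nonneg (by positivity)] at hn
    show y 0 < ‖y‖
    rw [hy0]
    have h3 : 0 < (ε / 2 * t) ^ 2 := by positivity
    have h4 : t ^ 2 < ‖y‖ ^ 2 := by linarith
    exact lt_of_pow_lt_pow_left₀ 2 (norm_nonneg y) h4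

private theorem ro_fin {a Y : ℝ} (hY : 0 < Y) :
    {k : ℤ | a < (2 : ℝ) ^ (-k) * Y ∧ (2 : ℝ) ^ (-k) * Y < 3 * a}.Finite := by
  rcases Set.eq_empty_or_nonempty {k : ℤ | a < (2 : ℝ) ^ (-k) * Y ∧
    (2 : ℝ) ^ (-k) * Y < 3 * a} with h | ⟨k₀, hk₀⟩
  · rw [h]
    exact Set.finite_empty
  have key : ∀ i j : ℤ, i ∈ {k : ℤ | a < (2 : ℝ) ^ (-k) * Y ∧ (2 : ℝ) ^ (-k) * Y < 3 * a} →
      j ∈ {k : ℤ | a < (2 : ℝ) ^ (-k) * Y ∧ (2 : ℝ) ^ (-k) * Y < 3 * a} → i ≤ j + 1 := by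
    rintro i j ⟨hi, -⟩ ⟨hj1, hj2⟩
    by_contra hcon
    push Not at hcon
    have h1 : (2 : ℝ) ^ (-i) ≤ 2 ^ (-(j + 2)) := zpow_le_zpow_right₀ one_le_two (by omega)
    have h2 : (2 : ℝ) ^ (-(j + 2)) = 2 ^ (-j) / 4 := by
      rw [neg_add, zpow_add₀ two_ne_zero]
      norm_num [zpow_neg]
      ring
    rw [h2] at h1
    have h3 := mul_le_mul_of_nonneg_right h1 hY.le
    have h4 : 0 < (2 : ℝ) ^ (-j) * Y := mul_pos (zpow_pos two_pos _) hY
    nlinarith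
  refine (Set.finite_Icc (k₀ - 1) (k₀ + 1)).subset fun k hk => ⟨?_, key k k₀ hk hk₀⟩
  have := key k₀ k hk₀ hk
  omega

theorem tau_zpow_apply (k : ℤ) (x : E4) : (tau ^ k : E4 ≃ₜ E4) x = (2 : ℝ) ^ (-k) • x := by
  have h2 : ∀ x : E4, (tau⁻¹ : E4 ≃ₜ E4) x = (2 : ℝ) • x := by
    intro x
    apply (tau : E4 ≃ₜ E4).injective
    rw [apply_inv_self', tau_apply, smul_smul]
    norm_num
  induction k using Int.induction_on generalizing x with
  | zero => simp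
  | succ k ih =>
    rw [zpow_add_one, mul_apply', tau_apply, ih, smul_smul]
    congr 1
    rw [neg_add, zpow_add₀ two_ne_zero]
    norm_num
  | pred k ih =>
    rw [zpow_sub_one, mul_apply', h2, ih, smul_smul]
    congr 1
    rw [neg_sub, sub_neg_eq_add, neg_neg, add_comm, zpow_add₀ two_ne_zero]
    norm_num

/-- the complement of an orbit is open -/
theorem tau_orbit_open {x y : E4} (hx : x ≠ 0) (h : ∀ k : ℤ, x ≠ (tau ^ k : E4 ≃ₜ E4) y) :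
    ∀ᶠ z in 𝓝 x, z ≠ 0 ∧ ∀ k : ℤ, z ≠ (tau ^ k : E4 ≃ₜ E4) y := by
  have hz : ∀ᶠ z in 𝓝 x, z ≠ 0 := isOpen_ne.mem_nhds hx
  rcases eq_or_ne y 0 with hy | hy
  · filter_upwards [hz] with z hz
    refine ⟨hz, fun k hk => hz ?_⟩
    rw [hk, tau_zpow_apply, hy, smul_zero]
  have hY : 0 < ‖y‖ := norm_pos_iff.2 hy
  have hX : 0 < ‖x‖ := norm_pos_iff.2 hx
  have hfin := ro_fin (a := ‖x‖ / 2) hY
  have h1 : ∀ᶠ z in 𝓝 x, z ∉ (fun k : ℤ => (tau ^ k : E4 ≃ₜ E4) y) ''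
      {k : ℤ | ‖x‖ / 2 < (2 : ℝ) ^ (-k) * ‖y‖ ∧ (2 : ℝ) ^ (-k) * ‖y‖ < 3 * (‖x‖ / 2)} := by
    refine (hfin.image _).isClosed.isOpen_compl.mem_nhds ?_
    rintro ⟨k, -, hk⟩
    exact h k hk.symm
  have h2 : ∀ᶠ z in 𝓝 x, ‖x‖ / 2 < ‖z‖ ∧ ‖z‖ < 3 * (‖x‖ / 2) :=
    (continuous_norm.continuousAt.eventually (lt_mem_nhds (by linarith))).and
      (continuous_norm.continuousAt.eventually (gt_mem_nhds (by linarith)))
  filter_upwards [hz, h1, h2] with z hz h1 h2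
  refine ⟨hz, fun k hk => h1 ⟨k, ?_, hk.symm⟩⟩
  have h3 : ‖z‖ = (2 : ℝ) ^ (-k) * ‖y‖ := by
    rw [hk, tau_zpow_apply, norm_smul, norm_zpow]
    norm_num
  rw [h3] at h2
  exact h2

private theorem ro_ray {n : ℕ} {G : E4 ≃ₜ E4} (hN : Nn n 1 G) (k : ℤ) : ∀ t : ℝ, 0 < t →
    ∃ s : ℝ, 0 < s ∧ (G ^ k : E4 ≃ₜ E4) (t • e0) = s • e0 := by
  obtain ⟨δ, hδ, hG⟩ := hN.near
  have h1 : ∀ t : ℝ, 0 < t → G (t • e0) = (2⁻¹ * t) • e0 := by
    intro t ht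
    rw [hG _ (smul_e0_mem_Cone hδ.le ht.le), pow_one, tau_apply, smul_smul]
  have h2 : ∀ t : ℝ, 0 < t → (G⁻¹ : E4 ≃ₜ E4) (t • e0) = (2 * t) • e0 := by
    intro t ht
    apply G.injective
    rw [apply_inv_self', h1 _ (by positivity)]
    congr 1
    ring
  induction k using Int.induction_on with
  | zero => exact fun t ht => ⟨t, ht, by simp⟩
  | succ k ih =>
    intro t ht
    rw [zpow_add_one, mul_apply', h1 t ht]
    exact ih _ (by positivity)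
  | pred k ih =>
    intro t ht
    rw [zpow_sub_one, mul_apply', h2 t ht]
    exact ih _ (by positivity)

/-- the last step: from a conjugation with one singular orbit off the ray -/
private theorem ro_last {n : ℕ} {G Θ : E4 ≃ₜ E4} {b : E4} (hN : Nn n 1 G)
    (hn1 : G ^ n = tau ^ n) (h0 : Θ 0 = 0) (hc : Θ * G = tau * Θ) (hb : Om b)
    (hr : ∀ x, x ≠ 0 → (∀ k : ℤ, x ≠ (G ^ k : E4 ≃ₜ E4) b) → Reg Θ x) :
    ∃ (Φ : E4 ≃ₜ E4) (b : E4), Nn n 0 Φ ∧ Φ * G = tau * Φ ∧ Om b ∧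
      ∀ x, x ≠ 0 → (∀ k : ℤ, x ≠ (G ^ k : E4 ≃ₜ E4) b) → Reg Φ x := by
  have hray : RegRay Θ := by
    intro t ht
    refine hr _ (smul_ne_zero ht.ne' ro_e0) fun k hk => ?_
    obtain ⟨s, hs, h1⟩ := ro_ray hN (-k) t ht
    have h2 : (G ^ (-k) : E4 ≃ₜ E4) (t • e0) = b := by
      rw [hk, ← mul_apply', ← zpow_add, neg_add_cancel, zpow_zero]
      rfl
    rw [h1] at h2
    rw [← h2] at hb
    have h3 : (s • e0 : E4) 0 < ‖(s • e0 : E4)‖ := hb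
    have h4 : (s • e0 : E4) 0 = s := by
      show s * e0 0 = s
      rw [e0_apply_zero, mul_one]
    rw [h4, norm_smul, norm_e0, mul_one, Real.norm_of_nonneg hs.le] at h3
    exact lt_irrefl _ h3
  obtain ⟨ψ, hψ, h1, h2⟩ := ray_fix hN hn1 h0 hray hc
  refine ⟨ψ⁻¹ * Θ, b, h1, h2, hb, fun x hx hk => ?_⟩
  have h3 : Θ x ≠ 0 := fun h => hx (Θ.injective (h.trans h0.symm))
  exact Reg.comp (g := (ψ⁻¹ : E4 ≃ₜ E4)) (f := Θ) (hψ.inv.sm.reg h3) (hr x hx hk)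

/-- (c) a generator which is standard off one orbit is so relative to the ray -/
theorem ray_off {n : ℕ} {G : E4 ≃ₜ E4} (hN : Nn n 1 G) (hn1 : G ^ n = tau ^ n) (hP : PD 1 G)
    (hc : Contr G) (hO : Off G) : ∃ (Φ : E4 ≃ₜ E4) (b : E4), Nn n 0 Φ ∧ Φ * G = tau * Φ ∧ Om b ∧
      ∀ x, x ≠ 0 → (∀ k : ℤ, x ≠ (G ^ k : E4 ≃ₜ E4) b) → Reg Φ x := by
  obtain ⟨G', ht, Φ, hΦ, hc1⟩ := hO
  obtain ⟨s, hs, hPD⟩ := hΦ.exists_sign
  have hG'eq : Φ * G * Φ⁻¹ = G' := by rw [hc1, mul_assoc, mul_inv_cancel, mul_one]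
  have e2 : PD 1 G' := by
    have h2 := (hPD.mul hP).mul hPD.inv
    rw [hG'eq, mul_one, hs] at h2
    exact h2
  have e3 : Contr G' := by
    have h2 := hc.conj hPD.1
    rwa [hG'eq] at h2
  obtain ⟨Ψ, f1, f2, y, f3⟩ := core_point hGerm hSwap hRad hdim4 (one_mul 1) e2 ht e3
    (LinearIsometryEquiv.refl ℝ E4) det_refl_pos
  have f2' : Ψ * tau = G' * Ψ := Homeomorph.ext f2
  obtain ⟨Θ, hΘ⟩ : ∃ Θ : E4 ≃ₜ E4, Θ = Ψ⁻¹ * Φ := ⟨_, rfl⟩
  have hΨ0 : (Ψ⁻¹ : E4 ≃ₜ E4) 0 = 0 := by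
    have := inv_apply_self' Ψ 0
    rwa [f1] at this
  have h0 : Θ 0 = 0 := by rw [hΘ, mul_apply', hΦ.1, hΨ0]
  have hcΘ : Θ * G = tau * Θ := by
    calc Θ * G = Ψ⁻¹ * (Φ * G) := by rw [hΘ]; group
      _ = Ψ⁻¹ * (G' * Ψ) * Ψ⁻¹ * Φ := by rw [hc1]; group
      _ = tau * Θ := by rw [← f2', hΘ]; group
  have hzc : ∀ k : ℤ, Θ * G ^ k = tau ^ k * Θ := by
    intro k
    have h1 : Θ * G * Θ⁻¹ = tau := by rw [hcΘ]; group
    have h2 : Θ * G ^ k * Θ⁻¹ = tau ^ k := by rw [← h1, conj_zpow]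
    rw [← h2]
    group
  have hreg : ∀ x, x ≠ 0 → (∀ k : ℤ, Θ x ≠ (tau ^ k : E4 ≃ₜ E4) y) → Reg Θ x := by
    intro x hx hk
    have hw : Θ x ≠ 0 := fun h => hx (Θ.injective (h.trans h0.symm))
    have h1 : ∀ᶠ z in 𝓝 (Θ x), LD 1 Ψ z := by
      filter_upwards [tau_orbit_open hw hk] with z hz
      exact f3 z hz.1 hz.2
    have h2 : Φ x = Ψ (Θ x) := by rw [hΘ, mul_apply', apply_inv_self']
    have h3 : Reg (Ψ⁻¹ : E4 ≃ₜ E4) (Φ x) := by
      have h4 : Tendsto (Ψ⁻¹ : E4 ≃ₜ E4) (𝓝 (Φ x)) (𝓝 (Θ x)) := by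
        have h5 := (Ψ⁻¹ : E4 ≃ₜ E4).continuous.continuousAt (x := Ψ (Θ x))
        rw [ContinuousAt, inv_apply_self'] at h5
        rw [h2]
        exact h5
      rw [h2] at h4 ⊢
      filter_upwards [h4.eventually h1] with z hz
      have h5 := LD.inv Ψ hz
      rw [apply_inv_self'] at h5
      refine ⟨h5.1, fun h => ?_⟩
      have h6 := h5.2
      rw [h, mul_zero] at h6
      exact lt_irrefl _ h6
    rw [hΘ]
    exact Reg.comp (g := (Ψ⁻¹ : E4 ≃ₜ E4)) (f := Φ) h3 (hΦ.reg hx)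
  by_cases hy : y = 0
  · -- no singular orbit
    have hb : Om (-e0) := by
      show (-e0 : E4) 0 < ‖(-e0 : E4)‖
      rw [norm_neg, norm_e0]
      show -(e0 0) < (1 : ℝ)
      rw [e0_apply_zero]
      norm_num
    refine ro_last (b := -e0) hN hn1 h0 hcΘ hb fun x hx _ => hreg x hx fun k hk => ?_
    rw [hy, tau_zpow_apply, smul_zero] at hk
    exact hx (Θ.injective (hk.trans h0.symm))
  obtain ⟨b, hb⟩ : ∃ b : E4, Θ b = y := ⟨Θ.symm y, Θ.apply_symm_apply y⟩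
  have hreg' : ∀ x, x ≠ 0 → (∀ k : ℤ, x ≠ (G ^ k : E4 ≃ₜ E4) b) → Reg Θ x := by
    intro x hx hk
    refine hreg x hx fun k hk' => hk k (Θ.injective ?_)
    rw [hk', ← hb, ← mul_apply', ← hzc, mul_apply']
  by_cases hOm : Om b
  · exact ro_last hN hn1 h0 hcΘ hOm hreg'
  -- tilt the ray
  obtain ⟨t, ht, hbt⟩ := not_Om_iff.1 hOm
  have ht' : 0 < t := by
    rcases ht.lt_or_eq with h | h
    · exact h
    · exfalso
      rw [← h, zero_smul] at hbt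
      rw [hbt, h0] at hb
      exact hy hb.symm
  obtain ⟨δ, hδ, hG⟩ := hN.near
  have hGt : ∀ x ∈ Cone δ, G x = (2⁻¹ : ℝ) • x := fun x hx => by rw [hG x hx, pow_one]; rfl
  obtain ⟨Λ, hΛ, hS, hOΛ⟩ := exists_tilt hδ
  have hGC : ∀ x, G x ∈ Cone δ → x ∈ Cone δ := by
    intro x hx
    have h1 : (2 : ℝ) • G x ∈ Cone δ := Cone_smul (by norm_num) hx
    have h2 := hGt _ h1
    rw [smul_smul, inv_mul_cancel₀ two_ne_zero, one_smul] at h2
    rwa [G.injective h2] at h1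
  have hcomm : Λ * G = G * Λ := by
    apply Homeomorph.ext
    intro x
    rw [mul_apply', mul_apply']
    by_cases hx : x ∈ Cone δ
    · rw [hGt x hx, hΛ.eqv, hGt _ (hS.mem hx)]
    · rw [hS x hx, hS _ fun h => hx (hGC x h)]
  have hΛi : Λ⁻¹ * G = G * Λ⁻¹ := by
    calc Λ⁻¹ * G = Λ⁻¹ * (G * Λ) * Λ⁻¹ := by group
      _ = G * Λ⁻¹ := by rw [← hcomm]; group
  have hΛk : ∀ k : ℤ, Λ * G ^ k = G ^ k * Λ := fun k =>
    ((show Commute Λ G from hcomm).zpow_right k).eq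
  refine ro_last (Θ := Θ * Λ⁻¹) (b := Λ b) hN hn1 ?_ ?_ ?_ ?_
  · rw [mul_apply', hΛ.inv.sm.1, h0]
  · calc Θ * Λ⁻¹ * G = Θ * (Λ⁻¹ * G) := by group
      _ = (Θ * G) * Λ⁻¹ := by rw [hΛi]; group
      _ = tau * (Θ * Λ⁻¹) := by rw [hcΘ]; group
  · rw [hbt]
    exact hOΛ t ht'
  · intro x hx hk
    have h1 : (Λ⁻¹ : E4 ≃ₜ E4) x ≠ 0 := hΛ.inv.sm.ne hx
    refine Reg.comp (g := Θ) (f := (Λ⁻¹ : E4 ≃ₜ E4)) (hreg' _ h1 fun k hk' => hk k ?_)
      (hΛ.inv.sm.reg hx)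
    have h2 : x = Λ ((Λ⁻¹ : E4 ≃ₜ E4) x) := (apply_inv_self' Λ x).symm
    rw [h2, hk', ← mul_apply', hΛk, mul_apply']

/-- (d) the converse -/
theorem off_of_ray {n : ℕ} {G Φ : E4 ≃ₜ E4} {b : E4} (hG : Sm G) (hΦ : Nn n 0 Φ)
    (hc : Φ * G = tau * Φ) (hb : Om b)
    (hr : ∀ x, x ≠ 0 → (∀ k : ℤ, x ≠ (G ^ k : E4 ≃ₜ E4) b) → Reg Φ x) : Off G := by
  have hT := good_of_ray hΦ hc
  obtain ⟨M, p, g, -, h1, h2, h3, h4⟩ := space_good hG hT
  exact off_of_offPoint ⟨h1, h2⟩ h3 h4 hT.contr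
    (offPoint_of_sing ⟨h1, h2⟩ h3 h4 hΦ.zero hc hb.ne hr)

end Pool.Agent.Rot4
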