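import Pool.Agent.HopfFin.Extend
import Pool.Agent.Rot4.Defs

/-!
# Conjugations which are the identity near the ray

PROOFS. `rel_near`: `Φ` commutes with `x ↦ x / 2` on `Cone δ` (`DFunLike.congr_fun hΦ x`, `tau x =
(1/2) x`), so `EqvNear Φ`; `extend_germ Φ` gives `ψ₁` in `Pz` which agrees with `Φ` on a thin cone; `ψ =
ψ₁⁻¹` (`Pz.inv`, `Pz.comm`, `agree_inv_comp`).
`comm_of_supp`: on `Cone δ` both sides are `(1/2) Θ x`; `G` maps `Cone δ` onto itself (`smul_mem_Cone`),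
so it maps the complement to itself (`G` injective), where `Θ` is the identity; `Θ` maps `Cone δ` to
itself (the same argument).
-/

set_option autoImplicit false

open scoped ContDiff Topology
open Set Filter Metric

namespace Pool.Agent.Rot4

open Pool.Agent.HopfCov Pool.Agent.HopfFin Pool.Agent.HopfCov.Smooth

theorem rel_near {G Φ : E4 ≃ₜ E4} {δ : ℝ} (hδ : 0 < δ) (hG : ∀ x ∈ Cone δ, G x = (2⁻¹ : ℝ) • x)
    (hΦ : Φ * G = tau * Φ) (hr : RegRay Φ) :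
    ∃ ψ : E4 ≃ₜ E4, Pz ψ ∧ (ψ * Φ) * G = tau * (ψ * Φ) ∧
      ∃ ε : ℝ, 0 < ε ∧ ∀ x ∈ Cone ε, (ψ * Φ) x = x := by
  have he : EqvNear Φ := ⟨δ, hδ, fun x hx => by
    have h := DFunLike.congr_fun hΦ x
    rw [mul_apply', mul_apply', hG x hx] at h
    exact h⟩
  have hi : ∀ s t : ℝ, 0 < s → 0 < t → Φ (s • e0) = Φ (t • e0) → s = t := by
    intro s t _ _ h
    have h1 := congrArg (fun y : E4 => y 0) (Φ.injective h)
    simpa [e0_apply_zero] using h1
  obtain ⟨ψ, h1, h2⟩ := extend_germ Φ hr he hi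
  refine ⟨ψ⁻¹, h1.inv, ?_, ?_⟩
  · rw [mul_assoc, hΦ, ← mul_assoc, h1.inv.comm, mul_assoc]
  · obtain ⟨ε, hε, h3⟩ := agree_inv_comp h2
    exact ⟨ε, hε, fun x hx => h3 x hx⟩

theorem comm_of_supp {G Θ : E4 ≃ₜ E4} {δ : ℝ} (hδ : 0 < δ)
    (hG : ∀ x ∈ Cone δ, G x = (2⁻¹ : ℝ) • x) (hΘ : Pz Θ) (hS : Supp Θ (Cone δ)) :
    Θ * G = G * Θ := by
  refine Homeomorph.ext fun x => ?_
  rw [mul_apply', mul_apply']
  by_cases hx : x ∈ Cone δ
  · have h1 : Θ x ∈ Cone δ := by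
      by_contra hcon
      have h2 := Θ.injective (hS (Θ x) hcon)
      rw [h2] at hcon
      exact hcon hx
    rw [hG x hx, hΘ.eqv, hG (Θ x) h1]
  · have h1 : G x ∉ Cone δ := by
      intro hcon
      have h2 : (2 : ℝ) • G x ∈ Cone δ := Cone_smul (by norm_num) hcon
      have h3 := hG _ h2
      rw [smul_smul, inv_mul_cancel₀ (two_ne_zero : (2 : ℝ) ≠ 0), one_smul] at h3
      rw [G.injective h3] at h2
      exact hx h2
    rw [hS x hx, hS (G x) h1]

end Pool.Agent.Rot4
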