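import Pool.Agent.Rot4.StatementRot

/-!
# Equivalence of actions

By Smale's theorem on the diffeomorphisms of the 2-sphere and the uniqueness of equivariant tubular
neighbourhoods every smooth equivalence between two actions which are rotations near the 2-sphere
`ℝ² ∪ ∞` can be changed into one which agrees near the 2-sphere with one of the maps
`(x₀, ± x₁, x₂, ± x₃)`.
-/

set_option autoImplicit false

open scoped ContDiff Topology Manifold
open Set Filter Metric

namespace Pool.Agent.HopfCov.Smooth

/-- the map `(x₀, x₁, x₂, x₃) ↦ (x₀, a x₁, x₂, b x₃)` -/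
def reflect (a b : ℝ) (x : E4) : E4 := WithLp.toLp 2 ![x 0, a * x 1, x 2, b * x 3]

/-- `f` and `g` are conjugate by a diffeomorphism of `ℝ⁴` which near the plane and near infinity is one
of the maps `(x₀, ± x₁, x₂, ± x₃)` -/
def Equivalent (f g : Homeo4) : Prop :=
  ∃ h : Homeo4, (∃ a b : ℝ, a ^ 2 = 1 ∧ b ^ 2 = 1 ∧ AgreeOff h.fn (reflect a b)) ∧
    (∀ x, h.fn (f.fn x) = g.fn (h.fn x)) ∧ AllSmooth h

end Pool.Agent.HopfCov.Smooth
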