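import Pool.Agent.Rot4.LiftC
import Pool.Agent.Rot4.ExpCompact
import Pool.Agent.Rot4.Conn

/-!
# Lifting homeomorphisms

PROOF. `F` maps the plane identically to itself (`F y = (rotate n)^[a] y = y`, since `y ∉ K`,
`rotate_onPlane`), so `F` and `F⁻¹` map the complement of the plane to itself. Let `R` be as in
`wsq_lt_of_compact` for `K`, and `R'` the same for the compact set `F '' K` (it does not meet the
plane); let `z₀` be a point with `wsq z₀ ≥ max R R'`. Let `F'` be the lift of `F ∘ q2`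
(`exists_lift`) with `F' z₀ = shf a z₀` (`q2_shf_nat`, `q2 n z₀ ∉ K`), and `F''` the lift of
`F⁻¹ ∘ q2` with `F'' (shf a z₀) = z₀`. By `lift_unique` on `univ`: `F'' (F' z) = z` and
`F' (F'' z) = z`. On the preconnected set `{R ≤ wsq}` (`preconnected_wsq`) `F'` and `shf a` are
lifts of the same map and agree at `z₀`. On `univ`: `z ↦ shf (-n) (F' (shf n z))` is a lift of the
same map as `F'` (`q2_eq` with `k = 1`), and it agrees with `F'` at `z₀`
(`wsq (shf n z₀) = wsq z₀`).

-/

set_option autoImplicit false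

open scoped ContDiff Topology
open Set Filter Metric

namespace Pool.Agent.Rot4

open Pool.Agent.HopfCov Pool.Agent.HopfFin Pool.Agent.HopfCov.Smooth

private theorem continuous_shf (c : ℝ) : Continuous (shf c) := by
  unfold shf
  exact continuous_id.add continuous_const

private theorem iter_onPlane {n : ℕ} (a : ℕ) {y : E4} (hy : OnPlane y) :
    (rotate n)^[a] y = y := by
  induction a with
  | zero => rfl
  | succ a ih => rw [Function.iterate_succ_apply', ih, rotate_onPlane hy]

private theorem q2_shf_n {n : ℕ} (hn : 0 < n) (z : E4) : q2 n (shf n z) = q2 n z := by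
  refine ((q2_eq hn).2 ⟨1, ?_⟩).symm
  rw [Int.cast_one, mul_one]

theorem lift_up {n a : ℕ} (hn : 0 < n) {F : E4 ≃ₜ E4} (hF : AgreeOff F ((rotate n)^[a])) :
    ∃ F' : E4 ≃ₜ E4, (∀ z, q2 n (F' z) = F (q2 n z)) ∧
      (∃ R : ℝ, ∀ z, R ≤ wsq z → F' z = shf a z) ∧ ∀ z, F' (shf n z) = shf n (F' z) := by
  obtain ⟨K, hK, hKoff, hFK⟩ := hF
  -- the plane
  have hfix : ∀ y, OnPlane y → F y = y := by
    intro y hy
    rw [hFK y fun h => hKoff y h hy]
    exact iter_onPlane a hy
  have hoff : ∀ y, ¬ OnPlane y → ¬ OnPlane (F y) := by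
    intro y hy h
    have h1 := F.injective (hfix _ h)
    rw [h1] at h
    exact hy h
  have hoff' : ∀ y, ¬ OnPlane y → ¬ OnPlane (F.symm y) := by
    intro y hy h
    have h1 := hfix _ h
    rw [F.apply_symm_apply] at h1
    rw [← h1] at h
    exact hy h
  obtain ⟨R, hR, hRK⟩ := wsq_lt_of_compact n hK hKoff
  have hbig : ∀ z, R ≤ wsq z → q2 n (shf a z) = F (q2 n z) := by
    intro z hz
    rw [hFK _ fun h => absurd (hRK z h) (not_lt.2 hz), q2_shf_nat hn]
  obtain ⟨z₀, hz₀⟩ : ∃ z₀ : E4, R ≤ wsq z₀ := by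
    refine ⟨WithLp.toLp 2 ![R + 1, 0, 0, 0], ?_⟩
    have h1 : wsq (WithLp.toLp 2 ![R + 1, 0, 0, 0] : E4) = (R + 1) ^ 2 := by
      simp [wsq]
    rw [h1]
    nlinarith
  obtain ⟨f, hfc, hf, hf0⟩ := exists_lift hn (g := fun z => F (q2 n z))
    (F.continuous.comp (continuous_q2 n)) (fun z => hoff _ (q2_off n z)) (hbig z₀ hz₀)
  obtain ⟨f', hfc', hf', hf0'⟩ := exists_lift hn (g := fun z => F.symm (q2 n z))
    (F.symm.continuous.comp (continuous_q2 n)) (fun z => hoff' _ (q2_off n z))
    (z₀ := shf a z₀) (u₀ := z₀) (by rw [hbig z₀ hz₀, F.symm_apply_apply])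
  have h1 : ∀ z, f' (f z) = z := by
    intro z
    refine lift_unique hn isPreconnected_univ (hfc'.comp hfc).continuousOn continuousOn_id
      (fun z _ => ?_) (mem_univ z₀) ?_ z (mem_univ z)
    · show q2 n (f' (f z)) = q2 n z
      rw [hf', hf, F.symm_apply_apply]
    · show f' (f z₀) = z₀
      rw [hf0, hf0']
  have h2 : ∀ z, f (f' z) = z := by
    intro z
    refine lift_unique hn isPreconnected_univ (hfc.comp hfc').continuousOn continuousOn_id
      (fun z _ => ?_) (mem_univ (shf a z₀)) ?_ z (mem_univ z)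
    · show q2 n (f (f' z)) = q2 n z
      rw [hf, hf', F.apply_symm_apply]
    · show f (f' (shf a z₀)) = shf a z₀
      rw [hf0', hf0]
  have h3 : ∀ z, R ≤ wsq z → f z = shf a z := by
    intro z hz
    refine lift_unique hn (preconnected_wsq hR) hfc.continuousOn
      (continuous_shf a).continuousOn (fun z hz => ?_) hz₀ hf0 z hz
    rw [hf, hbig z hz]
  refine ⟨⟨⟨f, f', h1, h2⟩, hfc, hfc'⟩, hf, ⟨R, h3⟩, fun z => ?_⟩
  show f (shf n z) = shf n (f z)
  refine lift_unique hn isPreconnected_univ (hfc.comp (continuous_shf n)).continuousOn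
    ((continuous_shf n).comp hfc).continuousOn (fun z _ => ?_) (mem_univ z₀) ?_ z (mem_univ z)
  · show q2 n (f (shf n z)) = q2 n (shf n (f z))
    rw [hf, q2_shf_n hn, q2_shf_n hn, hf]
  · show f (shf n z₀) = shf n (f z₀)
    rw [h3 _ (by rw [wsq_shf]; exact hz₀), hf0, shf_shf, shf_shf, add_comm]

end Pool.Agent.Rot4
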